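import Mathlib

/-!
# P23O.Alt: the alternating sum of a sum of ridge functions

`v 0, ..., v m'` vectors, `G u = ∑ i, f i ⟪u, v i⟫`.  If `h l` is orthogonal to the `l`-th of the
vectors different from `v i`, the alternating sum of `G` over the points `y + ∑ l ∈ ε, h l` only
sees the function `f i`.
-/

set_option autoImplicit false

open Finset

namespace Pool.Agent.Lib.P23O

variable {E : Type*} [NormedAddCommGroup E] [InnerProductSpace ℝ E]

/-- The sum of ridge functions. -/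
noncomputable def Gs {m : ℕ} (v : Fin m → E) (f : Fin m → ℝ → ℝ) (u : E) : ℝ :=
  ∑ i, f i (inner ℝ u (v i))

/-- An alternating sum over all subsets of a function which does not see the element `a`. -/
lemma alt_zero {k : ℕ} (a : Fin k) (g : Finset (Fin k) → ℝ)
    (hg : ∀ s : Finset (Fin k), a ∉ s → g (insert a s) = g s) :
    ∑ s : Finset (Fin k), (-1 : ℝ) ^ s.card * g s = 0 := by
  classical
  refine Finset.sum_involution (fun s _ => if a ∈ s then s.erase a else insert a s) ?_ ?_ ?_ ?_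
  · intro s _
    by_cases h : a ∈ s
    · rw [if_pos h]
      have h1 := hg (s.erase a) (Finset.notMem_erase a s)
      rw [Finset.insert_erase h] at h1
      rw [h1, Finset.card_erase_of_mem h]
      have h2 : 1 ≤ s.card := Finset.card_pos.mpr ⟨a, h⟩
      obtain ⟨c, hc⟩ := Nat.exists_eq_add_of_le h2
      rw [hc, Nat.add_sub_cancel_left, pow_add, pow_one]
      ring
    · rw [if_neg h, hg s h, Finset.card_insert_of_notMem h, pow_succ]
      ring
  · intro s _ _
    by_cases h : a ∈ s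
    · rw [if_pos h]
      intro heq
      rw [← heq] at h
      exact Finset.notMem_erase a s h
    · rw [if_neg h]
      intro heq
      exact h (heq ▸ Finset.mem_insert_self a s)
  · intro s _
    exact Finset.mem_univ _
  · intro s _
    by_cases h : a ∈ s
    · simp only [if_pos h]
      rw [if_neg (Finset.notMem_erase a s), Finset.insert_erase h]
    · simp only [if_neg h]
      rw [if_pos (Finset.mem_insert_self a s), Finset.erase_insert h]

theorem alt_sum {m' : ℕ} (v : Fin (m' + 1) → E) (f : Fin (m' + 1) → ℝ → ℝ) (i : Fin (m' + 1))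
    (y : E) (h : Fin m' → E) (hh : ∀ l, inner ℝ (h l) (v (i.succAbove l)) = 0) :
    ∑ s : Finset (Fin m'), (-1 : ℝ) ^ s.card * Gs v f (y + ∑ l ∈ s, h l) =
      ∑ s : Finset (Fin m'), (-1 : ℝ) ^ s.card *
        f i (inner ℝ y (v i) + ∑ l ∈ s, inner ℝ (h l) (v i)) := by
  classical
  have h1 : ∀ s : Finset (Fin m'), Gs v f (y + ∑ l ∈ s, h l) =
      f i (inner ℝ y (v i) + ∑ l ∈ s, inner ℝ (h l) (v i)) +
      ∑ l0, f (i.succAbove l0) (inner ℝ y (v (i.succAbove l0)) +
        ∑ l ∈ s, inner ℝ (h l) (v (i.succAbove l0))) := by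
    intro s
    unfold Gs
    rw [Fin.sum_univ_succAbove _ i]
    simp only [inner_add_left, sum_inner]
  simp only [h1, mul_add, Finset.sum_add_distrib]
  rw [add_eq_left]
  simp only [Finset.mul_sum]
  rw [Finset.sum_comm]
  refine Finset.sum_eq_zero fun l0 _ => ?_
  refine alt_zero l0 (fun s => f (i.succAbove l0) (inner ℝ y (v (i.succAbove l0)) +
        ∑ l ∈ s, inner ℝ (h l) (v (i.succAbove l0)))) ?_
  intro s hs
  show f (i.succAbove l0) _ = f (i.succAbove l0) _
  rw [Finset.sum_insert hs, hh l0, zero_add]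

/-- The pointwise inequality: `G` at one point is bounded by the sum of `G` over the shifted
points. -/
theorem point_ineq {m' : ℕ} (v : Fin (m' + 1) → E) (f : Fin (m' + 1) → ℝ → ℝ) (K s : ℝ)
    (hf : ∀ x : ℝ, |x| ≤ 1 → 0 ≤ ∑ i, f i x ∧ ∑ i, f i x ≤ K)
    (hG : ∀ u : E, ‖u‖ ≤ 1 → 0 ≤ Gs v f u)
    (y : Fin (m' + 1) → E) (h : Fin (m' + 1) → Fin m' → E) (a : Fin m' → ℝ)
    (hh : ∀ i l, inner ℝ (h i l) (v (i.succAbove l)) = 0)
    (ha : ∀ i l, inner ℝ (h i l) (v i) = a l) (hy : ∀ i, inner ℝ (y i) (v i) = s)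
    (hb : ∀ i, ∀ t : Finset (Fin m'), ‖y i + ∑ l ∈ t, h i l‖ ≤ 1)
    (hs : ∀ t : Finset (Fin m'), |s + ∑ l ∈ t, a l| ≤ 1) (i0 : Fin (m' + 1)) :
    Gs v f (y i0) ≤ 2 ^ m' * K +
      ∑ i, ∑ t ∈ (univ : Finset (Finset (Fin m'))).erase ∅, Gs v f (y i + ∑ l ∈ t, h i l) := by
  classical
  have hK : 0 ≤ K := (hf 0 (by simp)).1.trans (hf 0 (by simp)).2
  -- the sum of the identities
  have h1 : ∑ i, ∑ t : Finset (Fin m'), (-1 : ℝ) ^ t.card * Gs v f (y i + ∑ l ∈ t, h i l) =
      ∑ t : Finset (Fin m'), (-1 : ℝ) ^ t.card * ∑ i, f i (s + ∑ l ∈ t, a l) := by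
    have h2 : ∀ i, ∑ t : Finset (Fin m'), (-1 : ℝ) ^ t.card * Gs v f (y i + ∑ l ∈ t, h i l) =
        ∑ t : Finset (Fin m'), (-1 : ℝ) ^ t.card * f i (s + ∑ l ∈ t, a l) := by
      intro i
      rw [alt_sum v f i (y i) (h i) (hh i), hy i]
      simp only [ha i]
    simp only [h2]
    rw [Finset.sum_comm]
    refine Finset.sum_congr rfl fun t _ => ?_
    rw [Finset.mul_sum]
  have h3 : ∑ t : Finset (Fin m'), (-1 : ℝ) ^ t.card * ∑ i, f i (s + ∑ l ∈ t, a l) ≤ 2 ^ m' * K := by
    calc ∑ t : Finset (Fin m'), (-1 : ℝ) ^ t.card * ∑ i, f i (s + ∑ l ∈ t, a l) ≤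
        ∑ t : Finset (Fin m'), K := by
          refine Finset.sum_le_sum fun t _ => ?_
          have h4 := hf _ (hs t)
          rcases neg_one_pow_eq_or ℝ t.card with h5 | h5
          · rw [h5, one_mul]; exact h4.2
          · rw [h5]; linarith [h4.1]
      _ = 2 ^ m' * K := by
          rw [Finset.sum_const, nsmul_eq_mul, Finset.card_univ, Fintype.card_finset, Fintype.card_fin]
          push_cast
          ring
  -- separate the empty set
  have h6 : ∀ i, ∑ t : Finset (Fin m'), (-1 : ℝ) ^ t.card * Gs v f (y i + ∑ l ∈ t, h i l) =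
      Gs v f (y i) + ∑ t ∈ (univ : Finset (Finset (Fin m'))).erase ∅,
        (-1 : ℝ) ^ t.card * Gs v f (y i + ∑ l ∈ t, h i l) := by
    intro i
    rw [← Finset.add_sum_erase univ _ (Finset.mem_univ (∅ : Finset (Fin m')))]
    simp
  have h7 : ∀ i, Gs v f (y i) ≤ ∑ t : Finset (Fin m'), (-1 : ℝ) ^ t.card * Gs v f (y i + ∑ l ∈ t, h i l) +
      ∑ t ∈ (univ : Finset (Finset (Fin m'))).erase ∅, Gs v f (y i + ∑ l ∈ t, h i l) := by
    intro i
    rw [h6 i, add_assoc, ← Finset.sum_add_distrib]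
    refine le_add_of_nonneg_right (Finset.sum_nonneg fun t _ => ?_)
    have h8 := hG _ (hb i t)
    rcases neg_one_pow_eq_or ℝ t.card with h5 | h5
    · rw [h5]; linarith
    · rw [h5]; linarith
  have h9 : Gs v f (y i0) ≤ ∑ i, Gs v f (y i) := by
    refine Finset.single_le_sum (f := fun i => Gs v f (y i)) (fun i _ => ?_) (Finset.mem_univ i0)
    have := hG _ (hb i ∅)
    simpa using this
  calc Gs v f (y i0) ≤ ∑ i, Gs v f (y i) := h9
    _ ≤ ∑ i, (∑ t : Finset (Fin m'), (-1 : ℝ) ^ t.card * Gs v f (y i + ∑ l ∈ t, h i l) +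
      ∑ t ∈ (univ : Finset (Finset (Fin m'))).erase ∅, Gs v f (y i + ∑ l ∈ t, h i l)) :=
        Finset.sum_le_sum fun i _ => h7 i
    _ ≤ _ := by
        rw [Finset.sum_add_distrib, h1]
        linarith

end Pool.Agent.Lib.P23O
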