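import Mathlib

/-!
# P23O.Aub: a basis with bounded coordinates

For a compact set `D` in `ℝ^m` there are elements `w_1, ..., w_d` of `D` which form a basis of the
span of `D` such that all coordinates of all elements of `D` are at most `1` in absolute value.
-/

set_option autoImplicit false

open Module Set

namespace Pool.Agent.Lib.P23O

theorem auerbach {m : ℕ} (D : Set (Fin m → ℝ)) (hD : IsCompact D) :
    ∃ (d : ℕ) (w : Fin d → (Fin m → ℝ)) (e : Fin d → ((Fin m → ℝ) →ₗ[ℝ] ℝ)), d ≤ m ∧
      (∀ i, w i ∈ D) ∧ (∀ i j, e j (w i) = if i = j then 1 else 0) ∧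
      (∀ j, ∀ x ∈ D, |e j x| ≤ 1) ∧ (∀ x ∈ Submodule.span ℝ D, x = ∑ j, e j x • w j) := by
  classical
  set V := Submodule.span ℝ D with hV
  set d := Module.finrank ℝ V with hd
  let b : Basis (Fin d) ℝ V := Module.finBasis ℝ V
  obtain ⟨π, hπ⟩ : ∃ π : (Fin m → ℝ) →ₗ[ℝ] V, ∀ x : V, π x = x := by
    obtain ⟨π, hπ⟩ := V.subtype.exists_leftInverse_of_injective (Submodule.ker_subtype V)
    exact ⟨π, fun x => LinearMap.congr_fun hπ x⟩
  -- the determinant
  set Δ : (Fin d → (Fin m → ℝ)) → ℝ := fun x => |b.det fun i => π (x i)| with hΔ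
  have hΔc : Continuous Δ := by
    refine continuous_abs.comp ?_
    simp only [Basis.det_apply]
    refine Continuous.matrix_det ?_
    refine continuous_matrix fun i j => ?_
    have h1 : Continuous fun x : Fin m → ℝ => b.coord i (π x) :=
      LinearMap.continuous_of_finiteDimensional (b.coord i ∘ₗ π)
    exact h1.comp (continuous_apply j)
  -- a basis in `D`
  obtain ⟨S, hSD, hSspan, hSli⟩ := exists_linearIndependent ℝ D
  have hSfin : Finite S := hSli.finite
  have hSft : Fintype S := Fintype.ofFinite S
  have hcard : Fintype.card S = d := by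
    have h1 := finrank_span_set_eq_card (R := ℝ) (s := S) hSli
    rw [hSspan] at h1
    rw [hd, hV, h1, Set.toFinset_card]
  have hfe : Fintype.card (Fin d) = Fintype.card S := by rw [Fintype.card_fin, hcard]
  let ε : Fin d ≃ S := Fintype.equivOfCardEq hfe
  set c : Fin d → (Fin m → ℝ) := fun i => (ε i : Fin m → ℝ) with hc
  have hcD : ∀ i, c i ∈ D := fun i => hSD (ε i).2
  set cV : Fin d → V := fun i => ⟨c i, Submodule.subset_span (hcD i)⟩ with hcV
  have hcli : LinearIndependent ℝ cV := by
    refine LinearIndependent.of_comp V.subtype ?_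
    exact hSli.comp ε ε.injective
  have hcsp : Submodule.span ℝ (Set.range cV) = ⊤ :=
    hcli.span_eq_top_of_card_eq_finrank' (by rw [Fintype.card_fin])
  have hcdet : b.det cV ≠ 0 := by
    have := (b.is_basis_iff_det).mp ⟨hcli, hcsp⟩
    exact this.ne_zero
  have hcΔ : 0 < Δ c := by
    have h1 : (fun i => π (c i)) = cV := funext fun i => hπ (cV i)
    rw [hΔ]
    show 0 < |b.det fun i => π (c i)|
    rw [h1]
    exact abs_pos.mpr hcdet
  -- the maximum
  obtain ⟨w, hwD, hwmax⟩ := (isCompact_univ_pi fun _ : Fin d => hD).exists_isMaxOn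
    (f := Δ) ⟨c, fun i _ => hcD i⟩ hΔc.continuousOn
  have hwD' : ∀ i, w i ∈ D := fun i => hwD i (Set.mem_univ i)
  set wV : Fin d → V := fun i => ⟨w i, Submodule.subset_span (hwD' i)⟩ with hwV
  have hπw : (fun i => π (w i)) = wV := funext fun i => hπ (wV i)
  have hΔw : Δ w = |b.det wV| := by
    rw [hΔ]
    show |b.det fun i => π (w i)| = _
    rw [hπw]
  have hwpos : 0 < |b.det wV| := by
    rw [← hΔw]
    have h1 : Δ c ≤ Δ w := hwmax (fun i _ => hcD i)
    linarith
  have hwbasis := (b.is_basis_iff_det (v := wV)).mpr (isUnit_iff_ne_zero.mpr (abs_pos.mp hwpos))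
  set B : Basis (Fin d) ℝ V := Basis.mk hwbasis.1 hwbasis.2.ge with hB
  have hBw : ∀ i, B i = wV i := fun i => by rw [hB, Basis.mk_apply]
  refine ⟨d, w, fun j => B.coord j ∘ₗ π, ?_, hwD', ?_, ?_, ?_⟩
  · have h1 := Submodule.finrank_le V
    rw [Module.finrank_fin_fun] at h1
    exact h1
  · intro i j
    have h1 : π (w i) = B i := by rw [hBw]; exact hπ (wV i)
    show B.coord j (π (w i)) = _
    rw [h1, Basis.coord_apply, Basis.repr_self, Finsupp.single_apply]
  · intro j x hx
    set xV : V := ⟨x, Submodule.subset_span hx⟩ with hxV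
    have hπx : π x = xV := hπ xV
    show |B.coord j (π x)| ≤ 1
    rw [hπx]
    have h1 := LinearMap.congr_fun
      (b.det_smul_mk_coord_eq_det_update hwbasis.1 hwbasis.2.ge j) xV
    have h2 : b.det wV * B.coord j xV = b.det (Function.update wV j xV) := h1
    have h3 : Δ (Function.update w j x) = |b.det (Function.update wV j xV)| := by
      rw [hΔ]
      show |b.det fun i => π (Function.update w j x i)| = _
      congr 2
      funext i
      by_cases h : i = j
      · subst h; rw [Function.update_self, Function.update_self, hπx]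
      · rw [Function.update_of_ne h, Function.update_of_ne h]; exact hπ (wV i)
    have h4 : Δ (Function.update w j x) ≤ Δ w := by
      refine hwmax fun i _ => ?_
      by_cases h : i = j
      · subst h; rw [Function.update_self]; exact hx
      · rw [Function.update_of_ne h]; exact hwD' i
    rw [h3, hΔw, ← h2, abs_mul] at h4
    exact le_of_mul_le_mul_left (by rw [mul_one]; exact h4) hwpos
  · intro x hx
    set xV : V := ⟨x, hx⟩ with hxV
    have hπx : π x = xV := hπ xV
    have h1 := B.sum_repr xV
    have h2 := congrArg V.subtype h1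
    rw [map_sum] at h2
    simp only [map_smul, hBw] at h2
    show x = ∑ j, (B.coord j (π x)) • w j
    rw [hπx]
    exact h2.symm

end Pool.Agent.Lib.P23O
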