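import Pool.Agent.Lib.P23O.Point
import Pool.Agent.Lib.P325pg.Hull

/-!
# P23O.Cone: the cone generated by the values of an Orlicz function

`FF M v u = (M ⟪u, v i⟫)_i`.  For an Orlicz function `M` and small `t` the vector
`(1, ..., 1) - R ∑ j, FF M v (z j)` is a nonnegative combination of values of `FF M v` on the ball
of radius `t`, for all points `z j` of this ball.
-/

set_option autoImplicit false

open Finset MeasureTheory Metric

open scoped ENNReal

namespace Pool.Agent.Lib.P23O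

/-- Convex even functions vanishing at zero. -/
structure Orl (M : ℝ → ℝ) : Prop where
  conv : ConvexOn ℝ Set.univ M
  even : ∀ t, M (-t) = M t
  zero : M 0 = 0

namespace Orl

variable {M : ℝ → ℝ} (h : Orl M)

include h

lemma cont : Continuous M :=
  (h.conv.locallyLipschitz).continuous

lemma scale {c : ℝ} (hc0 : 0 ≤ c) (hc1 : c ≤ 1) (t : ℝ) : M (c * t) ≤ c * M t := by
  have h1 := h.conv.2 (Set.mem_univ t) (Set.mem_univ 0) hc0 (sub_nonneg.mpr hc1) (by ring)
  simp only [smul_eq_mul, mul_zero, add_zero, h.zero] at h1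
  exact h1

lemma nonneg (t : ℝ) : 0 ≤ M t := by
  have h1 := h.conv.2 (Set.mem_univ t) (Set.mem_univ (-t)) (by norm_num : (0 : ℝ) ≤ 1 / 2)
    (by norm_num : (0 : ℝ) ≤ 1 / 2) (by norm_num)
  simp only [smul_eq_mul, h.even] at h1
  have h2 : (1 / 2 : ℝ) * t + 1 / 2 * -t = 0 := by ring
  rw [h2, h.zero] at h1
  linarith

lemma abs (t : ℝ) : M |t| = M t := by
  rcases abs_choice t with h1 | h1
  · rw [h1]
  · rw [h1, h.even]

lemma mono {x y : ℝ} (hxy : |x| ≤ |y|) : M x ≤ M y := by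
  rcases eq_or_ne y 0 with hy | hy
  · subst hy
    have : x = 0 := by simpa using hxy
    rw [this]
  · have hy0 : 0 < |y| := abs_pos.mpr hy
    rw [← h.abs x, ← h.abs y]
    have h1 := h.scale (c := |x| / |y|) (by positivity) ((div_le_one hy0).mpr hxy) |y|
    rw [div_mul_cancel₀ _ hy0.ne'] at h1
    refine h1.trans ?_
    have h2 := h.nonneg |y|
    have h3 : |x| / |y| ≤ 1 := (div_le_one hy0).mpr hxy
    nlinarith

end Orl

variable {E : Type*} [NormedAddCommGroup E] [InnerProductSpace ℝ E]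

/-- The vector of the values. -/
def FF {m : ℕ} (M : ℝ → ℝ) (v : Fin m → E) (u : E) : Fin m → ℝ := fun i => M (inner ℝ u (v i))

lemma FF_cont {m : ℕ} {M : ℝ → ℝ} (hM : Continuous M) (v : Fin m → E) : Continuous (FF M v) := by
  refine continuous_pi fun i => ?_
  exact hM.comp (continuous_id.inner continuous_const)

lemma FF_zero {m : ℕ} {M : ℝ → ℝ} (hM : M 0 = 0) (v : Fin m → E) : FF M v 0 = 0 := by
  funext i
  show M (inner ℝ (0 : E) (v i)) = 0
  rw [inner_zero_left, hM]

variable [FiniteDimensional ℝ E] [MeasurableSpace E] [BorelSpace E]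

omit [FiniteDimensional ℝ E] [MeasurableSpace E] [BorelSpace E] in
/-- The robust form of the pointwise bound. -/
theorem robust {m' : ℕ} (v : Fin (m' + 1) → E) (C : ℝ)
    (hC : ∀ (f : Fin (m' + 1) → ℝ → ℝ) (K : ℝ), (∀ i, Continuous (f i)) →
      (∀ i x, f i (-x) = f i x) →
      (∀ x : ℝ, |x| ≤ 1 → 0 ≤ ∑ i, f i x ∧ ∑ i, f i x ≤ K) →
      (∀ u : E, ‖u‖ ≤ 1 → 0 ≤ Gs v f u) → ∀ y : E, ‖y‖ ≤ 1 → Gs v f y ≤ C * K)
    {M : ℝ → ℝ} (hM : Orl M) {t : ℝ} (ht : 0 < t) (lam : Fin (m' + 1) → ℝ) {δ : ℝ} (hδ : 0 ≤ δ)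
    (hH : ∀ u : E, ‖u‖ ≤ t → -δ ≤ ∑ i, lam i * M (inner ℝ u (v i))) (y : E) (hy : ‖y‖ ≤ t) :
    ∑ i, lam i * M (inner ℝ y (v i)) ≤ C * (max (∑ i, lam i) 0 * M t + δ) := by
  set S := ∑ i, lam i with hS
  set c : ℝ := max (-S) 0 / (m' + 1) with hc
  have hm : (0 : ℝ) < m' + 1 := by positivity
  have hc0 : 0 ≤ c := by rw [hc]; positivity
  set f : Fin (m' + 1) → ℝ → ℝ := fun i x => (lam i + c) * M (t * x) + δ / (m' + 1) with hf
  have hfs : ∀ x, ∑ i, f i x = max S 0 * M (t * x) + δ := by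
    intro x
    rw [hf]
    show ∑ i, ((lam i + c) * M (t * x) + δ / (m' + 1)) = _
    rw [Finset.sum_add_distrib, ← Finset.sum_mul, Finset.sum_add_distrib, ← hS, Finset.sum_const,
      Finset.sum_const, Finset.card_univ, Fintype.card_fin, nsmul_eq_mul, nsmul_eq_mul]
    push_cast
    have h1 : S + (m' + 1) * c = max S 0 := by
      rw [hc, mul_div_cancel₀ _ hm.ne']
      rcases le_total 0 S with h | h
      · rw [max_eq_left h, max_eq_right (by linarith)]; ring
      · rw [max_eq_right h, max_eq_left (by linarith)]; ring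
    rw [h1, mul_div_cancel₀ _ hm.ne']
  have hG : ∀ u : E, Gs v f u = ∑ i, lam i * M (inner ℝ (t • u) (v i)) +
      c * ∑ i, M (inner ℝ (t • u) (v i)) + δ := by
    intro u
    unfold Gs
    rw [hf]
    simp only [real_inner_smul_left, add_mul]
    rw [Finset.sum_add_distrib, Finset.sum_add_distrib, Finset.sum_const, Finset.card_univ,
      Fintype.card_fin, nsmul_eq_mul, ← Finset.mul_sum]
    push_cast
    rw [mul_div_cancel₀ _ hm.ne']
  have htn : ∀ u : E, ‖u‖ ≤ 1 → ‖t • u‖ ≤ t := by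
    intro u hu
    rw [norm_smul, Real.norm_eq_abs, abs_of_pos ht]
    nlinarith
  have hMs : ∀ u : E, 0 ≤ ∑ i, M (inner ℝ u (v i)) := fun u =>
    Finset.sum_nonneg fun i _ => hM.nonneg _
  have h1 := hC f (max S 0 * M t + δ)
    (fun i => (continuous_const.mul (hM.cont.comp (continuous_const.mul continuous_id))).add
      continuous_const)
    (fun i x => by
      show (lam i + c) * M (t * -x) + δ / (m' + 1) = (lam i + c) * M (t * x) + δ / (m' + 1)
      rw [mul_neg, hM.even])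
    (fun x hx => by
      rw [hfs]
      have h2 : M (t * x) ≤ M t := by
        refine hM.mono ?_
        rw [abs_mul]
        nlinarith [abs_nonneg t]
      have h3 := hM.nonneg (t * x)
      have h4 : 0 ≤ max S 0 := le_max_right _ _
      constructor
      · positivity
      · nlinarith)
    (fun u hu => by
      rw [hG]
      have h2 := hH (t • u) (htn u hu)
      have h3 := mul_nonneg hc0 (hMs (t • u))
      linarith)
    (t⁻¹ • y) (by
      rw [norm_smul, norm_inv, Real.norm_eq_abs, abs_of_pos ht, inv_mul_le_iff₀ ht, mul_one]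
      exact hy)
  rw [hG, smul_smul, mul_inv_cancel₀ ht.ne', one_smul] at h1
  have h3 := mul_nonneg hc0 (hMs y)
  linarith

/-- The lower bound of the sum of the coefficients. -/
theorem sum_lower {m' : ℕ} (v : Fin (m' + 1) → E) (hv : ∀ i, ‖v i‖ = 1) {M : ℝ → ℝ} (hM : Orl M)
    (hpos : ∀ x, x ≠ 0 → 0 < M x) {t : ℝ} (ht : 0 < t) :
    ∃ A : ℝ, 0 < A ∧ ∀ (lam : Fin (m' + 1) → ℝ) (δ : ℝ), 0 ≤ δ →
      (∀ u : E, ‖u‖ ≤ t → -δ ≤ ∑ i, lam i * M (inner ℝ u (v i))) → -(A * δ) ≤ ∑ i, lam i := by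
  have hcomp : IsCompact (closedBall (0 : E) 1) := isCompact_closedBall _ _
  set g : ℝ → ℝ := fun x => M (t * x) with hg
  have hgc : Continuous g := hM.cont.comp (continuous_const.mul continuous_id)
  set J := ∫ u in closedBall (0 : E) 1, g (inner ℝ u (v 0)) with hJ
  have hint : ∀ w : E, IntegrableOn (fun u : E => g (inner ℝ u w)) (closedBall (0 : E) 1) := by
    intro w
    exact (hgc.comp (continuous_id.inner continuous_const)).continuousOn.integrableOn_compact hcomp
  have hJ0 : 0 < J := by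
    rw [hJ, setIntegral_pos_iff_support_of_nonneg_ae
      (Filter.Eventually.of_forall fun u => hM.nonneg _) (hint _)]
    have h1 : {u : E | 0 < inner ℝ u (v 0)} ∩ ball 0 1 ⊆
        (Function.support fun u : E => g (inner ℝ u (v 0))) ∩ closedBall 0 1 := by
      intro u hu
      refine ⟨?_, ball_subset_closedBall hu.2⟩
      have h2 : 0 < inner ℝ u (v 0) := hu.1
      exact (hpos _ (mul_ne_zero ht.ne' h2.ne')).ne'
    have h3 : IsOpen ({u : E | 0 < inner ℝ u (v 0)} ∩ ball 0 1) :=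
      (isOpen_lt continuous_const (continuous_id.inner continuous_const)).inter isOpen_ball
    refine lt_of_lt_of_le (h3.measure_pos volume ⟨(1 / 2 : ℝ) • v 0, ?_, ?_⟩) (measure_mono h1)
    · show 0 < inner ℝ ((1 / 2 : ℝ) • v 0) (v 0)
      rw [real_inner_smul_left, real_inner_self_eq_norm_sq, hv]; norm_num
    · rw [mem_ball_zero_iff, norm_smul, hv]; norm_num
  set B := volume.real (closedBall (0 : E) 1) with hB
  have hB0 : 0 < B := by
    rw [hB, measureReal_def]
    exact ENNReal.toReal_pos (measure_closedBall_pos volume (0 : E) one_pos).ne'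
      measure_closedBall_lt_top.ne
  refine ⟨B / J, by positivity, ?_⟩
  intro lam δ hδ hH
  have h1 : ∫ u in closedBall (0 : E) 1, ∑ i, lam i * g (inner ℝ u (v i)) = (∑ i, lam i) * J := by
    rw [integral_finsetSum _ fun i _ => (hint (v i)).const_mul (lam i), Finset.sum_mul]
    refine Finset.sum_congr rfl fun i _ => ?_
    rw [integral_const_mul, hJ, int_rot (hv 0) (hv i) g]
  have h2 : -δ * B ≤ ∫ u in closedBall (0 : E) 1, ∑ i, lam i * g (inner ℝ u (v i)) := by
    have h3 : ∫ u in closedBall (0 : E) 1, (-δ) = -δ * B := by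
      rw [setIntegral_const, smul_eq_mul, mul_comm]
    rw [← h3]
    refine setIntegral_mono_on (integrableOn_const (hcomp.measure_lt_top.ne))
      (integrable_finsetSum _ fun i _ => (hint (v i)).const_mul (lam i))
      measurableSet_closedBall fun u hu => ?_
    have hu1 : ‖u‖ ≤ 1 := by simpa using hu
    have h4 := hH (t • u) (by
      rw [norm_smul, Real.norm_eq_abs, abs_of_pos ht]
      nlinarith)
    simp only [real_inner_smul_left] at h4
    exact h4
  rw [h1] at h2
  have h5 : -(B / J * δ) = -δ * B / J := by ring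
  rw [h5, div_le_iff₀ hJ0]
  exact h2

/-- **The cone.** -/
theorem cone {m' : ℕ} (v : Fin (m' + 1) → E) (hv : ∀ i, ‖v i‖ = 1) (C : ℝ) (hC0 : 0 ≤ C)
    (hC : ∀ (f : Fin (m' + 1) → ℝ → ℝ) (K : ℝ), (∀ i, Continuous (f i)) →
      (∀ i x, f i (-x) = f i x) →
      (∀ x : ℝ, |x| ≤ 1 → 0 ≤ ∑ i, f i x ∧ ∑ i, f i x ≤ K) →
      (∀ u : E, ‖u‖ ≤ 1 → 0 ≤ Gs v f u) → ∀ y : E, ‖y‖ ≤ 1 → Gs v f y ≤ C * K)
    {M : ℝ → ℝ} (hM : Orl M) (hpos : ∀ x, x ≠ 0 → 0 < M x) {t : ℝ} (ht : 0 < t) {d : ℕ}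
    (z : Fin d → E) (hz : ∀ j, ‖z j‖ ≤ t) {R : ℝ} (hR : 0 ≤ R) (hsmall : R * d * C * M t ≤ 1) :
    ∃ (ι : Type) (_ : Fintype ι) (ξ : ι → E) (l : ι → ℝ), Fintype.card ι ≤ m' + 2 ∧
      (∀ k, ‖ξ k‖ ≤ t) ∧ (∀ k, 0 ≤ l k) ∧
      ∑ k, l k • FF M v (ξ k) = (fun _ => 1) - R • ∑ j, FF M v (z j) := by
  classical
  obtain ⟨A', hA'0, hA'⟩ := sum_lower v hv hM hpos ht
  set A := A' + R * d * C with hA
  have hRdC : 0 ≤ R * d * C := by positivity
  have hA0 : 0 < A := by rw [hA]; linarith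
  set D : Set (Fin (m' + 1) → ℝ) := FF M v '' closedBall 0 t with hD
  have hDc : IsCompact D := (isCompact_closedBall _ _).image (FF_cont hM.cont v)
  have hKc : IsCompact (convexHull ℝ D) := Pool.Agent.Lib.P325pg.hull_compact hDc
  set x0 : Fin (m' + 1) → ℝ := (fun _ => 1) - R • ∑ j, FF M v (z j) with hx0
  have hmem : A⁻¹ • x0 ∈ convexHull ℝ D := by
    by_contra hno
    obtain ⟨f, u0, hf1, hf2⟩ := geometric_hahn_banach_point_closed (convex_convexHull ℝ D)
      hKc.isClosed hno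
    set lam : Fin (m' + 1) → ℝ := fun i => f (Pi.single i 1) with hlam
    have hfl : ∀ x : Fin (m' + 1) → ℝ, f x = ∑ i, lam i * x i := by
      intro x
      have h1 : x = ∑ i, x i • (Pi.single i 1 : Fin (m' + 1) → ℝ) := by
        funext j
        simp [Finset.sum_apply, Pi.single_apply]
      conv_lhs => rw [h1]
      rw [map_sum]
      refine Finset.sum_congr rfl fun i _ => ?_
      rw [map_smul, smul_eq_mul, mul_comm]
    have h0 : u0 < 0 := by
      have h1 := hf2 0 (subset_convexHull ℝ D ⟨0, by simp [ht.le], FF_zero hM.zero v⟩)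
      rwa [map_zero] at h1
    set δ := -u0 with hδ
    have hδ0 : 0 < δ := by rw [hδ]; linarith
    have hH : ∀ u : E, ‖u‖ ≤ t → -δ ≤ ∑ i, lam i * M (inner ℝ u (v i)) := by
      intro u hu
      have h1 := hf2 (FF M v u) (subset_convexHull ℝ D ⟨u, by simpa using hu, rfl⟩)
      rw [hfl] at h1
      rw [hδ, neg_neg]
      exact h1.le
    have hx : f x0 < -(A * δ) := by
      rw [map_smul, smul_eq_mul, inv_mul_lt_iff₀ hA0] at hf1
      rw [hδ]; linarith
    set S := ∑ i, lam i with hS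
    have hfx0 : f x0 = S - R * ∑ j, ∑ i, lam i * M (inner ℝ (z j) (v i)) := by
      rw [hx0, map_sub, map_smul, map_sum, smul_eq_mul]
      congr 1
      · rw [hfl]; simp [hS]
      · congr 1
        refine Finset.sum_congr rfl fun j _ => ?_
        rw [hfl]; rfl
    have hSl := hA' lam δ hδ0.le hH
    rw [← hS] at hSl
    have hz2 : ∑ j, ∑ i, lam i * M (inner ℝ (z j) (v i)) ≤ d * (C * (max S 0 * M t + δ)) := by
      calc ∑ j, ∑ i, lam i * M (inner ℝ (z j) (v i)) ≤ ∑ _j : Fin d, C * (max S 0 * M t + δ) :=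
            Finset.sum_le_sum fun j _ => robust v C hC hM ht lam hδ0.le hH (z j) (hz j)
        _ = d * (C * (max S 0 * M t + δ)) := by
            rw [Finset.sum_const, Finset.card_univ, Fintype.card_fin, nsmul_eq_mul]
    have h5 : R * ∑ j, ∑ i, lam i * M (inner ℝ (z j) (v i)) ≤
        R * (d * (C * (max S 0 * M t + δ))) := mul_le_mul_of_nonneg_left hz2 hR
    have h6 : R * (d * (C * (max S 0 * M t + δ))) =
        max S 0 * (R * d * C * M t) + R * d * C * δ := by ring
    have h7 : max S 0 * (R * d * C * M t) ≤ max S 0 :=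
      mul_le_of_le_one_right (le_max_right _ _) hsmall
    have h8 : -(A' * δ) ≤ S - max S 0 := by
      rcases le_total 0 S with h | h
      · rw [max_eq_left h]
        have : 0 ≤ A' * δ := by positivity
        linarith
      · rw [max_eq_right h]; linarith
    have h9 : A * δ = A' * δ + R * d * C * δ := by rw [hA]; ring
    linarith
  obtain ⟨ι, hι, x, w, hx1, hx2, hx3, hx4, hx5⟩ := eq_pos_convex_span_of_mem_convexHull hmem
  have hch : ∀ k, ∃ ξ : E, ‖ξ‖ ≤ t ∧ FF M v ξ = x k := by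
    intro k
    obtain ⟨ξ, h1, h2⟩ := hx1 (Set.mem_range_self k)
    exact ⟨ξ, by simpa using h1, h2⟩
  choose ξ hξ1 hξ2 using hch
  refine ⟨ι, hι, ξ, fun k => A * w k, ?_, hξ1, fun k => mul_nonneg hA0.le (hx3 k).le, ?_⟩
  · refine hx2.card_le_finrank_succ.trans ?_
    have h1 := Submodule.finrank_le (vectorSpan ℝ (Set.range x))
    rw [Module.finrank_fin_fun] at h1
    omega
  · have h1 : A • ∑ k, w k • x k = x0 := by
      rw [hx5, smul_smul, mul_inv_cancel₀ hA0.ne', one_smul]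
    rw [← h1, Finset.smul_sum]
    refine Finset.sum_congr rfl fun k _ => ?_
    rw [hξ2, smul_smul]

end Pool.Agent.Lib.P23O
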