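import Pool.Agent.Lib.P23O.Cone
import Pool.Agent.Lib.P23O.Aub

/-!
# P23O.Fam: a continuous family of configurations

The cube `[-1, 1]^d` parametrises finite systems of points such that the sum of the vectors
`FF M v` over the system crosses `(1, ..., 1)` in all coordinates of a fixed basis.
-/

set_option autoImplicit false

open Finset MeasureTheory Metric

namespace Pool.Agent.Lib.P23O

/-- The clamp to `[0, 1]`. -/
noncomputable def clp (x : ℝ) : ℝ := max 0 (min 1 x)

lemma clp_cont : Continuous clp := continuous_const.max (continuous_const.min continuous_id)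

lemma clp_nonneg (x : ℝ) : 0 ≤ clp x := le_max_left _ _

lemma clp_le (x : ℝ) : clp x ≤ 1 := max_le zero_le_one (min_le_left _ _)

lemma clp_of_le {x : ℝ} (hx : x ≤ 0) : clp x = 0 := by
  unfold clp
  rw [min_eq_right (by linarith), max_eq_left hx]

lemma clp_of_ge {x : ℝ} (hx : 1 ≤ x) : clp x = 1 := by
  unfold clp
  rw [min_eq_left hx, max_eq_right zero_le_one]

/-- The interpolation between the sums. -/
lemma interp (g : ℝ → ℝ) (h0 : g 0 = 0) (hg : ∀ s, 0 ≤ s → s ≤ 1 → |g s| ≤ 1) (N : ℕ) :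
    ∀ Y : ℝ, 0 ≤ Y → Y ≤ N → |∑ c ∈ range N, g (clp (Y - c)) - Y * g 1| ≤ 2 := by
  induction N with
  | zero =>
    intro Y hY0 hY
    have : Y = 0 := by
      have : Y ≤ 0 := by simpa using hY
      linarith
    subst this
    simp
  | succ N ih =>
    intro Y hY0 hY
    rw [Finset.sum_range_succ]
    rcases le_total Y N with h | h
    · rw [clp_of_le (x := Y - N) (by linarith), h0, add_zero]
      exact ih Y hY0 h
    · have h1 : ∑ c ∈ range N, g (clp (Y - c)) = N * g 1 := by
        rw [Finset.sum_congr rfl (g := fun _ => g 1), Finset.sum_const, Finset.card_range,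
          nsmul_eq_mul]
        intro c hc
        rw [Finset.mem_range] at hc
        have h2 : (c : ℝ) + 1 ≤ N := by exact_mod_cast hc
        rw [clp_of_ge (by linarith)]
      rw [h1]
      have h3 := hg _ (clp_nonneg (Y - N)) (clp_le (Y - N))
      have h4 := hg 1 zero_le_one le_rfl
      have h5 : N * g 1 + g (clp (Y - N)) - Y * g 1 = g (clp (Y - N)) - (Y - N) * g 1 := by ring
      rw [h5]
      have h6 : |(Y - N) * g 1| ≤ 1 := by
        rw [abs_mul]
        have h7 : |Y - N| ≤ 1 := by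
          rw [abs_le]; push_cast at hY; constructor <;> linarith
        have := mul_le_mul h7 h4 (abs_nonneg _) zero_le_one
        linarith
      have := abs_sub (g (clp (Y - N))) ((Y - N) * g 1)
      linarith

variable {E : Type*} [NormedAddCommGroup E] [InnerProductSpace ℝ E]
variable [FiniteDimensional ℝ E] [MeasurableSpace E] [BorelSpace E]

/-- **The family.** -/
theorem family {m' : ℕ} (v : Fin (m' + 1) → E) (hv : ∀ i, ‖v i‖ = 1)
    (hne : ∀ i j, i ≠ j → |inner ℝ (v i) (v j)| < 1) {M : ℝ → ℝ} (hM : Orl M)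
    (hpos : ∀ x, x ≠ 0 → 0 < M x) :
    ∃ (d : ℕ) (w : Fin d → (Fin (m' + 1) → ℝ)) (e : Fin d → ((Fin (m' + 1) → ℝ) →ₗ[ℝ] ℝ)) (t : ℝ)
      (I : Type) (_ : Fintype I) (u : (Fin d → ℝ) → I → E), 0 < t ∧
      (∀ κ, Continuous fun y => u y κ) ∧ (∀ y κ, ‖u y κ‖ ≤ t) ∧
      (∀ x ∈ Submodule.span ℝ (FF M v '' closedBall 0 t), x = ∑ j, e j x • w j) ∧
      (∀ y, ∑ κ, FF M v (u y κ) - (fun _ => 1) ∈ Submodule.span ℝ (FF M v '' closedBall 0 t)) ∧
      (∀ y ∈ Set.Icc (fun _ => (-1 : ℝ)) (fun _ => (1 : ℝ)), ∀ j, y j = 1 →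
        1 ≤ e j (∑ κ, FF M v (u y κ) - (fun _ => 1))) ∧
      (∀ y ∈ Set.Icc (fun _ => (-1 : ℝ)) (fun _ => (1 : ℝ)), ∀ j, y j = -1 →
        e j (∑ κ, FF M v (u y κ) - (fun _ => 1)) ≤ -1) := by
  classical
  obtain ⟨C, hC0, hC⟩ := point_bound v hv hne
  set R : ℕ := 3 * (m' + 1) + 2 with hR
  -- the radius
  obtain ⟨t, ht0, htM⟩ : ∃ t : ℝ, 0 < t ∧ (R * (m' + 1) * C) * M t ≤ 1 := by
    have h1 : Filter.Tendsto (fun t => (R * (m' + 1) * C) * M t) (nhds 0)
        (nhds ((R * (m' + 1) * C) * M 0)) := (continuous_const.mul hM.cont).tendsto 0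
    rw [hM.zero, mul_zero] at h1
    have h2 := h1.eventually (gt_mem_nhds one_pos)
    obtain ⟨δ, hδ, h3⟩ := Metric.eventually_nhds_iff.mp h2
    refine ⟨δ / 2, by positivity, (h3 ?_).le⟩
    rw [Real.dist_eq, sub_zero, abs_of_pos (by positivity)]
    linarith
  set D : Set (Fin (m' + 1) → ℝ) := FF M v '' closedBall 0 t with hD
  have hDc : IsCompact D := (isCompact_closedBall _ _).image (FF_cont hM.cont v)
  obtain ⟨d, w, e, hdm, hwD, hew, heD, hspan⟩ := auerbach D hDc
  have hch : ∀ j, ∃ z : E, ‖z‖ ≤ t ∧ FF M v z = w j := by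
    intro j
    obtain ⟨z, h1, h2⟩ := hwD j
    exact ⟨z, by simpa using h1, h2⟩
  choose z hz1 hz2 using hch
  have hsmall : (R : ℝ) * d * C * M t ≤ 1 := by
    refine le_trans ?_ htM
    have h1 : (d : ℝ) ≤ m' + 1 := by exact_mod_cast hdm
    have h2 := hM.nonneg t
    gcongr
  obtain ⟨ι, hι, ξ, l, hcard, hξ, hl, hsum⟩ :=
    cone v hv C hC0 hC hM hpos ht0 z hz1 (Nat.cast_nonneg R) hsmall
  have hFD : ∀ u : E, ‖u‖ ≤ t → FF M v u ∈ D := fun u hu => ⟨u, by simpa using hu, rfl⟩
  have hFD' : ∀ u : E, ‖u‖ ≤ t → FF M v u ∈ Submodule.span ℝ D := fun u hu =>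
    Submodule.subset_span (hFD u hu)
  have hone : (fun _ => 1 : Fin (m' + 1) → ℝ) = ∑ k, l k • FF M v (ξ k) + (R : ℝ) • ∑ j, w j := by
    rw [hsum]
    simp only [hz2]
    abel
  have hone' : (fun _ => 1 : Fin (m' + 1) → ℝ) ∈ Submodule.span ℝ D := by
    rw [hone]
    refine Submodule.add_mem _ (Submodule.sum_mem _ fun k _ => Submodule.smul_mem _ _
      (hFD' _ (hξ k))) (Submodule.smul_mem _ _ (Submodule.sum_mem _ fun j _ => ?_))
    exact Submodule.subset_span (hwD j)
  -- the points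
  let I : Type := (Σ k : ι, Fin ⌊l k⌋₊) ⊕ (Fin d × Fin (2 * R))
  let u : (Fin d → ℝ) → I → E := fun y κ =>
    Sum.elim (fun p => ξ p.1) (fun p => clp (R * (1 + y p.1) - (p.2 : ℕ)) • z p.1) κ
  have hu1 : ∀ y κ, ‖u y κ‖ ≤ t := by
    intro y κ
    rcases κ with p | p
    · exact hξ p.1
    · show ‖clp (R * (1 + y p.1) - (p.2 : ℕ)) • z p.1‖ ≤ t
      rw [norm_smul, Real.norm_eq_abs, abs_of_nonneg (clp_nonneg _)]
      have h1 := clp_le (R * (1 + y p.1) - (p.2 : ℕ))
      have h2 := hz1 p.1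
      have h3 := clp_nonneg (R * (1 + y p.1) - (p.2 : ℕ))
      nlinarith [norm_nonneg (z p.1)]
  have hsumF : ∀ y, ∑ κ, FF M v (u y κ) = ∑ k, (⌊l k⌋₊ : ℝ) • FF M v (ξ k) +
      ∑ j, ∑ c ∈ range (2 * R), FF M v (clp (R * (1 + y j) - c) • z j) := by
    intro y
    rw [Fintype.sum_sum_type, Fintype.sum_sigma, Fintype.sum_prod_type]
    congr 1
    · refine Finset.sum_congr rfl fun k _ => ?_
      show ∑ _c : Fin ⌊l k⌋₊, FF M v (ξ k) = _
      rw [Finset.sum_const, Finset.card_univ, Fintype.card_fin, ← Nat.cast_smul_eq_nsmul ℝ]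
    · refine Finset.sum_congr rfl fun j _ => ?_
      rw [Finset.sum_range]
      rfl
  -- the key estimate
  have hkey : ∀ y ∈ Set.Icc (fun _ => (-1 : ℝ)) (fun _ => (1 : ℝ)), ∀ i : Fin d,
      |e i (∑ κ, FF M v (u y κ) - (fun _ => 1)) - R * y i| ≤ 3 * (m' + 1) + 1 := by
    intro y hy i
    have hyr : ∀ j, 0 ≤ (R : ℝ) * (1 + y j) ∧ (R : ℝ) * (1 + y j) ≤ ((2 * R : ℕ) : ℝ) := by
      intro j
      have h1 : -1 ≤ y j := hy.1 j
      have h2 : y j ≤ 1 := hy.2 j
      have h3 : (0 : ℝ) ≤ R := Nat.cast_nonneg _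
      push_cast
      constructor <;> nlinarith
    have h1 : e i (∑ κ, FF M v (u y κ) - (fun _ => 1)) =
        ∑ j, (∑ c ∈ range (2 * R), e i (FF M v (clp (R * (1 + y j) - c) • z j)) -
          R * (1 + y j) * e i (w j)) + R * y i -
        ∑ k, (l k - ⌊l k⌋₊) * e i (FF M v (ξ k)) := by
      rw [hsumF, map_sub]
      have h2 : e i (fun _ => 1 : Fin (m' + 1) → ℝ) = ∑ k, l k * e i (FF M v (ξ k)) + R := by
        rw [hone, map_add, map_sum, map_smul, map_sum]
        simp only [map_smul, smul_eq_mul, hew, Finset.sum_ite_eq', Finset.mem_univ, if_true,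
          mul_one]
      have h3 : ∑ j, R * (1 + y j) * e i (w j) = R * (1 + y i) := by
        simp only [hew, mul_ite, mul_one, mul_zero, Finset.sum_ite_eq', Finset.mem_univ, if_true]
      rw [h2, map_add, map_sum, map_sum]
      simp only [map_sum, map_smul, smul_eq_mul, Finset.sum_sub_distrib, sub_mul]
      rw [h3]
      ring
    rw [h1]
    have h2 : |∑ j, (∑ c ∈ range (2 * R), e i (FF M v (clp (R * (1 + y j) - c) • z j)) -
          R * (1 + y j) * e i (w j))| ≤ 2 * (m' + 1) := by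
      calc |∑ j, (∑ c ∈ range (2 * R), e i (FF M v (clp (R * (1 + y j) - c) • z j)) -
          R * (1 + y j) * e i (w j))| ≤
          ∑ j, |∑ c ∈ range (2 * R), e i (FF M v (clp (R * (1 + y j) - c) • z j)) -
          R * (1 + y j) * e i (w j)| := Finset.abs_sum_le_sum_abs _ _
        _ ≤ ∑ _j : Fin d, 2 := by
            refine Finset.sum_le_sum fun j _ => ?_
            have h3 := interp (fun s => e i (FF M v (s • z j)))
              (by
                show e i (FF M v ((0 : ℝ) • z j)) = 0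
                rw [zero_smul, FF_zero hM.zero, map_zero])
              (fun s hs0 hs1 => heD i _ (hFD _ (by
                rw [norm_smul, Real.norm_eq_abs, abs_of_nonneg hs0]
                nlinarith [norm_nonneg (z j), hz1 j])))
              (2 * R) (R * (1 + y j)) (hyr j).1 (hyr j).2
            simp only [one_smul, hz2] at h3
            exact h3
        _ = d * 2 := by rw [Finset.sum_const, Finset.card_univ, Fintype.card_fin, nsmul_eq_mul]
        _ ≤ 2 * (m' + 1) := by
            have : (d : ℝ) ≤ m' + 1 := by exact_mod_cast hdm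
            linarith
    have h3 : |∑ k, (l k - ⌊l k⌋₊) * e i (FF M v (ξ k))| ≤ (m' + 1) + 1 := by
      calc |∑ k, (l k - ⌊l k⌋₊) * e i (FF M v (ξ k))| ≤
          ∑ k, |(l k - ⌊l k⌋₊) * e i (FF M v (ξ k))| := Finset.abs_sum_le_sum_abs _ _
        _ ≤ ∑ _k : ι, 1 := by
            refine Finset.sum_le_sum fun k _ => ?_
            rw [abs_mul]
            have h4 := heD i _ (hFD _ (hξ k))
            have h5 := Nat.floor_le (hl k)
            have h6 := Nat.lt_floor_add_one (l k)
            have h7 : |l k - ⌊l k⌋₊| ≤ 1 := by rw [abs_le]; constructor <;> linarith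
            have := mul_le_mul h7 h4 (abs_nonneg _) zero_le_one
            linarith
        _ = Fintype.card ι := by rw [Finset.sum_const, Finset.card_univ, nsmul_eq_mul, mul_one]
        _ ≤ (m' + 1) + 1 := by
            have : (Fintype.card ι : ℝ) ≤ ((m' + 2 : ℕ) : ℝ) := by exact_mod_cast hcard
            push_cast at this
            linarith
    rw [abs_le] at h2 h3 ⊢
    constructor <;> linarith [h2.1, h2.2, h3.1, h3.2]
  have hRr : (R : ℝ) = 3 * (m' + 1) + 2 := by rw [hR]; push_cast; ring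
  refine ⟨d, w, e, t, I, inferInstance, u, ht0, ?_, hu1, hspan, ?_, ?_, ?_⟩
  · intro κ
    rcases κ with p | p
    · exact continuous_const
    · show Continuous fun y : Fin d → ℝ => clp (R * (1 + y p.1) - (p.2 : ℕ)) • z p.1
      refine (clp_cont.comp ?_).smul continuous_const
      exact (continuous_const.mul (continuous_const.add (continuous_apply p.1))).sub
        continuous_const
  · intro y
    exact Submodule.sub_mem _ (Submodule.sum_mem _ fun κ _ => hFD' _ (hu1 y κ)) hone'
  · intro y hy j hj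
    have h1 := (abs_le.mp (hkey y hy j)).1
    rw [hj] at h1
    linarith
  · intro y hy j hj
    have h1 := (abs_le.mp (hkey y hy j)).2
    rw [hj] at h1
    linarith

end Pool.Agent.Lib.P23O
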