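import Pool.Agent.Lib.P23O.Slice

/-!
# P23O.Geom: inward directions at a point of the ball
-/

set_option autoImplicit false

open Finset

namespace Pool.Agent.Lib.P23O

variable {E : Type*} [NormedAddCommGroup E] [InnerProductSpace ℝ E]

lemma qq_inner (e x z : E) : inner ℝ (qq e x) z = inner ℝ x z - inner ℝ x e * inner ℝ e z := by
  unfold qq
  rw [inner_sub_left, real_inner_smul_left]

lemma norm_qq_sq {e : E} (he : ‖e‖ = 1) (x : E) : ‖qq e x‖ ^ 2 = ‖x‖ ^ 2 - (inner ℝ x e) ^ 2 := by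
  have h1 : inner ℝ (qq e x) (qq e x) = inner ℝ (qq e x) x := by
    conv_lhs => rw [show qq e x = x - (inner ℝ x e : ℝ) • e from rfl]
    rw [show x - (inner ℝ x e : ℝ) • e = qq e x from rfl]
    nth_rw 2 [show qq e x = x - (inner ℝ x e : ℝ) • e from rfl]
    rw [inner_sub_right, real_inner_smul_right, inner_qq he, mul_zero, sub_zero]
  rw [← real_inner_self_eq_norm_sq, h1, qq_inner, real_inner_self_eq_norm_sq, real_inner_comm x e]
  ring

lemma norm_qq_le {e : E} (he : ‖e‖ = 1) (x : E) : ‖qq e x‖ ≤ ‖x‖ := by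
  have h := norm_qq_sq he x
  have h2 : ‖qq e x‖ ^ 2 ≤ ‖x‖ ^ 2 := by rw [h]; nlinarith [sq_nonneg (inner ℝ x e : ℝ)]
  exact le_of_sq_le_sq h2 (norm_nonneg _)

/-- Pushing into the ball. -/
lemma push {Y D : E} {β M0 τ : ℝ} (hβ : 0 < β) (hβ1 : β ≤ 1) (hM : 1 ≤ M0)
    (hτ : τ = β / (4 * M0 ^ 2)) (hY : ‖Y‖ ≤ 1) (hD : ‖D‖ ≤ M0)
    (hYD : 1 / 2 ≤ ‖Y‖ → inner ℝ D Y ≤ -β) :
    ‖Y + τ • D‖ ≤ 1 - τ * β / 2 := by
  have hM0 : 0 < M0 := by linarith
  have hτ0 : 0 < τ := by rw [hτ]; positivity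
  have h0 : τ * (4 * M0 ^ 2) = β := by rw [hτ]; field_simp
  have h1 : τ * M0 ^ 2 ≤ β := by nlinarith
  have h2 : τ * M0 ≤ 1 / 4 := by nlinarith
  have h3 : τ ≤ 1 / 4 := by nlinarith
  have h4 : τ * β ≤ 1 / 4 := by nlinarith
  rcases le_or_gt (1 / 2) ‖Y‖ with h | h
  · have h5 := hYD h
    have h6 : ‖Y + τ • D‖ ^ 2 ≤ (1 - τ * β / 2) ^ 2 := by
      rw [norm_add_sq_real, real_inner_smul_right, norm_smul, Real.norm_eq_abs, abs_of_pos hτ0,
        real_inner_comm]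
      have h7 : ‖Y‖ ^ 2 ≤ 1 := by nlinarith [norm_nonneg Y]
      have h8 : (τ * ‖D‖) ^ 2 ≤ τ * β := by
        have : ‖D‖ ^ 2 ≤ M0 ^ 2 := pow_le_pow_left₀ (norm_nonneg _) hD 2
        calc (τ * ‖D‖) ^ 2 = τ * (τ * ‖D‖ ^ 2) := by ring
          _ ≤ τ * (τ * M0 ^ 2) := by gcongr
          _ ≤ τ * β := by gcongr
      have h9 : τ * inner ℝ D Y ≤ τ * (-β) := mul_le_mul_of_nonneg_left h5 hτ0.le
      nlinarith [sq_nonneg (τ * β)]
    exact le_of_sq_le_sq h6 (by linarith)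
  · calc ‖Y + τ • D‖ ≤ ‖Y‖ + ‖τ • D‖ := norm_add_le _ _
      _ ≤ 1 / 2 + τ * M0 := by
          rw [norm_smul, Real.norm_eq_abs, abs_of_pos hτ0]
          exact add_le_add h.le (mul_le_mul_of_nonneg_left hD hτ0.le)
      _ ≤ 1 - τ * β / 2 := by linarith

/-- The lower bound of the orthogonal component. -/
lemma qq_lower {e v y : E} (he : ‖e‖ = 1) (hv : ‖v‖ = 1) {c : ℝ} (hc0 : 0 ≤ c) (hc : c < 1)
    (hev : |inner ℝ e v| ≤ c) (hs : |inner ℝ y e| ≤ inner ℝ y v) :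
    ‖y‖ ^ 2 * ((1 - c) ^ 2 / 2) ≤ ‖qq e y‖ ^ 2 := by
  set b := |inner ℝ y e| with hb
  have hb0 : 0 ≤ b := abs_nonneg _
  have h1 : inner ℝ y v ≤ b * c + ‖qq e y‖ := by
    have h2 : inner ℝ y v = inner ℝ (qq e y) v + inner ℝ y e * inner ℝ e v := by
      rw [qq_inner]; ring
    rw [h2]
    have h3 : inner ℝ (qq e y) v ≤ ‖qq e y‖ := by
      have := real_inner_le_norm (qq e y) v
      rwa [hv, mul_one] at this
    have h4 : inner ℝ y e * inner ℝ e v ≤ b * c := by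
      calc inner ℝ y e * inner ℝ e v ≤ |inner ℝ y e * inner ℝ e v| := le_abs_self _
        _ = b * |inner ℝ e v| := abs_mul _ _
        _ ≤ b * c := mul_le_mul_of_nonneg_left hev hb0
    linarith
  have h5 : b * (1 - c) ≤ ‖qq e y‖ := by linarith
  have h6 := norm_qq_sq he y
  have h7 : (inner ℝ y e) ^ 2 = b ^ 2 := by rw [hb, sq_abs]
  have h8 : (b * (1 - c)) ^ 2 ≤ ‖qq e y‖ ^ 2 :=
    pow_le_pow_left₀ (mul_nonneg hb0 (by linarith)) h5 2
  have h9 : ‖y‖ ^ 2 = ‖qq e y‖ ^ 2 + b ^ 2 := by rw [h6, h7]; ring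
  have h10 : (1 - c) ^ 2 ≤ 1 := by nlinarith
  have h11 : ‖qq e y‖ ^ 2 * (1 - c) ^ 2 ≤ ‖qq e y‖ ^ 2 := by nlinarith [sq_nonneg ‖qq e y‖]
  rw [h9]
  nlinarith

/-- The inward direction at `y`. -/
lemma dir {e v y : E} (he : ‖e‖ = 1) (hv : ‖v‖ = 1) {c : ℝ} (hc0 : 0 ≤ c) (hc : c < 1)
    (hev : |inner ℝ e v| ≤ c) (hs : |inner ℝ y e| ≤ inner ℝ y v) (hy : ‖y‖ ≤ 1) :
    ∃ d : E, inner ℝ d e = 0 ∧ inner ℝ d v = -1 ∧ ‖d‖ ≤ 2 / (1 - c ^ 2) ∧ inner ℝ d y ≤ 0 ∧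
      (1 / 2 ≤ ‖y‖ → inner ℝ d y ≤ -((1 - c) ^ 2 / 16)) := by
  have hc2 : c ^ 2 < 1 := by nlinarith
  have hs0 : 0 ≤ inner ℝ y v := (abs_nonneg _).trans hs
  have hmul : inner ℝ y e * inner ℝ e v ≤ inner ℝ y v * c := by
    calc inner ℝ y e * inner ℝ e v ≤ |inner ℝ y e * inner ℝ e v| := le_abs_self _
      _ = |inner ℝ y e| * |inner ℝ e v| := abs_mul _ _
      _ ≤ inner ℝ y v * c := mul_le_mul hs hev (abs_nonneg _) hs0
  have hmul2 : inner ℝ y v * c ≤ inner ℝ y v := by nlinarith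
  have hev2 : inner ℝ v e * inner ℝ e v ≤ c ^ 2 := by
    rw [real_inner_comm e v, ← sq, ← sq_abs]
    exact pow_le_pow_left₀ (abs_nonneg _) hev 2
  set D := inner ℝ (qq e (y + v)) v with hD
  have hD1 : 1 - c ^ 2 ≤ D := by
    rw [hD, qq_inner, inner_add_left, inner_add_left, real_inner_self_eq_norm_sq, hv]
    nlinarith
  have hD0 : 0 < D := by linarith
  have hn : ‖qq e (y + v)‖ ≤ 2 := by
    refine (norm_qq_le he _).trans ((norm_add_le _ _).trans ?_)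
    rw [hv]; linarith
  have hD2 : D ≤ 2 := by
    have := real_inner_le_norm (qq e (y + v)) v
    rw [hv, mul_one] at this
    exact this.trans hn
  have hin : ‖qq e y‖ ^ 2 ≤ inner ℝ (qq e (y + v)) y := by
    rw [norm_qq_sq he, qq_inner, inner_add_left, inner_add_left, real_inner_self_eq_norm_sq,
      real_inner_comm y e, real_inner_comm y v]
    have : inner ℝ v e * inner ℝ y e ≤ inner ℝ y v * c := by
      rw [real_inner_comm e v, mul_comm]; exact hmul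
    nlinarith
  refine ⟨-(D⁻¹ • qq e (y + v)), ?_, ?_, ?_, ?_, ?_⟩
  · rw [inner_neg_left, real_inner_smul_left, inner_qq he, mul_zero, neg_zero]
  · rw [inner_neg_left, real_inner_smul_left, ← hD, inv_mul_cancel₀ hD0.ne']
  · rw [norm_neg, norm_smul, norm_inv, Real.norm_eq_abs, abs_of_pos hD0, div_eq_inv_mul]
    exact mul_le_mul (inv_anti₀ (by linarith) hD1) hn (norm_nonneg _)
      (inv_nonneg.mpr (by linarith))
  · rw [inner_neg_left, real_inner_smul_left]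
    have : 0 ≤ D⁻¹ * inner ℝ (qq e (y + v)) y :=
      mul_nonneg (inv_nonneg.mpr hD0.le) ((sq_nonneg _).trans hin)
    linarith
  · intro hy2
    rw [inner_neg_left, real_inner_smul_left, neg_le_neg_iff]
    have h1 := qq_lower he hv hc0 hc hev hs
    have h2 : (1 / 2 : ℝ) ^ 2 ≤ ‖y‖ ^ 2 := pow_le_pow_left₀ (by norm_num) hy2 2
    have h3 : (1 - c) ^ 2 / 8 ≤ inner ℝ (qq e (y + v)) y := by nlinarith [sq_nonneg (1 - c)]
    have h4 : (1 / 2 : ℝ) ≤ D⁻¹ := by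
      rw [one_div]; exact inv_anti₀ hD0 hD2
    have h5 : 0 ≤ (1 - c) ^ 2 / 8 := by positivity
    calc (1 - c) ^ 2 / 16 = 1 / 2 * ((1 - c) ^ 2 / 8) := by ring
      _ ≤ D⁻¹ * inner ℝ (qq e (y + v)) y := mul_le_mul h4 h3 h5 (inv_nonneg.mpr hD0.le)

/-- The configuration of points and directions for the pointwise bound. -/
theorem config {m' : ℕ} (v : Fin (m' + 1) → E) (hv : ∀ i, ‖v i‖ = 1)
    (hne : ∀ i j, i ≠ j → |inner ℝ (v i) (v j)| < 1) :
    ∃ τ δ : ℝ, 0 < τ ∧ 0 < δ ∧ δ < 1 ∧ ∀ y : E, ‖y‖ ≤ 1 → ∀ i0 : Fin (m' + 1),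
      (∀ i, |inner ℝ y (v i)| ≤ inner ℝ y (v i0)) →
      ∃ (Y : Fin (m' + 1) → E) (d : Fin (m' + 1) → Fin m' → E), Y i0 = y ∧
        (∀ i, inner ℝ (Y i) (v i) = inner ℝ y (v i0)) ∧ (∀ i, ‖Y i‖ ≤ 1) ∧
        (∀ i l, inner ℝ (d i l) (v (i.succAbove l)) = 0) ∧ (∀ i l, inner ℝ (d i l) (v i) = -1) ∧
        ∀ i, ∀ t : Finset (Fin m'), t.Nonempty → ‖Y i + ∑ l ∈ t, τ • d i l‖ ≤ 1 - δ := by
  classical
  -- the constant `c`
  obtain ⟨c, hc0, hc1, hc⟩ : ∃ c : ℝ, 0 ≤ c ∧ c < 1 ∧ ∀ i j, i ≠ j → |inner ℝ (v i) (v j)| ≤ c := by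
    set S : Finset ℝ := insert 0 (((univ : Finset (Fin (m' + 1) × Fin (m' + 1))).filter
      fun p => p.1 ≠ p.2).image fun p => |inner ℝ (v p.1) (v p.2)|) with hS
    have hSne : S.Nonempty := ⟨0, Finset.mem_insert_self _ _⟩
    refine ⟨S.max' hSne, S.le_max' 0 (Finset.mem_insert_self _ _), ?_, ?_⟩
    · rw [Finset.max'_lt_iff]
      intro x hx
      rw [hS, Finset.mem_insert, Finset.mem_image] at hx
      rcases hx with rfl | ⟨p, hp, rfl⟩
      · norm_num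
      · exact hne _ _ (Finset.mem_filter.mp hp).2
    · intro i j hij
      refine S.le_max' _ ?_
      rw [hS, Finset.mem_insert]
      right
      exact Finset.mem_image.mpr ⟨(i, j), Finset.mem_filter.mpr ⟨Finset.mem_univ _, hij⟩, rfl⟩
  -- the bound `κ`
  obtain ⟨κ, hκ0, hκ⟩ : ∃ κ : ℝ, 0 ≤ κ ∧ ∀ i l, ‖ww v i l‖ ≤ κ := by
    refine ⟨∑ i, ∑ l, ‖ww v i l‖, by positivity, fun i l => ?_⟩
    calc ‖ww v i l‖ ≤ ∑ l, ‖ww v i l‖ :=
          Finset.single_le_sum (f := fun l => ‖ww v i l‖) (fun _ _ => norm_nonneg _)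
            (Finset.mem_univ l)
      _ ≤ ∑ i, ∑ l, ‖ww v i l‖ :=
          Finset.single_le_sum (f := fun i => ∑ l, ‖ww v i l‖)
            (fun _ _ => Finset.sum_nonneg fun _ _ => norm_nonneg _) (Finset.mem_univ i)
  have hc2 : c ^ 2 < 1 := by nlinarith
  set β := (1 - c) ^ 2 / 16 with hβ
  have hβ0 : 0 < β := by rw [hβ]; have : 0 < 1 - c := by linarith
                         positivity
  have hβ1 : β ≤ 1 / 16 := by rw [hβ]; nlinarith
  set M1 := κ + 2 / (1 - c ^ 2) with hM1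
  have h2c : 0 ≤ 2 / (1 - c ^ 2) := div_nonneg (by norm_num) (by linarith)
  have hM10 : 0 ≤ M1 := by rw [hM1]; linarith
  set M0 := m' * M1 + 1 with hM0
  have hM01 : 1 ≤ M0 := by rw [hM0]; nlinarith [mul_nonneg (Nat.cast_nonneg (α := ℝ) m') hM10]
  set τ := β / (4 * M0 ^ 2) with hτ
  have hτ0 : 0 < τ := by rw [hτ]; positivity
  have hτβ : τ * β < 1 := by
    have h1 : τ ≤ 1 := by
      rw [hτ, div_le_one (by positivity)]
      nlinarith
    nlinarith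
  refine ⟨τ, τ * β / 2, hτ0, by positivity, by linarith, ?_⟩
  intro y hy i0 hi0
  set s := inner ℝ y (v i0) with hs
  have hs0 : 0 ≤ s := (abs_nonneg _).trans (hi0 i0)
  have hs1 : s ≤ 1 := by
    have := real_inner_le_norm y (v i0)
    rw [hv, mul_one] at this
    exact this.trans hy
  have hdir : ∀ l : Fin m', ∃ d : E, inner ℝ d (v (i0.succAbove l)) = 0 ∧ inner ℝ d (v i0) = -1 ∧
      ‖d‖ ≤ 2 / (1 - c ^ 2) ∧ inner ℝ d y ≤ 0 ∧
      (1 / 2 ≤ ‖y‖ → inner ℝ d y ≤ -((1 - c) ^ 2 / 16)) := fun l =>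
    dir (hv _) (hv i0) hc0 hc1 (hc _ _ (Fin.succAbove_ne i0 l)) (hi0 _) hy
  choose d0 hd1 hd2 hd3 hd4 hd5 using hdir
  refine ⟨fun i => if i = i0 then y else s • v i, fun i l => if i = i0 then d0 l else -ww v i l,
    if_pos rfl, ?_, ?_, ?_, ?_, ?_⟩
  · intro i
    beta_reduce
    by_cases h : i = i0
    · subst h; rw [if_pos rfl]
    · rw [if_neg h, real_inner_smul_left, real_inner_self_eq_norm_sq, hv]; ring
  · intro i
    beta_reduce
    by_cases h : i = i0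
    · rw [if_pos h]; exact hy
    · rw [if_neg h, norm_smul, hv, mul_one, Real.norm_eq_abs, abs_of_nonneg hs0]; exact hs1
  · intro i l
    beta_reduce
    by_cases h : i = i0
    · subst h; rw [if_pos rfl]; exact hd1 l
    · rw [if_neg h, inner_neg_left, ww_orth hv, neg_zero]
  · intro i l
    beta_reduce
    by_cases h : i = i0
    · subst h; rw [if_pos rfl]; exact hd2 l
    · rw [if_neg h, inner_neg_left, ww_one hv hne]
  · intro i t ht
    have hcard : (1 : ℝ) ≤ t.card := by exact_mod_cast Finset.card_pos.mpr ht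
    have hcard2 : (t.card : ℝ) ≤ m' := by
      have := Finset.card_le_univ t
      rw [Fintype.card_fin] at this
      exact_mod_cast this
    by_cases h : i = i0
    · subst h
      simp only [if_true]
      rw [← Finset.smul_sum]
      refine push hβ0 (by linarith) hM01 hτ hy ?_ ?_
      · calc ‖∑ l ∈ t, d0 l‖ ≤ ∑ l ∈ t, ‖d0 l‖ := norm_sum_le _ _
          _ ≤ ∑ l ∈ t, M1 := Finset.sum_le_sum fun l _ => (hd3 l).trans (by rw [hM1]; linarith)
          _ = t.card * M1 := by rw [Finset.sum_const, nsmul_eq_mul]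
          _ ≤ M0 := by rw [hM0]; nlinarith
      · intro hy2
        rw [sum_inner]
        obtain ⟨l0, hl0⟩ := ht
        rw [← Finset.add_sum_erase _ _ hl0]
        have h1 := hd5 l0 hy2
        have h2 : ∑ l ∈ t.erase l0, inner ℝ (d0 l) y ≤ 0 := Finset.sum_nonpos fun l _ => hd4 l
        linarith
    · simp only [if_neg h]
      rw [← Finset.smul_sum]
      refine push hβ0 (by linarith) hM01 hτ ?_ ?_ ?_
      · rw [norm_smul, hv, mul_one, Real.norm_eq_abs, abs_of_nonneg hs0]; exact hs1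
      · calc ‖∑ l ∈ t, -ww v i l‖ ≤ ∑ l ∈ t, ‖-ww v i l‖ := norm_sum_le _ _
          _ ≤ ∑ l ∈ t, M1 := Finset.sum_le_sum fun l _ => by
              rw [norm_neg]; exact (hκ i l).trans (by rw [hM1]; linarith)
          _ = t.card * M1 := by rw [Finset.sum_const, nsmul_eq_mul]
          _ ≤ M0 := by rw [hM0]; nlinarith
      · intro hy2
        rw [norm_smul, hv, mul_one, Real.norm_eq_abs, abs_of_nonneg hs0] at hy2
        rw [sum_inner]
        simp only [inner_neg_left, real_inner_smul_right, ww_one hv hne]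
        rw [Finset.sum_const, nsmul_eq_mul]
        nlinarith

end Pool.Agent.Lib.P23O
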