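import Pool.Agent.Lib.P23O.Cone

/-!
# P23O.Loc: the local form of Fréchet's theorem and the span of the values
-/

set_option autoImplicit false

open Finset Topology Filter

namespace Pool.Agent.Lib.P23O

/-- Vanishing of the higher differences on a progression. -/
lemma diff_higher {G : ℝ → ℝ} {m N : ℕ} {a s : ℝ}
    (h : ∀ j ≤ N, (fwdDiff s)^[m] G (a + j * s) = 0) (j : ℕ) :
    ∀ i, i + j ≤ N → (fwdDiff s)^[j + m] G (a + i * s) = 0 := by
  induction j with
  | zero =>
    intro i hi
    rw [zero_add]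
    exact h i (by omega)
  | succ j ih =>
    intro i hi
    have h1 := ih (i + 1) (by omega)
    have h2 := ih i (by omega)
    rw [show j + 1 + m = (j + m) + 1 by ring, Function.iterate_succ_apply']
    show (fwdDiff s)^[j + m] G (a + i * s + s) - (fwdDiff s)^[j + m] G (a + i * s) = 0
    have h3 : a + i * s + s = a + ((i + 1 : ℕ) : ℝ) * s := by push_cast; ring
    rw [h2, sub_zero, h3, h1]

lemma prog {G : ℝ → ℝ} {m N : ℕ} {a s : ℝ} (hs : s ≠ 0)
    (h : ∀ j ≤ N, (fwdDiff s)^[m] G (a + j * s) = 0) :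
    ∃ P : Polynomial ℝ, P.natDegree ≤ m ∧ ∀ n : ℕ, n ≤ N → G (a + n * s) = P.eval (a + n * s) := by
  let Q : Polynomial ℝ := ∑ k ∈ Finset.range m,
    Polynomial.C ((fwdDiff s)^[k] G a / (k.factorial : ℝ)) * descPochhammer ℝ k
  have hQd : Q.natDegree ≤ m := by
    refine Polynomial.natDegree_sum_le_of_forall_le _ _ fun k hk => ?_
    refine (Polynomial.natDegree_C_mul_le _ _).trans ?_
    rw [descPochhammer_natDegree]
    exact (Finset.mem_range.mp hk).le
  have hz : ∀ k, m ≤ k → k ≤ N → (fwdDiff s)^[k] G a = 0 := by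
    intro k hk hkN
    obtain ⟨j, rfl⟩ := Nat.exists_eq_add_of_le hk
    have h1 := diff_higher h j 0 (by omega)
    rw [add_comm m j]
    simpa using h1
  have hQ : ∀ n : ℕ, n ≤ N → G (a + n * s) = Q.eval (n : ℝ) := by
    intro n hn
    have h1 := shift_eq_sum_fwdDiff_iter s G n a
    rw [nsmul_eq_mul] at h1
    rw [h1]
    have h2 : ∀ k, (n.choose k) • (fwdDiff s)^[k] G a =
        ((fwdDiff s)^[k] G a / (k.factorial : ℝ)) * (descPochhammer ℝ k).eval (n : ℝ) := by
      intro k
      rw [nsmul_eq_mul, Nat.cast_choose_eq_descPochhammer_div]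
      ring
    rw [Polynomial.eval_finsetSum]
    simp only [Polynomial.eval_mul, Polynomial.eval_C, ← h2]
    have e1 : ∑ k ∈ Finset.range (n + 1), (n.choose k) • (fwdDiff s)^[k] G a =
        ∑ k ∈ Finset.range (n + 1 + m), (n.choose k) • (fwdDiff s)^[k] G a := by
      apply Finset.sum_subset (Finset.range_subset_range.2 (by omega))
      intro k _ hk
      rw [Finset.mem_range, not_lt] at hk
      rw [Nat.choose_eq_zero_of_lt (by omega), zero_smul]
    have e2 : ∑ k ∈ Finset.range m, (n.choose k) • (fwdDiff s)^[k] G a =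
        ∑ k ∈ Finset.range (n + 1 + m), (n.choose k) • (fwdDiff s)^[k] G a := by
      apply Finset.sum_subset (Finset.range_subset_range.2 (by omega))
      intro k _ hk
      rw [Finset.mem_range, not_lt] at hk
      rcases le_or_gt k N with h3 | h3
      · rw [hz k hk h3, smul_zero]
      · rw [Nat.choose_eq_zero_of_lt (by omega), zero_smul]
    rw [e1, e2]
  refine ⟨Q.comp (Polynomial.C s⁻¹ * (Polynomial.X - Polynomial.C a)), ?_, fun n hn => ?_⟩
  · refine Polynomial.natDegree_comp_le.trans ?_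
    have h1 : (Polynomial.C s⁻¹ * (Polynomial.X - Polynomial.C a)).natDegree ≤ 1 := by
      refine (Polynomial.natDegree_C_mul_le _ _).trans ?_
      rw [Polynomial.natDegree_X_sub_C]
    calc Q.natDegree * (Polynomial.C s⁻¹ * (Polynomial.X - Polynomial.C a)).natDegree ≤ m * 1 :=
          Nat.mul_le_mul hQd h1
      _ = m := mul_one m
  · rw [hQ n hn, Polynomial.eval_comp]
    congr 1
    simp only [Polynomial.eval_mul, Polynomial.eval_C, Polynomial.eval_sub, Polynomial.eval_X]
    field_simp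
    ring

/-- The local form of Fréchet's theorem. -/
theorem local_frechet {G : ℝ → ℝ} (hc : Continuous G) {m : ℕ} {a L s0 : ℝ} (hL : 0 < L)
    (hs0 : 0 < s0)
    (h : ∀ s x, 0 < s → s ≤ s0 → a ≤ x → x ≤ a + L → (fwdDiff s)^[m] G x = 0) :
    ∃ P : Polynomial ℝ, ∀ t, a ≤ t → t ≤ a + L → G t = P.eval t := by
  -- the progressions
  have hpr : ∀ N : ℕ, 0 < N → L / N ≤ s0 → ∃ P : Polynomial ℝ, P.natDegree ≤ m ∧
      ∀ n : ℕ, n ≤ N → G (a + n * (L / N)) = P.eval (a + n * (L / N)) := by
    intro N hN hLN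
    have hN' : (0 : ℝ) < N := by exact_mod_cast hN
    refine prog (by positivity) fun j hj => h _ _ (by positivity) hLN ?_ ?_
    · have : 0 ≤ (j : ℝ) * (L / N) := by positivity
      linarith
    · have h1 : (j : ℝ) ≤ N := by exact_mod_cast hj
      have h2 : (j : ℝ) * (L / N) ≤ N * (L / N) := by gcongr
      have h3 : (N : ℝ) * (L / N) = L := by field_simp
      linarith
  obtain ⟨N1, hN1⟩ := exists_nat_gt (L / s0)
  set N0 : ℕ := max N1 (m + 1) with hN0
  have hN0m : m < N0 := lt_of_lt_of_le (Nat.lt_succ_self m) (le_max_right _ _)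
  have hN0pos : 0 < N0 := by omega
  have hN0s : L / N0 ≤ s0 := by
    have h1 : L / s0 < N0 := lt_of_lt_of_le hN1 (by exact_mod_cast le_max_left _ _)
    have h2 : (0 : ℝ) < N0 := by exact_mod_cast hN0pos
    rw [div_lt_iff₀ hs0] at h1
    rw [div_le_iff₀ h2]
    linarith
  obtain ⟨P, hPd, hP⟩ := hpr N0 hN0pos hN0s
  -- all grids
  have hall : ∀ N : ℕ, 0 < N → ∀ n : ℕ, n ≤ N →
      G (a + n * (L / N)) = P.eval (a + n * (L / N)) := by
    intro N hN n hn
    have hN' : (0 : ℝ) < N := by exact_mod_cast hN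
    have hN0' : (0 : ℝ) < N0 := by exact_mod_cast hN0pos
    have h1 : L / (N * N0 : ℕ) ≤ s0 := by
      refine le_trans ?_ hN0s
      push_cast
      rw [div_le_div_iff₀ (by positivity) hN0']
      have h2 : (1 : ℝ) ≤ N := by exact_mod_cast hN
      nlinarith [mul_nonneg (mul_pos hL hN0').le (sub_nonneg.mpr h2)]
    obtain ⟨P', hP'd, hP'⟩ := hpr (N * N0) (Nat.mul_pos hN hN0pos) h1
    have hPP : P' - P = 0 := by
      refine Polynomial.eq_zero_of_natDegree_lt_card_of_eval_eq_zero' _
        ((Finset.range (N0 + 1)).image fun k : ℕ => a + (k : ℝ) * (L / N0)) ?_ ?_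
      · intro x hx
        obtain ⟨k, hk, rfl⟩ := Finset.mem_image.mp hx
        rw [Finset.mem_range] at hk
        have h2 := hP k (by omega)
        have h3 := hP' (k * N) (by rw [mul_comm]; exact Nat.mul_le_mul_left N (by omega))
        have h4 : a + ((k * N : ℕ) : ℝ) * (L / (N * N0 : ℕ)) = a + k * (L / N0) := by
          push_cast
          field_simp
        rw [h4] at h3
        rw [Polynomial.eval_sub, ← h2, ← h3, sub_self]
      · rw [Finset.card_image_of_injective]
        · rw [Finset.card_range]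
          refine lt_of_le_of_lt (Polynomial.natDegree_sub_le _ _) ?_
          have : max P'.natDegree P.natDegree ≤ m := max_le hP'd hPd
          omega
        · intro i j hij
          have h2 : (i : ℝ) * (L / N0) = j * (L / N0) := by
            have : a + (i : ℝ) * (L / N0) = a + j * (L / N0) := hij
            linarith
          have h3 : (i : ℝ) = j := mul_right_cancel₀ (by positivity) h2
          exact_mod_cast h3
    have hPP' : P' = P := sub_eq_zero.mp hPP
    rw [hPP'] at hP'
    have h2 := hP' (n * N0) (Nat.mul_le_mul_right N0 hn)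
    have h3 : a + ((n * N0 : ℕ) : ℝ) * (L / (N * N0 : ℕ)) = a + n * (L / N) := by
      push_cast
      field_simp
    rw [h3] at h2
    exact h2
  -- density
  refine ⟨P, fun t ht1 ht2 => ?_⟩
  set b := (t - a) / L with hb
  have hb0 : 0 ≤ b := div_nonneg (by linarith) hL.le
  have hb1 : b ≤ 1 := by rw [hb, div_le_one hL]; linarith
  have htend : Tendsto (fun N : ℕ => a + (⌊b * (N : ℝ)⌋₊ : ℝ) / N * L) atTop (𝓝 t) := by
    have h1 := (tendsto_nat_floor_mul_div_atTop hb0).comp tendsto_natCast_atTop_atTop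
    have h2 := (h1.mul_const L).const_add a
    have h3 : a + b * L = t := by rw [hb]; field_simp; ring
    rw [h3] at h2
    exact h2
  have heq : ∀ᶠ N : ℕ in atTop, G (a + (⌊b * (N : ℝ)⌋₊ : ℝ) / N * L) =
      P.eval (a + (⌊b * (N : ℝ)⌋₊ : ℝ) / N * L) := by
    filter_upwards [eventually_gt_atTop 0] with N hN
    have hN' : (0 : ℝ) < N := by exact_mod_cast hN
    have h1 : ⌊b * (N : ℝ)⌋₊ ≤ N := by
      refine Nat.floor_le_of_le ?_
      nlinarith
    have h2 := hall N hN _ h1
    have h3 : a + (⌊b * (N : ℝ)⌋₊ : ℝ) * (L / N) = a + (⌊b * (N : ℝ)⌋₊ : ℝ) / N * L := by ring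
    rw [h3] at h2
    exact h2
  have h1 := (hc.tendsto t).comp htend
  have h2 := (P.continuous.tendsto t).comp htend
  exact tendsto_nhds_unique (h1.congr' heq) h2

variable {E : Type*} [NormedAddCommGroup E] [InnerProductSpace ℝ E]

/-- If `M` is not a polynomial near zero, the values of `FF M v` span everything. -/
theorem span_top {m' : ℕ} (v : Fin (m' + 1) → E) (hv : ∀ i, ‖v i‖ = 1)
    (hne : ∀ i j, i ≠ j → |inner ℝ (v i) (v j)| < 1) {M : ℝ → ℝ} (hM : Continuous M)
    (hpoly : ¬ ∃ (P : Polynomial ℝ) (δ : ℝ), 0 < δ ∧ ∀ x, |x| ≤ δ → M x = P.eval x)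
    {t : ℝ} (ht : 0 < t) :
    Submodule.span ℝ (FF M v '' Metric.closedBall 0 t) = ⊤ := by
  classical
  by_contra hno
  obtain ⟨f, hf0, hf⟩ := Submodule.exists_le_ker_of_lt_top _ (lt_top_iff_ne_top.mpr hno)
  set lam : Fin (m' + 1) → ℝ := fun i => f (Pi.single i 1) with hlam
  have hfl : ∀ x : Fin (m' + 1) → ℝ, f x = ∑ i, lam i * x i := by
    intro x
    have h1 : x = ∑ i, x i • (Pi.single i 1 : Fin (m' + 1) → ℝ) := by
      funext j
      simp [Finset.sum_apply, Pi.single_apply]
    conv_lhs => rw [h1]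
    rw [map_sum]
    refine Finset.sum_congr rfl fun i _ => ?_
    rw [map_smul, smul_eq_mul, mul_comm]
  obtain ⟨i, hi⟩ : ∃ i, lam i ≠ 0 := by
    by_contra hall
    push Not at hall
    refine hf0 (LinearMap.ext fun x => ?_)
    rw [hfl]
    simp [hall]
  have hH : ∀ u : E, ‖u‖ ≤ t → Gs v (fun i x => lam i * M x) u = 0 := by
    intro u hu
    have h1 : FF M v u ∈ LinearMap.ker f :=
      hf (Submodule.subset_span ⟨u, by simpa using hu, rfl⟩)
    rw [LinearMap.mem_ker, hfl] at h1
    exact h1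
  set κ : ℝ := ∑ l, ‖ww v i l‖ with hκ
  have hκ0 : 0 ≤ κ := Finset.sum_nonneg fun _ _ => norm_nonneg _
  have hsz : ∀ s x : ℝ, 0 < s → s ≤ t / (2 * (κ + 1)) → |x| ≤ t / 2 →
      (fwdDiff s)^[m'] M x = 0 := by
    intro s x hs0 hs hx
    have hsκ : s * κ ≤ t / 2 := by
      rw [le_div_iff₀ (by positivity)] at hs
      nlinarith
    have h1 := alt_sum v (fun i x => lam i * M x) i (x • v i) (fun l => s • ww v i l)
      (fun l => by rw [real_inner_smul_left, ww_orth hv, mul_zero])
    have h2 : ∀ T : Finset (Fin m'), Gs v (fun i x => lam i * M x)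
        (x • v i + ∑ l ∈ T, s • ww v i l) = 0 := by
      intro T
      refine hH _ ((norm_add_le _ _).trans ?_)
      have h3 : ‖∑ l ∈ T, s • ww v i l‖ ≤ s * κ := by
        rw [← Finset.smul_sum, norm_smul, Real.norm_eq_abs, abs_of_pos hs0]
        refine mul_le_mul_of_nonneg_left ?_ hs0.le
        exact (norm_sum_le _ _).trans
          (Finset.sum_le_sum_of_subset_of_nonneg (Finset.subset_univ _) fun _ _ _ => norm_nonneg _)
      have h4 : ‖x • v i‖ ≤ t / 2 := by
        rw [norm_smul, hv, mul_one, Real.norm_eq_abs]; exact hx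
      linarith
    simp only [h2, mul_zero, Finset.sum_const_zero] at h1
    have h5 : ∀ T : Finset (Fin m'), inner ℝ (x • v i) (v i) +
        ∑ l ∈ T, inner ℝ (s • ww v i l) (v i) = x + T.card * s := by
      intro T
      simp only [real_inner_smul_left, real_inner_self_eq_norm_sq, hv, ww_one hv hne]
      rw [Finset.sum_const, nsmul_eq_mul]
      ring
    simp only [h5] at h1
    have h6 := Finset.sum_powerset_apply_card
      (fun k : ℕ => (-1 : ℝ) ^ k * (lam i * M (x + k * s))) (x := (univ : Finset (Fin m')))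
    rw [Finset.powerset_univ, Finset.card_univ, Fintype.card_fin] at h6
    rw [h6] at h1
    rw [fwdDiff_iter_eq_sum_shift]
    have h7 : ∀ k ∈ range (m' + 1), ((-1 : ℤ) ^ (m' - k) * (m'.choose k : ℤ)) • M (x + k • s) =
        (-1) ^ m' * (lam i)⁻¹ * ((m'.choose k) • ((-1 : ℝ) ^ k * (lam i * M (x + k * s)))) := by
      intro k hk
      rw [Finset.mem_range] at hk
      have h8 : (-1 : ℝ) ^ (m' - k) = (-1) ^ m' * (-1) ^ k := by
        have h9 : (-1 : ℝ) ^ m' = (-1) ^ (m' - k) * (-1) ^ k := by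
          rw [← pow_add]; congr 1; omega
        rw [h9, mul_assoc, ← mul_pow]; norm_num
      rw [zsmul_eq_mul, nsmul_eq_mul, nsmul_eq_mul]
      push_cast
      rw [h8]
      field_simp
    rw [Finset.sum_congr rfl h7, ← Finset.mul_sum, ← h1, mul_zero]
  obtain ⟨P, hP⟩ := local_frechet hM (a := -(t / 2)) (L := t) (s0 := t / (2 * (κ + 1))) ht
    (by positivity) (fun s x hs0 hs hx1 hx2 => hsz s x hs0 hs (by
      rw [abs_le]; constructor <;> linarith))
  exact hpoly ⟨P, t / 2, by positivity, fun x hx => by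
    rw [abs_le] at hx
    exact hP x hx.1 (by linarith [hx.2])⟩

end Pool.Agent.Lib.P23O
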