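import Pool.Agent.Lib.P23O.Cone

/-!
# P23O.Wt: weighted systems

For an Orlicz function `M` there are points `u` and positive weights with sum `1` such that
`∑ w M ⟪u, v i⟫ = 1` for all `i`.
-/

set_option autoImplicit false

open Finset MeasureTheory Metric

open scoped ENNReal

namespace Pool.Agent.Lib.P23O

variable {E : Type*} [NormedAddCommGroup E] [InnerProductSpace ℝ E] [FiniteDimensional ℝ E]

theorem weighted_points {m' : ℕ} (v : Fin (m' + 1) → E) (hv : ∀ i, ‖v i‖ = 1)
    {M : ℝ → ℝ} (hM : Orl M) (hM1 : ∃ x, M x ≠ 0) :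
    ∃ (I : Type) (_ : Fintype I) (w : I → ℝ) (u : I → E), (∀ κ, 0 < w κ) ∧ ∑ κ, w κ = 1 ∧
      ∀ i, ∑ κ, w κ * M (inner ℝ (u κ) (v i)) = 1 := by
  classical
  let _ : MeasurableSpace E := borel E
  have _ : BorelSpace E := ⟨rfl⟩
  have hcomp : IsCompact (closedBall (0 : E) 1) := isCompact_closedBall _ _
  set B := volume.real (closedBall (0 : E) 1) with hB
  have hBm0 : volume (closedBall (0 : E) 1) ≠ 0 :=
    (measure_closedBall_pos volume (0 : E) one_pos).ne'
  have hBmt : volume (closedBall (0 : E) 1) ≠ ∞ := measure_closedBall_lt_top.ne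
  have hB0 : 0 < B := by
    rw [hB, measureReal_def]
    exact ENNReal.toReal_pos hBm0 hBmt
  -- the mean as a function of the scale
  set c : ℝ → ℝ := fun ρ => ∫ u in closedBall (0 : E) 1, M (ρ * inner ℝ u (v 0)) with hc
  have hcc : Continuous c := by
    refine continuous_parametric_integral_of_continuous ?_ hcomp
    exact hM.cont.comp (continuous_fst.mul (continuous_snd.inner continuous_const))
  have hint : ∀ (ρ : ℝ) (w : E), IntegrableOn (fun u : E => M (ρ * inner ℝ u w))
      (closedBall (0 : E) 1) := by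
    intro ρ w
    exact (hM.cont.comp (continuous_const.mul
      (continuous_id.inner continuous_const))).continuousOn.integrableOn_compact hcomp
  have hc0 : c 0 = 0 := by
    rw [hc]
    simp [hM.zero]
  -- a scale with positive mean
  obtain ⟨x0, hx0⟩ := hM1
  have hx00 : x0 ≠ 0 := fun h => hx0 (by rw [h, hM.zero])
  obtain ⟨ρ0, hρ0, hcρ0⟩ : ∃ ρ0 : ℝ, 0 < ρ0 ∧ 0 < c ρ0 := by
    refine ⟨2 * |x0|, by positivity, ?_⟩
    rw [hc]
    show 0 < ∫ u in closedBall (0 : E) 1, M (2 * |x0| * inner ℝ u (v 0))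
    rw [setIntegral_pos_iff_support_of_nonneg_ae
      (Filter.Eventually.of_forall fun u => hM.nonneg _) (hint _ _)]
    have h1 : {u : E | 1 / 2 < inner ℝ u (v 0)} ∩ ball 0 1 ⊆
        (Function.support fun u : E => M (2 * |x0| * inner ℝ u (v 0))) ∩ closedBall 0 1 := by
      intro u hu
      refine ⟨?_, ball_subset_closedBall hu.2⟩
      have h2 : 1 / 2 < inner ℝ u (v 0) := hu.1
      have h3 : M x0 ≤ M (2 * |x0| * inner ℝ u (v 0)) := by
        refine hM.mono ?_
        rw [abs_mul, abs_mul, abs_abs, abs_of_pos (by linarith : (0 : ℝ) < inner ℝ u (v 0)),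
          abs_of_pos (by norm_num : (0 : ℝ) < 2)]
        nlinarith [abs_pos.mpr hx00]
      have h4 := hM.nonneg x0
      have h5 : 0 < M x0 := lt_of_le_of_ne h4 (Ne.symm hx0)
      exact (lt_of_lt_of_le h5 h3).ne'
    have h3 : IsOpen ({u : E | 1 / 2 < inner ℝ u (v 0)} ∩ ball 0 1) :=
      (isOpen_lt continuous_const (continuous_id.inner continuous_const)).inter isOpen_ball
    refine lt_of_lt_of_le (h3.measure_pos volume ⟨(3 / 4 : ℝ) • v 0, ?_, ?_⟩) (measure_mono h1)
    · show 1 / 2 < inner ℝ ((3 / 4 : ℝ) • v 0) (v 0)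
      rw [real_inner_smul_left, real_inner_self_eq_norm_sq, hv]; norm_num
    · rw [mem_ball_zero_iff, norm_smul, hv]; norm_num
  -- the mean tends to infinity
  obtain ⟨ρ1, hρ1, hcρ1⟩ : ∃ ρ1 : ℝ, 0 ≤ ρ1 ∧ B ≤ c ρ1 := by
    set L : ℝ := max 1 (B / c ρ0) with hL
    have hL1 : 1 ≤ L := le_max_left _ _
    have hL0 : 0 < L := by linarith
    refine ⟨L * ρ0, by positivity, ?_⟩
    have h1 : L * c ρ0 ≤ c (L * ρ0) := by
      rw [hc]
      show L * ∫ u in closedBall (0 : E) 1, M (ρ0 * inner ℝ u (v 0)) ≤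
        ∫ u in closedBall (0 : E) 1, M (L * ρ0 * inner ℝ u (v 0))
      rw [← integral_const_mul]
      refine setIntegral_mono_on ((hint _ _).const_mul L) (hint _ _) measurableSet_closedBall
        fun u _ => ?_
      have h2 := hM.scale (c := L⁻¹) (by positivity) (inv_le_one_of_one_le₀ hL1)
        (L * ρ0 * inner ℝ u (v 0))
      rw [show L⁻¹ * (L * ρ0 * inner ℝ u (v 0)) = ρ0 * inner ℝ u (v 0) by
        field_simp, ← div_eq_inv_mul, le_div_iff₀ hL0] at h2
      linarith
    have h3 : B ≤ L * c ρ0 := by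
      have : B / c ρ0 ≤ L := le_max_right _ _
      rwa [div_le_iff₀ hcρ0] at this
    linarith
  obtain ⟨ρ, -, hρ⟩ := intermediate_value_Icc hρ1 hcc.continuousOn
    (show B ∈ Set.Icc (c 0) (c ρ1) from ⟨by rw [hc0]; exact hB0.le, hcρ1⟩)
  -- the vector of ones is an average
  set D : Set (Fin (m' + 1) → ℝ) := (fun u => FF M v (ρ • u)) '' closedBall 0 1 with hD
  have hFc : Continuous fun u : E => FF M v (ρ • u) :=
    (FF_cont hM.cont v).comp (continuous_const.smul continuous_id)
  have hDc : IsCompact D := hcomp.image hFc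
  have hKc : IsCompact (convexHull ℝ D) := Pool.Agent.Lib.P325pg.hull_compact hDc
  have hFint : IntegrableOn (fun u : E => FF M v (ρ • u)) (closedBall 0 1) :=
    hFc.continuousOn.integrableOn_compact hcomp
  have hmem := (convex_convexHull ℝ D).set_average_mem hKc.isClosed hBm0 hBmt
    (ae_restrict_of_forall_mem measurableSet_closedBall fun u hu =>
      subset_convexHull ℝ D ⟨u, hu, rfl⟩) hFint
  have hav : (⨍ u in closedBall (0 : E) 1, FF M v (ρ • u)) = fun _ => 1 := by
    rw [setAverage_eq]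
    funext i
    rw [Pi.smul_apply, ← hB]
    have h1 : (∫ u in closedBall (0 : E) 1, FF M v (ρ • u)) i =
        ∫ u in closedBall (0 : E) 1, FF M v (ρ • u) i := by
      have h2 := (ContinuousLinearMap.proj (R := ℝ) (φ := fun _ : Fin (m' + 1) => ℝ)
        i).integral_comp_comm hFint
      exact h2.symm
    rw [h1]
    have h2 : ∫ u in closedBall (0 : E) 1, FF M v (ρ • u) i = c ρ := by
      rw [hc]
      show ∫ u in closedBall (0 : E) 1, M (inner ℝ (ρ • u) (v i)) = _
      simp only [real_inner_smul_left]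
      exact int_rot (hv 0) (hv i) (fun x => M (ρ * x))
    rw [h2, hρ, smul_eq_mul, inv_mul_cancel₀ hB0.ne']
  rw [hav] at hmem
  obtain ⟨ι, hι, x, w, hx1, -, hx3, hx4, hx5⟩ := eq_pos_convex_span_of_mem_convexHull hmem
  have hch : ∀ k, ∃ ξ : E, FF M v ξ = x k := by
    intro k
    obtain ⟨ξ, -, h2⟩ := hx1 (Set.mem_range_self k)
    exact ⟨ρ • ξ, h2⟩
  choose ξ hξ using hch
  refine ⟨ι, hι, w, ξ, hx3, hx4, fun i => ?_⟩
  have h1 := congrFun hx5 i
  rw [Finset.sum_apply] at h1
  simp only [Pi.smul_apply, smul_eq_mul, ← hξ] at h1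
  exact h1

end Pool.Agent.Lib.P23O
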