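import Pool.Agent.Lib.P23O.Fam
import Pool.Agent.Lib.P23O.Loc
import Pool.Agent.Lib.P23O.Wt
import Pool.Agent.Lib.P23F.PMir
import Pool.Agent.Lib.P23d34e.EmbedY

/-!
# P23O.OrlFin: finite Euclidean sets in Orlicz spaces
-/

set_option autoImplicit false

open Finset MeasureTheory Metric

open scoped ENNReal

namespace Pool.Agent.Lib.P23O

section Points

variable {E : Type*} [NormedAddCommGroup E] [InnerProductSpace ℝ E] [FiniteDimensional ℝ E]

/-- For an Orlicz function there are finitely many points with `∑ M ⟪u, v i⟫ = 1` for all `i`. -/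
theorem orl_points {m' : ℕ} (v : Fin (m' + 1) → E) (hv : ∀ i, ‖v i‖ = 1)
    (hne : ∀ i j, i ≠ j → |inner ℝ (v i) (v j)| < 1) {M : ℝ → ℝ} (hM : Orl M)
    (hpos : ∀ x, x ≠ 0 → 0 < M x) :
    ∃ (I : Type) (_ : Fintype I) (u : I → E), ∀ i, ∑ κ, M (inner ℝ (u κ) (v i)) = 1 := by
  classical
  let _ : MeasurableSpace E := borel E
  have _ : BorelSpace E := ⟨rfl⟩
  obtain ⟨d, w, e, t, I, hI, u, ht, huc, hut, hspan, hmem, hpl, hmi⟩ := family v hv hne hM hpos
  obtain ⟨y, hy, hy0⟩ := P23F.poincare_miranda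
    (fun y j => e j (∑ κ, FF M v (u y κ) - (fun _ => 1))) (by
      refine Continuous.continuousOn (continuous_pi fun j => ?_)
      refine (LinearMap.continuous_of_finiteDimensional (e j)).comp ?_
      exact (continuous_finsetSum _ fun κ _ => (FF_cont hM.cont v).comp (huc κ)).sub
        continuous_const)
    (fun y hy j hj => by
      have := hmi y hy j hj
      show e j _ ≤ 0
      linarith)
    (fun y hy j hj => by
      have := hpl y hy j hj
      show 0 ≤ e j _
      linarith)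
  refine ⟨I, hI, u y, fun i => ?_⟩
  have h1 := hspan _ (hmem y)
  simp only [hy0, zero_smul, Finset.sum_const_zero] at h1
  have h2 := congrFun (sub_eq_zero.mp h1) i
  rw [Finset.sum_apply] at h2
  exact h2

/-- The robust version. -/
theorem orl_robust {m' : ℕ} (v : Fin (m' + 1) → E) (hv : ∀ i, ‖v i‖ = 1)
    (hne : ∀ i j, i ≠ j → |inner ℝ (v i) (v j)| < 1) {M : ℝ → ℝ} (hM : Orl M)
    (hpos : ∀ x, x ≠ 0 → 0 < M x)
    (hpoly : ¬ ∃ (P : Polynomial ℝ) (δ : ℝ), 0 < δ ∧ ∀ x, |x| ≤ δ → M x = P.eval x)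
    {X : Type*} [NormedAddCommGroup X] [NormedSpace ℝ X]
    (hX : ∀ (I : Type) (_ : Fintype I) (ε : ℝ), 0 < ε → ∃ e : I → X, ∀ a : I → ℝ,
      (∑ i, M (a i) ≤ 1 → ‖∑ i, a i • e i‖ ≤ 1) ∧
      (‖∑ i, a i • e i‖ ≤ 1 → ∑ i, M (a i / (1 + ε)) ≤ 1)) :
    ∃ T : E →ₗ[ℝ] X, ∀ i, ‖T (v i)‖ = 1 := by
  classical
  let _ : MeasurableSpace E := borel E
  have _ : BorelSpace E := ⟨rfl⟩
  obtain ⟨d, w, e, t, I, hI, u, ht, huc, hut, hspan, hmem, hpl, hmi⟩ := family v hv hne hM hpos
  have htop := span_top v hv hne hM.cont hpoly ht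
  -- the constants
  set Q : ℝ := ∑ j, ∑ i, |e j (Pi.single i 1)| with hQ
  have hQ0 : 0 ≤ Q := Finset.sum_nonneg fun _ _ => Finset.sum_nonneg fun _ _ => abs_nonneg _
  have hel : ∀ j (x : Fin (m' + 1) → ℝ) (η : ℝ), 0 ≤ η → (∀ i, |x i| ≤ η) →
      |e j x| ≤ Q * η := by
    intro j x η hη hx
    have h1 : x = ∑ i, x i • (Pi.single i 1 : Fin (m' + 1) → ℝ) := by
      funext j
      simp [Finset.sum_apply, Pi.single_apply]
    calc |e j x| = |∑ i, x i * e j (Pi.single i 1)| := by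
          conv_lhs => rw [h1]
          rw [map_sum]
          simp only [map_smul, smul_eq_mul]
      _ ≤ ∑ i, |x i * e j (Pi.single i 1)| := Finset.abs_sum_le_sum_abs _ _
      _ ≤ ∑ i, |e j (Pi.single i 1)| * η := by
          refine Finset.sum_le_sum fun i _ => ?_
          rw [abs_mul, mul_comm]
          exact mul_le_mul_of_nonneg_left (hx i) (abs_nonneg _)
      _ = (∑ i, |e j (Pi.single i 1)|) * η := by rw [Finset.sum_mul]
      _ ≤ Q * η := by
          refine mul_le_mul_of_nonneg_right ?_ hη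
          exact Finset.single_le_sum (f := fun j => ∑ i, |e j (Pi.single i 1)|)
            (fun _ _ => Finset.sum_nonneg fun _ _ => abs_nonneg _) (Finset.mem_univ j)
  set η : ℝ := 1 / (2 * (Q + 1)) with hη
  have hη0 : 0 < η := by rw [hη]; positivity
  have hQη : Q * η ≤ 1 / 2 := by
    rw [hη, mul_one_div, div_le_div_iff₀ (by positivity) (by norm_num)]
    linarith
  have hM2 : 0 ≤ M (2 * t) := hM.nonneg _
  set ε : ℝ := min 1 (η / (2 * (Fintype.card I * M (2 * t) + 1))) with hε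
  have hc0 : 0 ≤ Fintype.card I * M (2 * t) := by positivity
  have hε0 : 0 < ε := by rw [hε]; exact lt_min one_pos (by positivity)
  have hε1 : ε ≤ 1 := min_le_left _ _
  have hε2 : Fintype.card I * (ε * M (2 * t)) < η := by
    have h1 : ε ≤ η / (2 * (Fintype.card I * M (2 * t) + 1)) := min_le_right _ _
    rw [le_div_iff₀ (by positivity)] at h1
    nlinarith
  obtain ⟨b, hb⟩ := hX I hI ε hε0
  -- the two functions
  set s : (Fin d → ℝ) → Fin (m' + 1) → ℝ := fun y i => ∑ κ, M (inner ℝ (u y κ) (v i)) with hs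
  set n : (Fin d → ℝ) → Fin (m' + 1) → ℝ := fun y i => ‖∑ κ, (inner ℝ (u y κ) (v i) : ℝ) • b κ‖
    with hn
  have hsc : ∀ i, Continuous fun y => s y i := fun i =>
    continuous_finsetSum _ fun κ _ => hM.cont.comp ((huc κ).inner continuous_const)
  have hnc : ∀ i, Continuous fun y => n y i := fun i =>
    (continuous_finsetSum _ fun κ _ =>
      ((huc κ).inner continuous_const).smul continuous_const).norm
  have hs1 : ∀ y i, s y i ≤ 1 → n y i ≤ 1 := fun y i h => (hb _).1 h
  have hn1 : ∀ y i, n y i ≤ 1 → s y i < 1 + η := by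
    intro y i h
    have h1 := (hb (fun κ => inner ℝ (u y κ) (v i))).2 h
    have h2 : ∀ κ, M (inner ℝ (u y κ) (v i)) ≤ M (inner ℝ (u y κ) (v i) / (1 + ε)) +
        ε * M (2 * t) := by
      intro κ
      set x : ℝ := inner ℝ (u y κ) (v i) with hx
      have hxt : |x| ≤ t := by
        have := abs_real_inner_le_norm (u y κ) (v i)
        rw [hv, mul_one] at this
        exact this.trans (hut y κ)
      set z : ℝ := x / (1 + ε) with hz
      have hzt : |z| ≤ t := by
        rw [hz, abs_div, abs_of_pos (by linarith : (0 : ℝ) < 1 + ε), div_le_iff₀ (by linarith)]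
        nlinarith
      have h3 : x = (1 - ε) * z + ε * (2 * z) := by rw [hz]; field_simp; ring
      have h4 := hM.conv.2 (Set.mem_univ z) (Set.mem_univ (2 * z)) (sub_nonneg.mpr hε1) hε0.le
        (by ring)
      simp only [smul_eq_mul] at h4
      rw [← h3] at h4
      have h5 : M (2 * z) ≤ M (2 * t) := by
        refine hM.mono ?_
        rw [abs_mul, abs_mul, abs_of_pos ht]
        exact mul_le_mul_of_nonneg_left hzt (abs_nonneg _)
      have h6 := hM.nonneg z
      nlinarith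
    have h3 : s y i ≤ ∑ κ, M (inner ℝ (u y κ) (v i) / (1 + ε)) +
        Fintype.card I * (ε * M (2 * t)) := by
      calc s y i ≤ ∑ κ, (M (inner ℝ (u y κ) (v i) / (1 + ε)) + ε * M (2 * t)) :=
            Finset.sum_le_sum fun κ _ => h2 κ
        _ = _ := by
            rw [Finset.sum_add_distrib, Finset.sum_const, Finset.card_univ, nsmul_eq_mul]
    linarith
  set ψ : (Fin d → ℝ) → Fin (m' + 1) → ℝ := fun y i =>
    max (s y i - η) (min (s y i + η) (n y i)) with hψ
  have hψc : Continuous ψ := continuous_pi fun i =>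
    ((hsc i).sub continuous_const).max (((hsc i).add continuous_const).min (hnc i))
  have hψs : ∀ y i, |ψ y i - s y i| ≤ η := by
    intro y i
    have h1 : s y i - η ≤ ψ y i := le_max_left _ _
    have h2 : ψ y i ≤ s y i + η := max_le (by linarith) (min_le_left _ _)
    rw [abs_le]; constructor <;> linarith
  have hdec : ∀ y j, e j (ψ y - fun _ => 1) =
      e j (∑ κ, FF M v (u y κ) - fun _ => 1) + e j (ψ y - s y) := by
    intro y j
    have h1 : (∑ κ, FF M v (u y κ)) = s y := by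
      funext i
      rw [Finset.sum_apply]
      rfl
    rw [h1, ← map_add]
    congr 1
    abel
  have herr : ∀ y j, |e j (ψ y - s y)| ≤ 1 / 2 := fun y j =>
    (hel j _ η hη0.le (fun i => hψs y i)).trans hQη
  obtain ⟨y, hy, hy0⟩ := P23F.poincare_miranda
    (fun y j => e j (ψ y - fun _ => 1)) (by
      refine Continuous.continuousOn (continuous_pi fun j => ?_)
      exact (LinearMap.continuous_of_finiteDimensional (e j)).comp (hψc.sub continuous_const))
    (fun y hy j hj => by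
      have h1 := hmi y hy j hj
      have h2 := (abs_le.mp (herr y j)).2
      show e j _ ≤ 0
      rw [hdec]; linarith)
    (fun y hy j hj => by
      have h1 := hpl y hy j hj
      have h2 := (abs_le.mp (herr y j)).1
      show 0 ≤ e j _
      rw [hdec]; linarith)
  have h1 : ψ y - (fun _ => 1) = 0 := by
    have h2 := hspan (ψ y - fun _ => 1) (by rw [htop]; exact Submodule.mem_top)
    rw [h2]
    refine Finset.sum_eq_zero fun j _ => ?_
    have h3 : e j (ψ y - fun _ => 1) = 0 := hy0 j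
    rw [h3, zero_smul]
  have hn0 : ∀ i, n y i = 1 := by
    intro i
    have h2 : ψ y i = 1 := by
      have := congrFun (sub_eq_zero.mp h1) i
      exact this
    have h3 : max (s y i - η) (min (s y i + η) (n y i)) = 1 := h2
    rcases lt_trichotomy (n y i) 1 with h4 | h4 | h4
    · have h5 := hn1 y i h4.le
      have h6 : min (s y i + η) (n y i) < 1 := (min_le_right _ _).trans_lt h4
      have h7 : max (s y i - η) (min (s y i + η) (n y i)) < 1 := max_lt (by linarith) h6
      linarith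
    · exact h4
    · have h5 : min (s y i + η) (n y i) ≤ 1 := (le_max_right _ _).trans h3.le
      rcases min_le_iff.mp h5 with h6 | h6
      · have := hs1 y i (by linarith)
        linarith
      · linarith
  refine ⟨∑ κ, (innerₛₗ ℝ (u y κ)).smulRight (b κ), fun i => ?_⟩
  rw [LinearMap.sum_apply]
  simp only [LinearMap.smulRight_apply, innerₛₗ_apply_apply]
  exact hn0 i

omit [FiniteDimensional ℝ E] in
/-- A vector of modular one has norm one. -/
lemma norm_eq_one {I : Type} [Fintype I] {M : ℝ → ℝ} (hM : Orl M) {W : I → ℝ}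
    (hW : ∀ κ, 0 ≤ W κ) {X : Type*} [NormedAddCommGroup X] [NormedSpace ℝ X] (b : I → X)
    (hb : ∀ a : I → ℝ, ‖∑ i, a i • b i‖ ≤ 1 ↔ ∑ i, W i * M (a i) ≤ 1) (u : I → E) (z : E)
    (hu : ∑ κ, W κ * M (inner ℝ (u κ) z) = 1) :
    ‖(∑ κ, (innerₛₗ ℝ (u κ)).smulRight (b κ)) z‖ = 1 := by
  rw [LinearMap.sum_apply]
  simp only [LinearMap.smulRight_apply, innerₛₗ_apply_apply]
  set x : X := ∑ κ, (inner ℝ (u κ) z : ℝ) • b κ with hx
  have h1 : ‖x‖ ≤ 1 := (hb _).mpr hu.le
  by_contra hne1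
  have hlt : ‖x‖ < 1 := lt_of_le_of_ne h1 hne1
  -- a scaling factor
  obtain ⟨c, hc1, hc2⟩ : ∃ c : ℝ, 1 < c ∧ c * ‖x‖ ≤ 1 := by
    rcases eq_or_ne ‖x‖ 0 with h | h
    · exact ⟨2, by norm_num, by rw [h]; norm_num⟩
    · have h0 : 0 < ‖x‖ := lt_of_le_of_ne (norm_nonneg _) (Ne.symm h)
      exact ⟨‖x‖⁻¹, (one_lt_inv₀ h0).mpr hlt, by rw [inv_mul_cancel₀ h]⟩
  have hc0 : 0 < c := by linarith
  have h2 : ‖∑ κ, (c * inner ℝ (u κ) z : ℝ) • b κ‖ ≤ 1 := by
    have h3 : ∑ κ, (c * inner ℝ (u κ) z : ℝ) • b κ = c • x := by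
      rw [hx, Finset.smul_sum]
      exact Finset.sum_congr rfl fun κ _ => by rw [smul_smul]
    rw [h3, norm_smul, Real.norm_eq_abs, abs_of_pos hc0]
    exact hc2
  have h3 := (hb _).mp h2
  have h4 : c * ∑ κ, W κ * M (inner ℝ (u κ) z) ≤ ∑ κ, W κ * M (c * inner ℝ (u κ) z) := by
    rw [Finset.mul_sum]
    refine Finset.sum_le_sum fun κ _ => ?_
    have h5 := hM.scale (c := c⁻¹) (by positivity) (inv_le_one_of_one_le₀ hc1.le)
      (c * inner ℝ (u κ) z)
    rw [← mul_assoc, inv_mul_cancel₀ hc0.ne', one_mul, ← div_eq_inv_mul, le_div_iff₀ hc0] at h5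
    have h6 := mul_le_mul_of_nonneg_left h5 (hW κ)
    linarith
  rw [hu] at h4
  linarith

/-- The exact version. -/
theorem orl_exact {m' : ℕ} (v : Fin (m' + 1) → E) (hv : ∀ i, ‖v i‖ = 1)
    (hne : ∀ i j, i ≠ j → |inner ℝ (v i) (v j)| < 1) {M : ℝ → ℝ} (hM : Orl M)
    (hpos : ∀ x, x ≠ 0 → 0 < M x)
    {X : Type*} [NormedAddCommGroup X] [NormedSpace ℝ X]
    (hX : ∀ (I : Type) (_ : Fintype I), ∃ e : I → X, ∀ a : I → ℝ,
      ‖∑ i, a i • e i‖ ≤ 1 ↔ ∑ i, M (a i) ≤ 1) :
    ∃ T : E →ₗ[ℝ] X, ∀ i, ‖T (v i)‖ = 1 := by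
  classical
  obtain ⟨I, hI, u, hu⟩ := orl_points v hv hne hM hpos
  obtain ⟨b, hb⟩ := hX I hI
  exact ⟨_, fun i => norm_eq_one hM (W := fun _ => 1) (fun _ => zero_le_one) b
    (fun a => by simpa using hb a) u (v i) (by simpa using hu i)⟩

/-- The weighted version. -/
theorem orl_weighted {m' : ℕ} (v : Fin (m' + 1) → E) (hv : ∀ i, ‖v i‖ = 1)
    {M : ℝ → ℝ} (hM : Orl M) (hM1 : ∃ x, M x ≠ 0)
    {X : Type*} [NormedAddCommGroup X] [NormedSpace ℝ X]
    (hX : ∀ (I : Type) (_ : Fintype I) (w : I → ℝ), (∀ i, 0 < w i) → ∑ i, w i = 1 →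
      ∃ e : I → X, ∀ a : I → ℝ, ‖∑ i, a i • e i‖ ≤ 1 ↔ ∑ i, w i * M (a i) ≤ 1) :
    ∃ T : E →ₗ[ℝ] X, ∀ i, ‖T (v i)‖ = 1 := by
  classical
  obtain ⟨I, hI, w, u, hw0, hw1, hu⟩ := weighted_points v hv hM hM1
  obtain ⟨b, hb⟩ := hX I hI w hw0 hw1
  exact ⟨_, fun i => norm_eq_one hM (W := w) (fun κ => (hw0 κ).le) b hb u (v i) (hu i)⟩

end Points

/-- Reduction to linear maps. -/
theorem reduce {H : Type*} [NormedAddCommGroup H] [InnerProductSpace ℝ H]
    {X : Type*} [NormedAddCommGroup X] [NormedSpace ℝ X]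
    (hX : ∀ (W : Submodule ℝ H), FiniteDimensional ℝ W → ∀ (m' : ℕ) (v : Fin (m' + 1) → W),
      (∀ i, ‖v i‖ = 1) → (∀ i j, i ≠ j → |inner ℝ (v i) (v j)| < 1) →
      ∃ T : W →ₗ[ℝ] X, ∀ i, ‖T (v i)‖ = 1) (A : Set H) (hA : A.Finite) :
    ∃ f : A → X, Isometry f := by
  classical
  set W : Submodule ℝ H := Submodule.span ℝ A with hW
  have hWf : FiniteDimensional ℝ W := FiniteDimensional.span_of_finite ℝ hA
  have hAfin : Finite A := hA
  have hAft : Fintype A := Fintype.ofFinite A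
  let ι : A → W := fun a => ⟨a, Submodule.subset_span a.2⟩
  have hιd : ∀ a b : A, dist a b = ‖ι a - ι b‖ := by
    intro a b
    rw [Subtype.dist_eq, dist_eq_norm]
    rfl
  -- the directions
  set P : Finset W := ((univ : Finset (A × A)).filter fun p => p.1 ≠ p.2).image
    fun p => ‖ι p.1 - ι p.2‖⁻¹ • (ι p.1 - ι p.2) with hP
  have hPn : ∀ p ∈ P, ‖p‖ = 1 := by
    intro p hp
    obtain ⟨q, hq, rfl⟩ := Finset.mem_image.mp hp
    have hq1 : q.1 ≠ q.2 := (Finset.mem_filter.mp hq).2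
    have h1 : 0 < ‖ι q.1 - ι q.2‖ := by rw [← hιd]; exact dist_pos.mpr hq1
    rw [norm_smul, norm_inv, norm_norm, inv_mul_cancel₀ h1.ne']
  rcases P.eq_empty_or_nonempty with hPe | hPne
  · -- at most one point
    refine ⟨fun _ => 0, Isometry.of_dist_eq fun a b => ?_⟩
    have hab : a = b := by
      by_contra hab
      have : ‖ι a - ι b‖⁻¹ • (ι a - ι b) ∈ P :=
        Finset.mem_image.mpr ⟨(a, b), Finset.mem_filter.mpr ⟨Finset.mem_univ _, hab⟩, rfl⟩
      rw [hPe] at this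
      exact absurd this (Finset.notMem_empty _)
    rw [hab, dist_self, dist_self]
  · -- a maximal family
    set S : Finset (Finset W) := P.powerset.filter fun Q =>
      Q.Nonempty ∧ ∀ a ∈ Q, ∀ b ∈ Q, a ≠ b → |inner ℝ a b| < 1 with hS
    obtain ⟨p0, hp0⟩ := hPne
    have hSne : S.Nonempty := by
      refine ⟨{p0}, Finset.mem_filter.mpr ⟨?_, ?_, ?_⟩⟩
      · exact Finset.mem_powerset.mpr (Finset.singleton_subset_iff.mpr hp0)
      · exact Finset.singleton_nonempty _
      · intro a ha b hb hab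
        rw [Finset.mem_singleton] at ha hb
        exact absurd (ha.trans hb.symm) hab
    obtain ⟨Q, hQS, hQmax⟩ := Finset.exists_max_image S Finset.card hSne
    obtain ⟨hQP, hQne, hQ⟩ := Finset.mem_filter.mp hQS
    rw [Finset.mem_powerset] at hQP
    have hcov : ∀ p ∈ P, ∃ q ∈ Q, p = q ∨ p = -q := by
      intro p hp
      by_cases hpQ : p ∈ Q
      · exact ⟨p, hpQ, Or.inl rfl⟩
      · by_contra hno
        push Not at hno
        have h1 : insert p Q ∈ S := by
          refine Finset.mem_filter.mpr ⟨?_, Finset.insert_nonempty _ _, ?_⟩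
          · exact Finset.mem_powerset.mpr (Finset.insert_subset hp hQP)
          · have hkey : ∀ q ∈ Q, |inner ℝ p q| < 1 := by
              intro q hq
              have h2 : |inner ℝ p q| ≤ 1 := by
                have := abs_real_inner_le_norm p q
                rwa [hPn p hp, hPn q (hQP hq), mul_one] at this
              refine lt_of_le_of_ne h2 fun h3 => ?_
              obtain ⟨h4, h5⟩ := hno q hq
              rcases (abs_eq zero_le_one).mp h3 with h6 | h6
              · apply h4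
                have h7 : ‖p - q‖ ^ 2 = 0 := by
                  rw [norm_sub_sq_real, hPn p hp, hPn q (hQP hq), h6]; ring
                exact sub_eq_zero.mp (norm_eq_zero.mp (pow_eq_zero_iff two_ne_zero |>.mp h7))
              · apply h5
                have h7 : ‖p + q‖ ^ 2 = 0 := by
                  rw [norm_add_sq_real, hPn p hp, hPn q (hQP hq), h6]; ring
                exact eq_neg_of_add_eq_zero_left
                  (norm_eq_zero.mp (pow_eq_zero_iff two_ne_zero |>.mp h7))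
            intro a ha b hb hab
            rw [Finset.mem_insert] at ha hb
            rcases ha with rfl | ha <;> rcases hb with rfl | hb
            · exact absurd rfl hab
            · exact hkey b hb
            · rw [real_inner_comm]; exact hkey a ha
            · exact hQ a ha b hb hab
        have h2 := hQmax _ h1
        rw [Finset.card_insert_of_notMem hpQ] at h2
        omega
    have hcard : 0 < Q.card := Finset.card_pos.mpr hQne
    obtain ⟨m', hm'⟩ := Nat.exists_eq_succ_of_ne_zero hcard.ne'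
    let φ : Fin (m' + 1) ≃ Q := (Fin.castOrderIso hm'.symm).toEquiv.trans Q.equivFin.symm
    obtain ⟨T, hT⟩ := hX W hWf m' (fun i => (φ i : W))
      (fun i => hPn _ (hQP (φ i).2))
      (fun i j hij => hQ _ (φ i).2 _ (φ j).2 fun h => hij (φ.injective (Subtype.ext h)))
    have hTQ : ∀ q ∈ Q, ‖T q‖ = 1 := by
      intro q hq
      have := hT (φ.symm ⟨q, hq⟩)
      rwa [Equiv.apply_symm_apply] at this
    refine ⟨fun a => T (ι a), Isometry.of_dist_eq fun a b => ?_⟩
    rw [hιd, dist_eq_norm, ← map_sub]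
    by_cases hab : a = b
    · subst hab; simp
    · have h1 : ‖ι a - ι b‖⁻¹ • (ι a - ι b) ∈ P :=
        Finset.mem_image.mpr ⟨(a, b), Finset.mem_filter.mpr ⟨Finset.mem_univ _, hab⟩, rfl⟩
      have h0 : 0 < ‖ι a - ι b‖ := by rw [← hιd]; exact dist_pos.mpr hab
      obtain ⟨q, hq, hpq⟩ := hcov _ h1
      have h2 : ‖T (‖ι a - ι b‖⁻¹ • (ι a - ι b))‖ = 1 := by
        rcases hpq with h3 | h3
        · rw [h3]; exact hTQ q hq
        · rw [h3, map_neg, norm_neg]; exact hTQ q hq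
      rw [map_smul, norm_smul, norm_inv, norm_norm, inv_mul_eq_one₀ h0.ne'] at h2
      exact h2.symm

/-- The degenerate case: the space contains almost isometric copies of `ℓ_∞^N`. -/
theorem degenerate {M : ℝ → ℝ} (hM : Orl M) (hM1 : ∃ x, M x ≠ 0) {x1 : ℝ} (hx1 : x1 ≠ 0)
    (hMx1 : M x1 = 0) {X : Type*} [NormedAddCommGroup X] [NormedSpace ℝ X]
    (hX : ∀ (I : Type) (_ : Fintype I), ∃ e : I → X, ∀ a : I → ℝ,
      ‖∑ i, a i • e i‖ ≤ 1 ↔ ∑ i, M (a i) ≤ 1) :
    Pool.Agent.Lib.P23d34e.ContainsSums ∞ ℝ X := by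
  classical
  intro N ε hε
  obtain ⟨x2, hx2⟩ := hM1
  -- the last zero
  set Z : Set ℝ := {x | 0 ≤ x ∧ M x = 0} with hZ
  have hZ1 : |x1| ∈ Z := ⟨abs_nonneg _, by rw [hM.abs]; exact hMx1⟩
  have hZb : BddAbove Z := by
    refine ⟨|x2|, fun x hx => ?_⟩
    by_contra hlt
    push Not at hlt
    have h1 : M x2 ≤ M x := hM.mono (by rw [abs_of_nonneg hx.1]; exact hlt.le)
    rw [hx.2] at h1
    exact hx2 (le_antisymm h1 (hM.nonneg _))
  have hZc : IsClosed Z := by
    have h1 : Z = {x : ℝ | 0 ≤ x} ∩ {x | M x = 0} := rfl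
    rw [h1]
    exact (isClosed_le continuous_const continuous_id).inter (isClosed_eq hM.cont continuous_const)
  set t0 := sSup Z with ht0
  have ht0Z : t0 ∈ Z := hZc.csSup_mem ⟨_, hZ1⟩ hZb
  have ht0pos : 0 < t0 := lt_of_lt_of_le (abs_pos.mpr hx1) (le_csSup hZb hZ1)
  have hle : ∀ x, |x| ≤ t0 → M x = 0 := by
    intro x hx
    have h1 : M x ≤ M t0 := hM.mono (by rw [abs_of_pos ht0pos]; exact hx)
    rw [ht0Z.2] at h1
    exact le_antisymm h1 (hM.nonneg _)
  set c := (1 + ε) * t0 with hc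
  have hct : t0 < c := by rw [hc]; nlinarith
  have hc0 : 0 < c := by linarith
  have hMc : 0 < M c := by
    refine lt_of_le_of_ne (hM.nonneg _) fun h => ?_
    have : c ≤ t0 := le_csSup hZb ⟨hc0.le, h.symm⟩
    linarith
  obtain ⟨K, hK⟩ := exists_nat_gt (1 / M c)
  have hKM : 1 < K * M c := by rwa [div_lt_iff₀ hMc] at hK
  obtain ⟨b, hb⟩ := hX (Fin N × Fin K) inferInstance
  -- the map
  let J : (Fin N → ℝ) →ₗ[ℝ] X := ∑ p : Fin N × Fin K,
    (LinearMap.proj (R := ℝ) (φ := fun _ : Fin N => ℝ) p.1).smulRight (c • b p)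
  have hJ : ∀ z : Fin N → ℝ, J z = ∑ p : Fin N × Fin K, (c * z p.1) • b p := by
    intro z
    show (∑ p : Fin N × Fin K,
      (LinearMap.proj (R := ℝ) (φ := fun _ : Fin N => ℝ) p.1).smulRight (c • b p)) z = _
    rw [LinearMap.sum_apply]
    refine Finset.sum_congr rfl fun p _ => ?_
    rw [LinearMap.smulRight_apply, LinearMap.proj_apply, smul_smul, mul_comm]
  have hup : ∀ z : Fin N → ℝ, (∀ i, |c * z i| ≤ t0) → ‖J z‖ ≤ 1 := by
    intro z hz
    rw [hJ, hb]
    rw [Finset.sum_eq_zero fun p _ => hle _ (hz p.1)]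
    exact zero_le_one
  have hlow : ∀ z : Fin N → ℝ, ‖J z‖ ≤ 1 → ∀ i, |z i| < 1 := by
    intro z hz i
    rw [hJ, hb] at hz
    by_contra hno
    push Not at hno
    have h1 : M c ≤ M (c * z i) := by
      refine hM.mono ?_
      rw [abs_mul c (z i)]
      exact le_mul_of_one_le_right (abs_nonneg c) hno
    have h2 : (K : ℝ) * M (c * z i) ≤ ∑ p : Fin N × Fin K, M (c * z p.1) := by
      rw [Fintype.sum_prod_type]
      have h3 : ∀ j : Fin N, ∑ _k : Fin K, M (c * z j) = K * M (c * z j) := by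
        intro j
        rw [Finset.sum_const, Finset.card_univ, Fintype.card_fin, nsmul_eq_mul]
      simp only [h3]
      exact Finset.single_le_sum (f := fun j => (K : ℝ) * M (c * z j))
        (fun j _ => mul_nonneg (Nat.cast_nonneg _) (hM.nonneg _)) (Finset.mem_univ i)
    have h4 : (K : ℝ) * M c ≤ K * M (c * z i) := mul_le_mul_of_nonneg_left h1 (Nat.cast_nonneg _)
    linarith
  refine ⟨J ∘ₗ (WithLp.linearEquiv ∞ ℝ (Fin N → ℝ)).toLinearMap, fun z => ?_⟩
  have hJz : (J ∘ₗ (WithLp.linearEquiv ∞ ℝ (Fin N → ℝ)).toLinearMap) z = J z.ofLp := rfl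
  rw [hJz]
  have hle1 : ∀ i, |z.ofLp i| ≤ ‖z‖ := fun i => PiLp.norm_apply_le z i
  have hattain : ‖z‖ = 0 ∨ ∃ i, |z.ofLp i| = ‖z‖ := by
    rcases isEmpty_or_nonempty (Fin N) with h | h
    · left; rw [PiLp.norm_eq_ciSup, Real.iSup_of_isEmpty]
    · right
      obtain ⟨i, hi⟩ := exists_eq_ciSup_of_finite (f := fun i => ‖z.ofLp i‖)
      exact ⟨i, by rw [PiLp.norm_eq_ciSup]; exact hi⟩
  rcases eq_or_ne ‖z‖ 0 with h0 | h0
  · have hz0 : z = 0 := norm_eq_zero.mp h0
    rw [hz0]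
    simp
  · have hs : 0 < ‖z‖ := lt_of_le_of_ne (norm_nonneg _) (Ne.symm h0)
    constructor
    · by_contra hno
      push Not at hno
      have h1 : ‖J (‖z‖⁻¹ • z.ofLp)‖ ≤ 1 := by
        rw [map_smul, norm_smul, norm_inv, norm_norm, inv_mul_le_iff₀ hs, mul_one]
        exact hno.le
      rcases hattain with h2 | ⟨i, hi⟩
      · exact h0 h2
      · have h3 := hlow _ h1 i
        rw [Pi.smul_apply, smul_eq_mul, abs_mul, abs_inv, abs_of_pos hs, hi,
          inv_mul_cancel₀ h0] at h3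
        exact lt_irrefl _ h3
    · set r : ℝ := t0 / (c * ‖z‖) with hr
      have hr0 : 0 < r := by rw [hr]; positivity
      have h1 : ‖J (r • z.ofLp)‖ ≤ 1 := by
        refine hup _ fun i => ?_
        rw [Pi.smul_apply, smul_eq_mul, abs_mul c, abs_mul r, abs_of_pos hc0, abs_of_pos hr0, hr]
        have h2 := hle1 i
        calc c * (t0 / (c * ‖z‖) * |z.ofLp i|) ≤ c * (t0 / (c * ‖z‖) * ‖z‖) := by gcongr
          _ = t0 := by field_simp
      rw [map_smul, norm_smul, Real.norm_eq_abs, abs_of_pos hr0, mul_comm,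
        ← le_div_iff₀ hr0, hr, one_div_div] at h1
      refine h1.trans (le_of_eq ?_)
      rw [hc]
      field_simp

/-- **Main theorem**: finite Euclidean sets in spaces with copies of the spaces `ℓ_M^N`. -/
theorem main {M : ℝ → ℝ} (hM : Orl M) (hM1 : ∃ x, M x ≠ 0)
    {X : Type*} [NormedAddCommGroup X] [NormedSpace ℝ X]
    (hX : (∀ N : ℕ, ∃ e : Fin N → X, ∀ a : Fin N → ℝ, ‖∑ i, a i • e i‖ ≤ 1 ↔ ∑ i, M (a i) ≤ 1) ∨
      ((¬ ∃ (P : Polynomial ℝ) (δ : ℝ), 0 < δ ∧ ∀ x, |x| ≤ δ → M x = P.eval x) ∧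
        ∀ (N : ℕ) (ε : ℝ), 0 < ε → ∃ e : Fin N → X, ∀ a : Fin N → ℝ,
          (∑ i, M (a i) ≤ 1 → ‖∑ i, a i • e i‖ ≤ 1) ∧
          (‖∑ i, a i • e i‖ ≤ 1 → ∑ i, M (a i / (1 + ε)) ≤ 1)) ∨
      (∀ (N : ℕ) (w : Fin N → ℝ), (∀ i, 0 < w i) → ∑ i, w i = 1 →
        ∃ e : Fin N → X, ∀ a : Fin N → ℝ, ‖∑ i, a i • e i‖ ≤ 1 ↔ ∑ i, w i * M (a i) ≤ 1))
    {H : Type*} [NormedAddCommGroup H] [InnerProductSpace ℝ H] (A : Set H) (hA : A.Finite) :
    ∃ f : A → X, Isometry f := by
  classical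
  rcases hX with hX | ⟨hpoly, hX⟩ | hX
  · have hX' : ∀ (I : Type) (_ : Fintype I), ∃ e : I → X, ∀ a : I → ℝ,
        ‖∑ i, a i • e i‖ ≤ 1 ↔ ∑ i, M (a i) ≤ 1 := by
      intro I hI
      obtain ⟨e, he⟩ := hX (Fintype.card I)
      refine ⟨fun i => e (Fintype.equivFin I i), fun a => ?_⟩
      have h1 := he (fun j => a ((Fintype.equivFin I).symm j))
      have e1 : ∑ j, M (a ((Fintype.equivFin I).symm j)) = ∑ i, M (a i) :=
        Equiv.sum_comp (Fintype.equivFin I).symm (fun i => M (a i))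
      have e3 : ∑ j, a ((Fintype.equivFin I).symm j) • e j =
          ∑ i, a i • e (Fintype.equivFin I i) := by
        rw [← Equiv.sum_comp (Fintype.equivFin I)]
        simp
      rw [e1, e3] at h1
      exact h1
    by_cases hpos : ∀ x, x ≠ 0 → 0 < M x
    · exact reduce (fun W _ m' v hv hne => orl_exact v hv hne hM hpos hX') A hA
    · push Not at hpos
      obtain ⟨x1, hx1, hMx1⟩ := hpos
      have := degenerate hM hM1 hx1 (le_antisymm hMx1 (hM.nonneg _)) hX'
      exact Pool.Agent.Lib.P23d34e.exists_isometry this (Or.inl ⟨rfl, inferInstance⟩) A hA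
  · have hX' : ∀ (I : Type) (_ : Fintype I) (ε : ℝ), 0 < ε → ∃ e : I → X, ∀ a : I → ℝ,
        (∑ i, M (a i) ≤ 1 → ‖∑ i, a i • e i‖ ≤ 1) ∧
        (‖∑ i, a i • e i‖ ≤ 1 → ∑ i, M (a i / (1 + ε)) ≤ 1) := by
      intro I hI ε hε
      obtain ⟨e, he⟩ := hX (Fintype.card I) ε hε
      refine ⟨fun i => e (Fintype.equivFin I i), fun a => ?_⟩
      have h1 := he (fun j => a ((Fintype.equivFin I).symm j))
      have e1 : ∑ j, M (a ((Fintype.equivFin I).symm j)) = ∑ i, M (a i) :=
        Equiv.sum_comp (Fintype.equivFin I).symm (fun i => M (a i))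
      have e2 : ∑ j, M (a ((Fintype.equivFin I).symm j) / (1 + ε)) = ∑ i, M (a i / (1 + ε)) :=
        Equiv.sum_comp (Fintype.equivFin I).symm (fun i => M (a i / (1 + ε)))
      have e3 : ∑ j, a ((Fintype.equivFin I).symm j) • e j =
          ∑ i, a i • e (Fintype.equivFin I i) := by
        rw [← Equiv.sum_comp (Fintype.equivFin I)]
        simp
      rw [e1, e2, e3] at h1
      exact h1
    have hpos : ∀ x, x ≠ 0 → 0 < M x := by
      intro x1 hx1
      refine lt_of_le_of_ne (hM.nonneg _) fun h => ?_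
      refine hpoly ⟨0, |x1|, abs_pos.mpr hx1, fun x hx => ?_⟩
      have h2 : M x ≤ M x1 := hM.mono hx
      rw [Polynomial.eval_zero]
      exact le_antisymm (h2.trans h.symm.le) (hM.nonneg _)
    exact reduce (fun W _ m' v hv hne => orl_robust v hv hne hM hpos hpoly hX') A hA
  · have hX' : ∀ (I : Type) (_ : Fintype I) (w : I → ℝ), (∀ i, 0 < w i) → ∑ i, w i = 1 →
        ∃ e : I → X, ∀ a : I → ℝ, ‖∑ i, a i • e i‖ ≤ 1 ↔ ∑ i, w i * M (a i) ≤ 1 := by
      intro I hI w hw0 hw1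
      obtain ⟨e, he⟩ := hX (Fintype.card I) (fun j => w ((Fintype.equivFin I).symm j))
        (fun j => hw0 _) (by rw [Equiv.sum_comp (Fintype.equivFin I).symm w]; exact hw1)
      refine ⟨fun i => e (Fintype.equivFin I i), fun a => ?_⟩
      have h1 := he (fun j => a ((Fintype.equivFin I).symm j))
      have e1 : ∑ j, w ((Fintype.equivFin I).symm j) * M (a ((Fintype.equivFin I).symm j)) =
          ∑ i, w i * M (a i) :=
        Equiv.sum_comp (Fintype.equivFin I).symm (fun i => w i * M (a i))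
      have e3 : ∑ j, a ((Fintype.equivFin I).symm j) • e j =
          ∑ i, a i • e (Fintype.equivFin I i) := by
        rw [← Equiv.sum_comp (Fintype.equivFin I)]
        simp
      rw [e1, e3] at h1
      exact h1
    exact reduce (fun W _ m' v hv _ => orl_weighted v hv hM hM1 hX') A hA

end Pool.Agent.Lib.P23O
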