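import Pool.Agent.Lib.P23O.Geom

/-!
# P23O.Point: the pointwise bound

If a sum `G u = ∑ i, f i ⟪u, v i⟫` of even ridge functions (`v i` unit vectors, pairwise not
parallel) is nonnegative on the unit ball and `0 ≤ ∑ i, f i ≤ K` on `[-1, 1]`, then `G ≤ C * K` on
the unit ball, where `C` depends only on the vectors.
-/

set_option autoImplicit false

open Finset MeasureTheory Metric

open scoped ENNReal

namespace Pool.Agent.Lib.P23O

variable {E : Type*} [NormedAddCommGroup E] [InnerProductSpace ℝ E]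

lemma qq_inner_right (e x z : E) :
    inner ℝ x (qq e z) = inner ℝ x z - inner ℝ z e * inner ℝ x e := by
  unfold qq
  rw [inner_sub_right, real_inner_smul_right]

lemma exists_L {e v w : E} (he : ‖e‖ = 1) (hv : ‖v‖ = 1) (hw : ‖w‖ = 1)
    (hvw : |inner ℝ w v| < 1) :
    ∃ L : E →ₗ[ℝ] E, Function.Injective L ∧
      ∀ x, inner ℝ (rot e v (qq e (L x))) w = inner ℝ x e := by
  set q' := qq e ((rot e v).symm w) with hq'
  have hq0 : q' ≠ 0 := by
    intro h
    have h1 : (rot e v).symm w = (inner ℝ ((rot e v).symm w) e : ℝ) • e := by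
      have h0 : qq e ((rot e v).symm w) = 0 := h
      unfold qq at h0
      exact sub_eq_zero.mp h0
    have h2 : w = (inner ℝ ((rot e v).symm w) e : ℝ) • v := by
      have h0 := congrArg (rot e v) h1
      rw [LinearIsometryEquiv.apply_symm_apply, map_smul, rot_apply he hv] at h0
      exact h0
    have h3 : inner ℝ w v = inner ℝ ((rot e v).symm w) e := by
      have h0 := congrArg (fun z => inner ℝ z v) h2
      simp only [real_inner_smul_left, real_inner_self_eq_norm_sq, hv, one_pow, mul_one] at h0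
      exact h0
    rw [← h3] at h2
    have h4 : ‖w‖ = |inner ℝ w v| := by
      have h0 := congrArg norm h2
      rw [norm_smul, hv, Real.norm_eq_abs, mul_one] at h0
      exact h0
    linarith
  have hn0 : 0 < ‖q'‖ := norm_pos_iff.mpr hq0
  set w' := ‖q'‖⁻¹ • q' with hw'
  have hw'1 : ‖w'‖ = 1 := by rw [hw', norm_smul, norm_inv, norm_norm, inv_mul_cancel₀ hn0.ne']
  refine ⟨(‖q'‖⁻¹) • (rot e w').toLinearEquiv.toLinearMap, ?_, ?_⟩
  · intro x y hxy
    have h1 : ‖q'‖⁻¹ • rot e w' x = ‖q'‖⁻¹ • rot e w' y := hxy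
    exact (rot e w').injective (smul_right_injective _ (inv_ne_zero hn0.ne') h1)
  · intro x
    show inner ℝ (rot e v (qq e (‖q'‖⁻¹ • rot e w' x))) w = inner ℝ x e
    have h1 : inner ℝ (rot e v (qq e (‖q'‖⁻¹ • rot e w' x))) w =
        inner ℝ (qq e (‖q'‖⁻¹ • rot e w' x)) ((rot e v).symm w) := by
      have h0 := (rot e v).inner_map_map (qq e (‖q'‖⁻¹ • rot e w' x)) ((rot e v).symm w)
      rw [LinearIsometryEquiv.apply_symm_apply] at h0
      exact h0
    have h2 : inner ℝ (qq e (‖q'‖⁻¹ • rot e w' x)) ((rot e v).symm w) =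
        inner ℝ (‖q'‖⁻¹ • rot e w' x) q' := by
      rw [qq_inner, show inner ℝ (‖q'‖⁻¹ • rot e w' x) q' = inner ℝ (‖q'‖⁻¹ • rot e w' x)
        (qq e ((rot e v).symm w)) from rfl, qq_inner_right,
        real_inner_comm ((rot e v).symm w) e]
      ring
    rw [h1, h2, real_inner_smul_left]
    have h3 : ‖q'‖⁻¹ * inner ℝ (rot e w' x) q' = inner ℝ (rot e w' x) w' := by
      rw [hw', real_inner_smul_right]
    rw [h3]
    have h4 := (rot e w').inner_map_map x e
    rw [rot_apply he hw'1] at h4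
    exact h4

lemma qq_add (e x y : E) : qq e (x + y) = qq e x + qq e y := by
  unfold qq
  rw [inner_add_left, add_smul]
  abel

lemma qq_self {e : E} (he : ‖e‖ = 1) (a : ℝ) : qq e (a • e) = 0 := by
  unfold qq
  rw [real_inner_smul_left, real_inner_self_eq_norm_sq, he]
  simp

variable [FiniteDimensional ℝ E] [MeasurableSpace E] [BorelSpace E]

omit [FiniteDimensional ℝ E] in
lemma measurable_G {m' : ℕ} {X : Type*} [MeasurableSpace X] (v : Fin (m' + 1) → E)
    (f : Fin (m' + 1) → ℝ → ℝ) (hc : ∀ i, Continuous (f i)) (g : X → E) (hg : Measurable g) :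
    Measurable fun x => ENNReal.ofReal (Gs v f (g x)) :=
  (ENNReal.continuous_ofReal.comp (Gs_cont v f hc)).measurable.comp hg

/-- Averages of `G` over small discs around inner points. -/
theorem slice_point {m' : ℕ} (v : Fin (m' + 1) → E) (hv : ∀ i, ‖v i‖ = 1)
    (hne : ∀ i j, i ≠ j → |inner ℝ (v i) (v j)| < 1) (δ : ℝ) (hδ : 0 < δ) (hδ1 : δ < 1) :
    ∃ (P : Fin (m' + 1) → Fin m' → E →ₗ[ℝ] E) (r : ℝ) (C : ℝ), 0 < r ∧ 0 ≤ C ∧
      (∀ i l x, inner ℝ (P i l x) (v (i.succAbove l)) = 0) ∧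
      (∀ i l x, inner ℝ (P i l x) (v i) = inner ℝ x (v 0)) ∧
      (∀ i l x, ‖x‖ ≤ r → ‖P i l x‖ ≤ δ / (2 * (m' + 1))) ∧
      ∀ (f : Fin (m' + 1) → ℝ → ℝ) (K : ℝ), (∀ i, Continuous (f i)) →
      (∀ x : ℝ, |x| ≤ 1 → 0 ≤ ∑ i, f i x ∧ ∑ i, f i x ≤ K) →
      (∀ u : E, ‖u‖ ≤ 1 → 0 ≤ Gs v f u) → ∀ i l (z : E), ‖z‖ ≤ 1 - δ / 2 →
        ∫⁻ x in closedBall (0 : E) r, ENNReal.ofReal (Gs v f (z + P i l x)) ≤
          ENNReal.ofReal (C * K) := by
  classical
  have hex : ∀ (i : Fin (m' + 1)) (l : Fin m'), ∃ L : E →ₗ[ℝ] E, Function.Injective L ∧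
      ∀ x, inner ℝ (rot (v 0) (v (i.succAbove l)) (qq (v 0) (L x))) (v i) = inner ℝ x (v 0) :=
    fun i l => exists_L (hv 0) (hv _) (hv i) (hne _ _ (Fin.succAbove_ne i l).symm)
  choose L hLinj hLin using hex
  obtain ⟨κ, hκ0, hκ⟩ : ∃ κ : ℝ, 0 ≤ κ ∧ ∀ i l, ‖ww v i l‖ ≤ κ := by
    refine ⟨∑ i, ∑ l, ‖ww v i l‖, by positivity, fun i l => ?_⟩
    calc ‖ww v i l‖ ≤ ∑ l, ‖ww v i l‖ :=
          Finset.single_le_sum (f := fun l => ‖ww v i l‖) (fun _ _ => norm_nonneg _)
            (Finset.mem_univ l)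
      _ ≤ ∑ i, ∑ l, ‖ww v i l‖ :=
          Finset.single_le_sum (f := fun i => ∑ l, ‖ww v i l‖)
            (fun _ _ => Finset.sum_nonneg fun _ _ => norm_nonneg _) (Finset.mem_univ i)
  obtain ⟨Λ, hΛ0, hΛ⟩ : ∃ Λ : ℝ, 0 ≤ Λ ∧ ∀ i l x, ‖L i l x‖ ≤ Λ * ‖x‖ := by
    refine ⟨∑ i, ∑ l, ‖(L i l).toContinuousLinearMap‖, by positivity, fun i l x => ?_⟩
    have h1 : ‖L i l x‖ ≤ ‖(L i l).toContinuousLinearMap‖ * ‖x‖ :=
      (L i l).toContinuousLinearMap.le_opNorm x
    refine h1.trans (mul_le_mul_of_nonneg_right ?_ (norm_nonneg _))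
    calc ‖(L i l).toContinuousLinearMap‖ ≤ ∑ l, ‖(L i l).toContinuousLinearMap‖ :=
          Finset.single_le_sum (f := fun l => ‖(L i l).toContinuousLinearMap‖)
            (fun _ _ => norm_nonneg _) (Finset.mem_univ l)
      _ ≤ ∑ i, ∑ l, ‖(L i l).toContinuousLinearMap‖ :=
          Finset.single_le_sum (f := fun i => ∑ l, ‖(L i l).toContinuousLinearMap‖)
            (fun _ _ => Finset.sum_nonneg fun _ _ => norm_nonneg _) (Finset.mem_univ i)
  obtain ⟨C1, hC10, hC1⟩ := slice v hv hne κ hκ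
  obtain ⟨D, hD0, hD⟩ : ∃ D : ℝ, 0 ≤ D ∧ ∀ i l, |(LinearMap.det (L i l))⁻¹| ≤ D := by
    refine ⟨∑ i, ∑ l, |(LinearMap.det (L i l))⁻¹|, by positivity, fun i l => ?_⟩
    calc |(LinearMap.det (L i l))⁻¹| ≤ ∑ l, |(LinearMap.det (L i l))⁻¹| :=
          Finset.single_le_sum (f := fun l => |(LinearMap.det (L i l))⁻¹|)
            (fun _ _ => abs_nonneg _) (Finset.mem_univ l)
      _ ≤ ∑ i, ∑ l, |(LinearMap.det (L i l))⁻¹| :=
          Finset.single_le_sum (f := fun i => ∑ l, |(LinearMap.det (L i l))⁻¹|)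
            (fun _ _ => Finset.sum_nonneg fun _ _ => abs_nonneg _) (Finset.mem_univ i)
  -- the parameters
  have hm0 : (0 : ℝ) ≤ m' := Nat.cast_nonneg _
  set τ := min 1 (δ / (4 * (m' * κ + 1))) with hτ
  have hmκ : 0 ≤ m' * κ := mul_nonneg hm0 hκ0
  have hτ0 : 0 < τ := by rw [hτ]; exact lt_min one_pos (by positivity)
  have hτ1 : τ ≤ 1 := min_le_left _ _
  have hτ2 : m' * (τ * κ) ≤ δ / 4 := by
    have h1 : τ ≤ δ / (4 * (m' * κ + 1)) := min_le_right _ _
    rw [le_div_iff₀ (by positivity)] at h1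
    nlinarith
  set a := min (τ / 2) (δ / (4 * (m' + 1))) with ha
  have ha0 : 0 < a := by rw [ha]; exact lt_min (by positivity) (by positivity)
  have ha1 : a ≤ τ / 2 := min_le_left _ _
  have ha2 : a ≤ δ / (4 * (m' + 1)) := min_le_right _ _
  have ha3 : a ≤ δ / 4 := by
    refine ha2.trans ?_
    rw [div_le_div_iff₀ (by positivity) (by norm_num)]
    nlinarith
  set r := a / (Λ + 1) with hr
  have hr0 : 0 < r := by rw [hr]; positivity
  have hΛr : Λ * r ≤ a := by
    rw [hr, mul_div_assoc', div_le_iff₀ (by positivity)]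
    nlinarith
  have hLr : ∀ i l x, ‖x‖ ≤ r → ‖L i l x‖ ≤ a := fun i l x hx =>
    (hΛ i l x).trans ((mul_le_mul_of_nonneg_left hx hΛ0).trans hΛr)
  refine ⟨fun i l => (rot (v 0) (v (i.succAbove l))).toLinearEquiv.toLinearMap ∘ₗ
      (LinearMap.id - (innerₛₗ ℝ (v 0)).smulRight (v 0)) ∘ₗ L i l, r, D * C1, hr0, by positivity,
      ?_, ?_, ?_, ?_⟩
  all_goals
    have hP : ∀ (i : Fin (m' + 1)) (l : Fin m') (x : E),
      ((rot (v 0) (v (i.succAbove l))).toLinearEquiv.toLinearMap ∘ₗ
      (LinearMap.id - (innerₛₗ ℝ (v 0)).smulRight (v 0)) ∘ₗ L i l) x =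
      rot (v 0) (v (i.succAbove l)) (qq (v 0) (L i l x)) := by
      intro i l x
      unfold qq
      simp only [LinearMap.comp_apply, LinearMap.sub_apply, LinearMap.id_apply,
        LinearMap.smulRight_apply, innerₛₗ_apply_apply]
      rw [real_inner_comm (L i l x) (v 0)]
      rfl
  · intro i l x
    rw [hP, inner_rot_qq (hv 0) (hv _)]
  · intro i l x
    rw [hP, hLin]
  · intro i l x hx
    rw [hP, LinearIsometryEquiv.norm_map]
    refine (norm_qq_le (hv 0) _).trans ((hLr i l x hx).trans (ha2.trans ?_))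
    rw [div_le_div_iff₀ (by positivity) (by positivity)]
    nlinarith
  · intro f K hc hf hG i l z hz
    set w := v (i.succAbove l) with hw
    have hw1 : ‖w‖ = 1 := hv _
    set s' := inner ℝ z w with hs'
    set z'' := (rot (v 0) w).symm (qq w z) with hz''
    have hz1 : inner ℝ z'' (v 0) = 0 := by
      have h1 := (rot (v 0) w).inner_map_map z'' (v 0)
      rw [hz'', LinearIsometryEquiv.apply_symm_apply, rot_apply (hv 0) hw1, inner_qq hw1] at h1
      rw [hz'']; exact h1.symm
    have hz2 : qq (v 0) z'' = z'' := by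
      unfold qq
      rw [hz1, zero_smul, sub_zero]
    have hz3 : ‖z''‖ ^ 2 = ‖z‖ ^ 2 - s' ^ 2 := by
      rw [hz'', LinearIsometryEquiv.norm_map, norm_qq_sq hw1]
    have hz4 : ‖z''‖ ≤ ‖z‖ := by
      rw [hz'', LinearIsometryEquiv.norm_map]; exact norm_qq_le hw1 _
    have hkey : ∀ x : E, z + rot (v 0) w (qq (v 0) (L i l x)) =
        s' • w + rot (v 0) w (qq (v 0) (L i l x + (z'' + (τ / 2) • v 0))) := by
      intro x
      rw [qq_add, qq_add, hz2, qq_self (hv 0), add_zero, map_add, hz'',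
        LinearIsometryEquiv.apply_symm_apply]
      have : z = s' • w + qq w z := by unfold qq; rw [hs']; abel
      conv_lhs => rw [this]
      abel
    have hmeas : Measurable fun x : E =>
        ENNReal.ofReal (Gs v f (s' • w + rot (v 0) w (qq (v 0) x))) := by
      refine measurable_G v f hc _ ?_
      exact (continuous_const.add ((rot (v 0) w).continuous.comp (qq_cont (v 0)))).measurable
    calc ∫⁻ x in closedBall (0 : E) r, ENNReal.ofReal (Gs v f (z +
          ((rot (v 0) w).toLinearEquiv.toLinearMap ∘ₗ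
            (LinearMap.id - (innerₛₗ ℝ (v 0)).smulRight (v 0)) ∘ₗ L i l) x)) =
        ∫⁻ x in closedBall (0 : E) r, ENNReal.ofReal (Gs v f (s' • w + rot (v 0) w
          (qq (v 0) (L i l x + (z'' + (τ / 2) • v 0))))) := by
          refine lintegral_congr fun x => ?_
          rw [hP, hkey]
      _ ≤ ENNReal.ofReal |(LinearMap.det (L i l))⁻¹| * ∫⁻ x in Box (v 0) (‖z''‖ + a) τ,
          ENNReal.ofReal (Gs v f (s' • w + rot (v 0) w (qq (v 0) x))) := by
          refine lin_bound' _ hmeas (L i l) (hLinj i l) _ _ _ measurableSet_closedBall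
            (box_meas _ _ _) ?_
          intro x hx
          have hx1 : ‖x‖ ≤ r := by simpa using hx
          have h1 := hLr i l x hx1
          have h2 : |inner ℝ (L i l x) (v 0)| ≤ a := by
            have := abs_real_inner_le_norm (L i l x) (v 0)
            rw [hv 0, mul_one] at this
            exact this.trans h1
          rw [abs_le] at h2
          have h3 : inner ℝ (L i l x + (z'' + (τ / 2) • v 0)) (v 0) =
              inner ℝ (L i l x) (v 0) + τ / 2 := by
            rw [inner_add_left, inner_add_left, hz1, real_inner_smul_left,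
              real_inner_self_eq_norm_sq, hv 0]
            ring
          refine ⟨?_, ?_, ?_⟩
          · rw [qq_add, qq_add, hz2, qq_self (hv 0), add_zero, add_comm ‖z''‖]
            exact (norm_add_le _ _).trans (add_le_add ((norm_qq_le (hv 0) _).trans h1) le_rfl)
          · rw [h3]; linarith [h2.1]
          · rw [h3]; linarith [h2.2]
      _ ≤ ENNReal.ofReal D * ENNReal.ofReal (C1 * K) := by
          refine mul_le_mul (ENNReal.ofReal_le_ofReal (hD i l)) ?_ zero_le zero_le
          refine hC1 f K hc hf hG (i.succAbove l) s' (‖z''‖ + a) τ (by positivity) hτ0.le hτ1 ?_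
          have h1 : Real.sqrt (s' ^ 2 + (‖z''‖ + a) ^ 2) ≤ ‖z‖ + a := by
            refine Real.sqrt_le_iff.mpr ⟨by positivity, ?_⟩
            nlinarith
          linarith
      _ = ENNReal.ofReal (D * C1 * K) := by
          rw [← ENNReal.ofReal_mul hD0]
          congr 1
          ring

omit [BorelSpace E] in
/-- Fubini with one bounded inner integral. -/
lemma pi_bound {k : ℕ} (ν : Measure E) [IsProbabilityMeasure ν] (F : (Fin k → E) → ℝ≥0∞)
    (hF : Measurable F) (l0 : Fin k) (B : ℝ≥0∞)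
    (hB : ∀ x, ∫⁻ u, F (Function.update x l0 u) ∂ν ≤ B) :
    ∫⁻ x, F x ∂(Measure.pi fun _ : Fin k => ν) ≤ B := by
  classical
  rw [lintegral_eq_lmarginal_univ (0 : Fin k → E), lmarginal_erase' F hF (Finset.mem_univ l0)]
  calc (∫⋯∫⁻_(univ.erase l0), (fun x => ∫⁻ u, F (Function.update x l0 u) ∂ν) ∂fun _ => ν) 0 ≤
      (∫⋯∫⁻_(univ.erase l0), (fun _ => B) ∂fun _ => ν) 0 := lmarginal_mono (fun x => hB x) 0
    _ = B := by simp [lmarginal]

/-- **The pointwise bound.** -/
theorem point_bound {m' : ℕ} (v : Fin (m' + 1) → E) (hv : ∀ i, ‖v i‖ = 1)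
    (hne : ∀ i j, i ≠ j → |inner ℝ (v i) (v j)| < 1) :
    ∃ C : ℝ, 0 ≤ C ∧ ∀ (f : Fin (m' + 1) → ℝ → ℝ) (K : ℝ), (∀ i, Continuous (f i)) →
      (∀ i x, f i (-x) = f i x) →
      (∀ x : ℝ, |x| ≤ 1 → 0 ≤ ∑ i, f i x ∧ ∑ i, f i x ≤ K) →
      (∀ u : E, ‖u‖ ≤ 1 → 0 ≤ Gs v f u) → ∀ y : E, ‖y‖ ≤ 1 → Gs v f y ≤ C * K := by
  classical
  obtain ⟨τ, δ, hτ0, hδ0, hδ1, hconf⟩ := config v hv hne
  obtain ⟨P, r, C1, hr0, hC10, hP1, hP2, hP3, hP4⟩ := slice_point v hv hne δ hδ0 hδ1
  set V := volume (closedBall (0 : E) r) with hV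
  have hV0 : V ≠ 0 := (measure_closedBall_pos volume (0 : E) hr0).ne'
  have hVt : V ≠ ∞ := measure_closedBall_lt_top.ne
  have hVr : 0 < V.toReal := ENNReal.toReal_pos hV0 hVt
  set ν : Measure E := V⁻¹ • volume.restrict (closedBall (0 : E) r) with hν
  have : IsProbabilityMeasure ν := by
    refine ⟨?_⟩
    rw [hν, Measure.smul_apply, Measure.restrict_apply_univ, smul_eq_mul]
    exact ENNReal.inv_mul_cancel hV0 hVt
  -- the clamp
  set π : E → E := fun x => if ‖x‖ ≤ r then x else 0 with hπ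
  have hπm : Measurable π :=
    Measurable.ite (measurableSet_le measurable_norm measurable_const) measurable_id
      measurable_const
  have hπr : ∀ x, ‖π x‖ ≤ r := by
    intro x
    rw [hπ]
    by_cases h : ‖x‖ ≤ r
    · simp only [if_pos h]; exact h
    · simp only [if_neg h, norm_zero]; exact hr0.le
  have hm0 : (0 : ℝ) ≤ m' := Nat.cast_nonneg _
  refine ⟨2 ^ m' + (m' + 1) * (2 ^ m' * (C1 / V.toReal)), by positivity, ?_⟩
  intro f K hc hev hf hG
  have hK : 0 ≤ K := (hf 0 (by simp)).1.trans (hf 0 (by simp)).2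
  -- it suffices to treat points with a maximal nonnegative coordinate
  suffices H : ∀ y : E, ‖y‖ ≤ 1 → ∀ i0 : Fin (m' + 1),
      (∀ i, |inner ℝ y (v i)| ≤ inner ℝ y (v i0)) →
      Gs v f y ≤ (2 ^ m' + (m' + 1) * (2 ^ m' * (C1 / V.toReal))) * K by
    intro y hy
    obtain ⟨i0, -, hi0⟩ := Finset.exists_max_image (univ : Finset (Fin (m' + 1)))
      (fun i => |inner ℝ y (v i)|) ⟨0, Finset.mem_univ _⟩
    rcases le_total 0 (inner ℝ y (v i0)) with h | h
    · refine H y hy i0 fun i => ?_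
      have := hi0 i (Finset.mem_univ _)
      rwa [abs_of_nonneg h] at this
    · have h1 : Gs v f (-y) = Gs v f y := by
        unfold Gs
        refine Finset.sum_congr rfl fun i _ => ?_
        rw [inner_neg_left, hev]
      rw [← h1]
      refine H (-y) (by rwa [norm_neg]) i0 fun i => ?_
      have := hi0 i (Finset.mem_univ _)
      rw [abs_of_nonpos h] at this
      rw [inner_neg_left, inner_neg_left, abs_neg]
      exact this
  intro y hy i0 hi0
  obtain ⟨Y, d, hY0, hY1, hY2, hd1, hd2, hd3⟩ := hconf y hy i0 hi0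
  set s := inner ℝ y (v i0) with hs
  -- norms of the sums
  have hsum : ∀ i, ∀ t : Finset (Fin m'), ∀ x : Fin m' → E,
      ‖∑ l ∈ t, P i l (π (x l))‖ ≤ δ / 2 := by
    intro i t x
    calc ‖∑ l ∈ t, P i l (π (x l))‖ ≤ ∑ l ∈ t, ‖P i l (π (x l))‖ := norm_sum_le _ _
      _ ≤ ∑ l ∈ t, δ / (2 * (m' + 1)) := Finset.sum_le_sum fun l _ => hP3 i l _ (hπr _)
      _ = t.card * (δ / (2 * (m' + 1))) := by rw [Finset.sum_const, nsmul_eq_mul]
      _ ≤ m' * (δ / (2 * (m' + 1))) := by
          refine mul_le_mul_of_nonneg_right ?_ (by positivity)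
          have := Finset.card_le_univ t
          rw [Fintype.card_fin] at this
          exact_mod_cast this
      _ ≤ δ / 2 := by
          rw [mul_div_assoc', div_le_div_iff₀ (by positivity) (by norm_num)]
          nlinarith
  have hb : ∀ x : Fin m' → E, ∀ i, ∀ t : Finset (Fin m'),
      ‖Y i + ∑ l ∈ t, (τ • d i l + P i l (π (x l)))‖ ≤ 1 := by
    intro x i t
    rcases t.eq_empty_or_nonempty with h | h
    · subst h; simpa using hY2 i
    · rw [Finset.sum_add_distrib, ← add_assoc]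
      have h1 := hd3 i t h
      have h2 := hsum i t x
      have h3 := norm_add_le (Y i + ∑ l ∈ t, τ • d i l) (∑ l ∈ t, P i l (π (x l)))
      linarith
  have hpt : ∀ x : Fin m' → E, Gs v f y ≤ 2 ^ m' * K +
      ∑ i, ∑ t ∈ (univ : Finset (Finset (Fin m'))).erase ∅,
        Gs v f (Y i + ∑ l ∈ t, (τ • d i l + P i l (π (x l)))) := by
    intro x
    have hin : ∀ i l, inner ℝ (τ • d i l + P i l (π (x l))) (v i) = -τ + inner ℝ (π (x l)) (v 0) := by
      intro i l
      rw [inner_add_left, real_inner_smul_left, hd2, hP2]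
      ring
    have h1 := point_ineq v f K s hf hG Y (fun i l => τ • d i l + P i l (π (x l)))
      (fun l => -τ + inner ℝ (π (x l)) (v 0))
      (fun i l => by rw [inner_add_left, real_inner_smul_left, hd1, hP1]; ring)
      hin hY1 (hb x)
      (fun t => by
        have h2 := abs_real_inner_le_norm
          (Y 0 + ∑ l ∈ t, (τ • d 0 l + P 0 l (π (x l)))) (v 0)
        rw [hv 0, mul_one] at h2
        have h3 := h2.trans (hb x 0 t)
        rw [inner_add_left, hY1 0, sum_inner] at h3
        simp only [hin] at h3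
        exact h3) i0
    rw [hY0] at h1
    exact h1
  -- measurability
  have hmeas : ∀ i, ∀ t : Finset (Fin m'), Measurable fun x : Fin m' → E =>
      ENNReal.ofReal (Gs v f (Y i + ∑ l ∈ t, (τ • d i l + P i l (π (x l))))) := by
    intro i t
    refine measurable_G v f hc _ ?_
    refine measurable_const.add (Finset.measurable_sum _ fun l _ => measurable_const.add ?_)
    exact (LinearMap.continuous_of_finiteDimensional (P i l)).measurable.comp
      (hπm.comp (measurable_pi_apply l))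
  -- the integral of each term
  have hterm : ∀ i, ∀ t ∈ (univ : Finset (Finset (Fin m'))).erase ∅,
      ∫⁻ x, ENNReal.ofReal (Gs v f (Y i + ∑ l ∈ t, (τ • d i l + P i l (π (x l)))))
        ∂(Measure.pi fun _ : Fin m' => ν) ≤ ENNReal.ofReal (C1 / V.toReal * K) := by
    intro i t ht
    have htne : t.Nonempty := Finset.nonempty_iff_ne_empty.mpr (Finset.mem_erase.mp ht).1
    obtain ⟨l0, hl0⟩ := htne
    refine pi_bound ν _ (hmeas i t) l0 _ fun x => ?_
    set z := Y i + ∑ l ∈ t, τ • d i l + ∑ l ∈ t.erase l0, P i l (π (x l)) with hz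
    have hz1 : ‖z‖ ≤ 1 - δ / 2 := by
      have h1 := hd3 i t ⟨l0, hl0⟩
      have h2 := hsum i (t.erase l0) x
      have h3 := norm_add_le (Y i + ∑ l ∈ t, τ • d i l) (∑ l ∈ t.erase l0, P i l (π (x l)))
      rw [← hz] at h3
      linarith
    have hupd : ∀ u : E, Y i + ∑ l ∈ t, (τ • d i l + P i l (π (Function.update x l0 u l))) =
        z + P i l0 (π u) := by
      intro u
      have h1 : ∑ l ∈ t, P i l (π (Function.update x l0 u l)) =
          P i l0 (π u) + ∑ l ∈ t.erase l0, P i l (π (x l)) := by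
        rw [← Finset.add_sum_erase _ _ hl0, Function.update_self]
        congr 1
        refine Finset.sum_congr rfl fun l hl => ?_
        rw [Function.update_of_ne (Finset.ne_of_mem_erase hl)]
      rw [Finset.sum_add_distrib, h1, hz]
      abel
    simp only [hupd]
    rw [hν, lintegral_smul_measure, smul_eq_mul]
    have h2 : ∫⁻ u in closedBall (0 : E) r, ENNReal.ofReal (Gs v f (z + P i l0 (π u))) =
        ∫⁻ u in closedBall (0 : E) r, ENNReal.ofReal (Gs v f (z + P i l0 u)) := by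
      refine setLIntegral_congr_fun measurableSet_closedBall fun u hu => ?_
      have hu1 : ‖u‖ ≤ r := by simpa using hu
      have : π u = u := by rw [hπ]; exact if_pos hu1
      show ENNReal.ofReal _ = ENNReal.ofReal _
      rw [this]
    rw [h2]
    calc V⁻¹ * ∫⁻ u in closedBall (0 : E) r, ENNReal.ofReal (Gs v f (z + P i l0 u)) ≤
        V⁻¹ * ENNReal.ofReal (C1 * K) :=
          mul_le_mul le_rfl (hP4 f K hc hf hG i l0 z hz1) zero_le zero_le
      _ = ENNReal.ofReal (C1 / V.toReal * K) := by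
          have h3 : V⁻¹ = ENNReal.ofReal (V.toReal)⁻¹ := by
            rw [ENNReal.ofReal_inv_of_pos hVr, ENNReal.ofReal_toReal hVt]
          rw [h3, ← ENNReal.ofReal_mul (by positivity)]
          congr 1
          field_simp
  -- integrate the pointwise inequality
  have hfin : ENNReal.ofReal (Gs v f y) ≤
      ENNReal.ofReal ((2 ^ m' + (m' + 1) * (2 ^ m' * (C1 / V.toReal))) * K) := by
    calc ENNReal.ofReal (Gs v f y) =
        ∫⁻ _, ENNReal.ofReal (Gs v f y) ∂(Measure.pi fun _ : Fin m' => ν) := by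
          rw [lintegral_const, measure_univ, mul_one]
      _ ≤ ∫⁻ x, (ENNReal.ofReal (2 ^ m' * K) +
          ∑ i, ∑ t ∈ (univ : Finset (Finset (Fin m'))).erase ∅,
            ENNReal.ofReal (Gs v f (Y i + ∑ l ∈ t, (τ • d i l + P i l (π (x l))))))
              ∂(Measure.pi fun _ : Fin m' => ν) := by
          refine lintegral_mono fun x => ?_
          refine (ENNReal.ofReal_le_ofReal (hpt x)).trans ?_
          refine ENNReal.ofReal_add_le.trans (add_le_add le_rfl ?_)
          refine (ofReal_sum_le' _ _).trans (Finset.sum_le_sum fun i _ => ?_)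
          exact ofReal_sum_le' _ _
      _ = ENNReal.ofReal (2 ^ m' * K) +
          ∑ i, ∑ t ∈ (univ : Finset (Finset (Fin m'))).erase ∅,
            ∫⁻ x, ENNReal.ofReal (Gs v f (Y i + ∑ l ∈ t, (τ • d i l + P i l (π (x l)))))
              ∂(Measure.pi fun _ : Fin m' => ν) := by
          rw [lintegral_add_left measurable_const, lintegral_const, measure_univ, mul_one,
            lintegral_finsetSum _ fun i _ => Finset.measurable_sum _ fun t _ => hmeas i t]
          congr 1
          refine Finset.sum_congr rfl fun i _ => ?_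
          rw [lintegral_finsetSum _ fun t _ => hmeas i t]
      _ ≤ ENNReal.ofReal (2 ^ m' * K) +
          ∑ i : Fin (m' + 1), ∑ t ∈ (univ : Finset (Finset (Fin m'))).erase ∅,
            ENNReal.ofReal (C1 / V.toReal * K) :=
          add_le_add le_rfl (Finset.sum_le_sum fun i _ => Finset.sum_le_sum fun t ht =>
            hterm i t ht)
      _ ≤ ENNReal.ofReal (2 ^ m' * K) +
          ∑ i : Fin (m' + 1), ∑ t : Finset (Fin m'), ENNReal.ofReal (C1 / V.toReal * K) :=
          add_le_add le_rfl (Finset.sum_le_sum fun i _ =>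
            Finset.sum_le_sum_of_subset (Finset.erase_subset _ _))
      _ = ENNReal.ofReal ((2 ^ m' + (m' + 1) * (2 ^ m' * (C1 / V.toReal))) * K) := by
          have hB : 0 ≤ C1 / V.toReal * K := by positivity
          simp only [Finset.sum_const, Finset.card_univ, Fintype.card_finset, Fintype.card_fin,
            nsmul_eq_mul]
          rw [show ((2 ^ m' : ℕ) : ℝ≥0∞) = ENNReal.ofReal (2 ^ m') by
              rw [ENNReal.ofReal_pow (by norm_num)]; norm_num,
            show ((m' + 1 : ℕ) : ℝ≥0∞) = ENNReal.ofReal (m' + 1) by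
              rw [ENNReal.ofReal_add hm0 (by norm_num), ENNReal.ofReal_natCast]; norm_num,
            ← ENNReal.ofReal_mul (by positivity), ← ENNReal.ofReal_mul (by positivity),
            ← ENNReal.ofReal_add (by positivity) (by positivity)]
          congr 1
          ring
  exact (ENNReal.ofReal_le_ofReal_iff (by positivity)).mp hfin

end Pool.Agent.Lib.P23O
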