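import Pool.Agent.Lib.P23O.Alt

/-!
# P23O.Slice: averages over slices

If a sum `G` of ridge functions is nonnegative on the unit ball and the sum of the functions lies
in `[0, K]`, then the integral of `G` over the unit ball is at most `K` times the volume, and the
averages of `G` over discs orthogonal to one of the directions are at most a constant times `K`.
-/

set_option autoImplicit false

open Finset MeasureTheory Metric

open scoped ENNReal

namespace Pool.Agent.Lib.P23O

variable {E : Type*} [NormedAddCommGroup E] [InnerProductSpace ℝ E] [FiniteDimensional ℝ E]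
  [MeasurableSpace E] [BorelSpace E]

/-- A linear isometry which maps `e` to `v` (for unit vectors). -/
noncomputable def rot (e v : E) : E ≃ₗᵢ[ℝ] E := (ℝ ∙ (e - v))ᗮ.reflection

omit [FiniteDimensional ℝ E] [MeasurableSpace E] [BorelSpace E] in
lemma rot_apply {e v : E} (he : ‖e‖ = 1) (hv : ‖v‖ = 1) : rot e v e = v :=
  Submodule.reflection_sub (by rw [he, hv])

/-- The component orthogonal to `e`. -/
noncomputable def qq (e x : E) : E := x - (inner ℝ x e) • e

omit [FiniteDimensional ℝ E] [MeasurableSpace E] [BorelSpace E] in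
lemma inner_qq {e : E} (he : ‖e‖ = 1) (x : E) : inner ℝ (qq e x) e = 0 := by
  unfold qq
  rw [inner_sub_left, real_inner_smul_left, real_inner_self_eq_norm_sq, he]
  ring

omit [FiniteDimensional ℝ E] [MeasurableSpace E] [BorelSpace E] in
lemma inner_rot_qq {e v : E} (he : ‖e‖ = 1) (hv : ‖v‖ = 1) (x : E) :
    inner ℝ (rot e v (qq e x)) v = 0 := by
  have h1 := (rot e v).inner_map_map (qq e x) e
  rw [rot_apply he hv, inner_qq he x] at h1
  exact h1

/-- Subadditivity of `ENNReal.ofReal` for finite sums. -/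
lemma ofReal_sum_le' {ι : Type*} (s : Finset ι) (f : ι → ℝ) :
    ENNReal.ofReal (∑ i ∈ s, f i) ≤ ∑ i ∈ s, ENNReal.ofReal (f i) := by
  classical
  induction s using Finset.induction_on with
  | empty => simp
  | insert a s ha ih =>
    rw [Finset.sum_insert ha, Finset.sum_insert ha]
    exact ENNReal.ofReal_add_le.trans (add_le_add le_rfl ih)

omit [FiniteDimensional ℝ E] [MeasurableSpace E] [BorelSpace E] in
lemma Gs_cont {m : ℕ} (v : Fin m → E) (f : Fin m → ℝ → ℝ) (hf : ∀ i, Continuous (f i)) :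
    Continuous (Gs v f) := by
  unfold Gs
  refine continuous_finsetSum _ fun i _ => ?_
  exact (hf i).comp (continuous_id.inner continuous_const)

/-- Rotation invariance. -/
lemma int_rot {e v : E} (he : ‖e‖ = 1) (hv : ‖v‖ = 1) (g : ℝ → ℝ) :
    ∫ u in closedBall (0 : E) 1, g (inner ℝ u v) = ∫ u in closedBall (0 : E) 1, g (inner ℝ u e) := by
  have h1 := (rot e v).measurePreserving.setIntegral_preimage_emb
    (rot e v).toHomeomorph.measurableEmbedding (fun u => g (inner ℝ u v)) (closedBall (0 : E) 1)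
  have h2 : (rot e v) ⁻¹' closedBall (0 : E) 1 = closedBall (0 : E) 1 := by
    rw [LinearIsometryEquiv.preimage_closedBall, map_zero]
  rw [h2] at h1
  rw [← h1]
  refine setIntegral_congr_fun measurableSet_closedBall fun u _ => ?_
  show g (inner ℝ (rot e v u) v) = g (inner ℝ u e)
  have h3 := (rot e v).inner_map_map u e
  rw [rot_apply he hv] at h3
  rw [h3]

/-- The total integral. -/
lemma total {m' : ℕ} (v : Fin (m' + 1) → E) (hv : ∀ i, ‖v i‖ = 1) (f : Fin (m' + 1) → ℝ → ℝ) (K : ℝ)
    (hc : ∀ i, Continuous (f i))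
    (hf : ∀ x : ℝ, |x| ≤ 1 → 0 ≤ ∑ i, f i x ∧ ∑ i, f i x ≤ K)
    (hG : ∀ u : E, ‖u‖ ≤ 1 → 0 ≤ Gs v f u) :
    ∫⁻ u in closedBall (0 : E) 1, ENNReal.ofReal (Gs v f u) ≤
      ENNReal.ofReal (K * volume.real (closedBall (0 : E) 1)) := by
  have hcomp : IsCompact (closedBall (0 : E) 1) := isCompact_closedBall _ _
  have hint : IntegrableOn (Gs v f) (closedBall (0 : E) 1) :=
    (Gs_cont v f hc).continuousOn.integrableOn_compact hcomp
  rw [← ofReal_integral_eq_lintegral_ofReal hint
    (ae_restrict_of_forall_mem measurableSet_closedBall fun u hu => hG u (by simpa using hu))]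
  refine ENNReal.ofReal_le_ofReal ?_
  have hint2 : ∀ i w, IntegrableOn (fun u : E => f i (inner ℝ u w)) (closedBall (0 : E) 1) := by
    intro i w
    exact ((hc i).comp (continuous_id.inner continuous_const)).continuousOn.integrableOn_compact hcomp
  have h1 : ∫ u in closedBall (0 : E) 1, Gs v f u =
      ∫ u in closedBall (0 : E) 1, ∑ i, f i (inner ℝ u (v 0)) := by
    unfold Gs
    rw [integral_finsetSum _ fun i _ => hint2 i (v i), integral_finsetSum _ fun i _ => hint2 i (v 0)]
    refine Finset.sum_congr rfl fun i _ => ?_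
    exact int_rot (hv 0) (hv i) (f i)
  rw [h1]
  calc ∫ u in closedBall (0 : E) 1, ∑ i, f i (inner ℝ u (v 0)) ≤
      ∫ u in closedBall (0 : E) 1, K := by
        refine setIntegral_mono_on (integrable_finsetSum _ fun i _ => hint2 i (v 0))
          (integrableOn_const (hcomp.measure_lt_top.ne)) measurableSet_closedBall fun u hu => ?_
        refine (hf _ ?_).2
        have h2 := abs_real_inner_le_norm u (v 0)
        rw [hv 0, mul_one] at h2
        exact h2.trans (by simpa using hu)
    _ = K * volume.real (closedBall (0 : E) 1) := by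
        rw [setIntegral_const, smul_eq_mul, mul_comm]

/-- An affine change of variables. -/
lemma lin_bound' (Φ : E → ℝ≥0∞) (hΦ : Measurable Φ)
    (L : E →ₗ[ℝ] E) (hL : Function.Injective L) (c : E) (S T : Set E) (hS : MeasurableSet S)
    (hT : MeasurableSet T) (hb : ∀ x ∈ S, L x + c ∈ T) :
    ∫⁻ x in S, Φ (L x + c) ≤ ENNReal.ofReal |(LinearMap.det L)⁻¹| * ∫⁻ u in T, Φ u := by
  have hdet : LinearMap.det L ≠ 0 := by
    have h1 : IsUnit L := by
      rw [LinearMap.isUnit_iff_ker_eq_bot]
      exact LinearMap.ker_eq_bot.mpr hL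
    exact (LinearMap.isUnit_iff_isUnit_det L).mp h1 |>.ne_zero
  have hΓm : Measurable (T.indicator Φ) := hΦ.indicator hT
  calc ∫⁻ x in S, Φ (L x + c) = ∫⁻ x in S, T.indicator Φ (L x + c) := by
        refine setLIntegral_congr_fun hS fun x hx => ?_
        show _ = T.indicator Φ (L x + c)
        rw [Set.indicator_of_mem (hb x hx)]
    _ ≤ ∫⁻ x, T.indicator Φ (L x + c) := setLIntegral_le_lintegral _ _
    _ = ∫⁻ y, T.indicator Φ (y + c) ∂(Measure.map L volume) := by
        exact (lintegral_map (f := fun y => T.indicator Φ (y + c))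
          (hΓm.comp (measurable_id.add_const c))
          (LinearMap.continuous_of_finiteDimensional L).measurable).symm
    _ = ENNReal.ofReal |(LinearMap.det L)⁻¹| * ∫⁻ y, T.indicator Φ (y + c) := by
        rw [Measure.map_linearMap_addHaar_eq_smul_addHaar _ hdet, lintegral_smul_measure]
        rfl
    _ = ENNReal.ofReal |(LinearMap.det L)⁻¹| * ∫⁻ y, T.indicator Φ y := by
        rw [lintegral_add_right_eq_self]
    _ = _ := by
        rw [lintegral_indicator hT]

lemma lin_bound {m : ℕ} (v : Fin m → E) (f : Fin m → ℝ → ℝ) (hc : ∀ i, Continuous (f i))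
    (L : E →ₗ[ℝ] E) (hL : Function.Injective L) (c : E) (S : Set E) (hS : MeasurableSet S)
    (hb : ∀ x ∈ S, ‖L x + c‖ ≤ 1) :
    ∫⁻ x in S, ENNReal.ofReal (Gs v f (L x + c)) ≤
      ENNReal.ofReal |(LinearMap.det L)⁻¹| * ∫⁻ u in closedBall (0 : E) 1, ENNReal.ofReal (Gs v f u) :=
  lin_bound' (fun u => ENNReal.ofReal (Gs v f u))
    (ENNReal.continuous_ofReal.comp (Gs_cont v f hc)).measurable L hL c S _ hS
    measurableSet_closedBall fun x hx => by simpa using hb x hx

/-- The vector orthogonal to `v (i.succAbove l)` with inner product `1` with `v i`. -/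
noncomputable def ww {m' : ℕ} (v : Fin (m' + 1) → E) (i : Fin (m' + 1)) (l : Fin m') : E :=
  (1 - inner ℝ (v i) (v (i.succAbove l)) ^ 2)⁻¹ •
    (v i - (inner ℝ (v i) (v (i.succAbove l)) : ℝ) • v (i.succAbove l))

omit [FiniteDimensional ℝ E] [MeasurableSpace E] [BorelSpace E] in
lemma ww_orth {m' : ℕ} {v : Fin (m' + 1) → E} (hv : ∀ i, ‖v i‖ = 1) (i : Fin (m' + 1)) (l : Fin m') :
    inner ℝ (ww v i l) (v (i.succAbove l)) = 0 := by
  unfold ww
  rw [real_inner_smul_left, inner_sub_left, real_inner_smul_left, real_inner_self_eq_norm_sq, hv]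
  ring

omit [FiniteDimensional ℝ E] [MeasurableSpace E] [BorelSpace E] in
lemma ww_one {m' : ℕ} {v : Fin (m' + 1) → E} (hv : ∀ i, ‖v i‖ = 1)
    (hne : ∀ i j, i ≠ j → |inner ℝ (v i) (v j)| < 1) (i : Fin (m' + 1)) (l : Fin m') :
    inner ℝ (ww v i l) (v i) = 1 := by
  have h1 := hne i (i.succAbove l) (Fin.succAbove_ne i l).symm
  have h2 : inner ℝ (v i) (v (i.succAbove l)) ^ 2 < 1 := by
    rw [← sq_abs]
    have := abs_nonneg (inner ℝ (v i) (v (i.succAbove l)) : ℝ)
    nlinarith
  unfold ww
  rw [real_inner_smul_left, inner_sub_left, real_inner_smul_left, real_inner_self_eq_norm_sq, hv,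
    real_inner_comm (v i) (v (i.succAbove l))]
  rw [inv_mul_eq_one₀ (by linarith)]
  ring

/-- The box. -/
def Box (e : E) (ρ τ : ℝ) : Set E := {x | ‖qq e x‖ ≤ ρ ∧ 0 ≤ inner ℝ x e ∧ inner ℝ x e ≤ τ}

omit [FiniteDimensional ℝ E] [MeasurableSpace E] [BorelSpace E] in
lemma qq_cont (e : E) : Continuous (qq e) := by
  unfold qq
  exact continuous_id.sub ((continuous_id.inner continuous_const).smul continuous_const)

omit [FiniteDimensional ℝ E] in
lemma box_meas (e : E) (ρ τ : ℝ) : MeasurableSet (Box e ρ τ) := by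
  have h1 : IsClosed {x : E | ‖qq e x‖ ≤ ρ} := isClosed_le (qq_cont e).norm continuous_const
  have h2 : IsClosed {x : E | 0 ≤ inner ℝ x e} :=
    isClosed_le continuous_const (continuous_id.inner continuous_const)
  have h3 : IsClosed {x : E | inner ℝ x e ≤ τ} :=
    isClosed_le (continuous_id.inner continuous_const) continuous_const
  exact (h1.inter (h2.inter h3)).measurableSet

omit [FiniteDimensional ℝ E] [MeasurableSpace E] [BorelSpace E] in
lemma box_sub {e : E} (he : ‖e‖ = 1) {ρ τ : ℝ} (hρ : ρ ≤ 1) (hτ : τ ≤ 1) :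
    Box e ρ τ ⊆ closedBall (0 : E) 2 := by
  intro x hx
  rw [mem_closedBall_zero_iff]
  have h1 : x = qq e x + (inner ℝ x e) • e := by unfold qq; abel
  calc ‖x‖ = ‖qq e x + (inner ℝ x e) • e‖ := by rw [← h1]
    _ ≤ ‖qq e x‖ + ‖(inner ℝ x e : ℝ) • e‖ := norm_add_le _ _
    _ ≤ 1 + 1 := by
        refine add_le_add (hx.1.trans hρ) ?_
        rw [norm_smul, he, mul_one, Real.norm_eq_abs, abs_of_nonneg hx.2.1]
        exact hx.2.2.trans hτ
    _ = 2 := by norm_num

/-- The linear part. -/
noncomputable def LL (e v W : E) : E →ₗ[ℝ] E :=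
  (rot e v).toLinearEquiv.toLinearMap ∘ₗ
      (LinearMap.id - (innerₛₗ ℝ e).smulRight e) + (innerₛₗ ℝ e).smulRight W

omit [FiniteDimensional ℝ E] [MeasurableSpace E] [BorelSpace E] in
lemma LL_apply (e v W x : E) : LL e v W x = rot e v (qq e x) + (inner ℝ x e : ℝ) • W := by
  unfold LL qq
  simp only [LinearMap.add_apply, LinearMap.comp_apply, LinearMap.sub_apply, LinearMap.id_apply,
    LinearMap.smulRight_apply, innerₛₗ_apply_apply]
  rw [real_inner_comm x e]
  rfl

omit [FiniteDimensional ℝ E] [MeasurableSpace E] [BorelSpace E] in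
lemma LL_inj {e v W : E} (he : ‖e‖ = 1) (hv : ‖v‖ = 1) (hW : inner ℝ W v ≠ 0) :
    Function.Injective (LL e v W) := by
  rw [injective_iff_map_eq_zero]
  intro x hx
  rw [LL_apply] at hx
  have h1 : inner ℝ (rot e v (qq e x) + (inner ℝ x e : ℝ) • W) v = 0 := by rw [hx, inner_zero_left]
  rw [inner_add_left, inner_rot_qq he hv, zero_add, real_inner_smul_left] at h1
  have h2 : inner ℝ x e = 0 := (mul_eq_zero.mp h1).resolve_right hW
  rw [h2, zero_smul, add_zero] at hx
  have h3 : qq e x = 0 := by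
    have := (rot e v).map_eq_zero_iff.mp hx
    exact this
  unfold qq at h3
  rwa [h2, zero_smul, sub_zero] at h3

/-- The average over a slice. -/
theorem slice {m' : ℕ} (v : Fin (m' + 1) → E) (hv : ∀ i, ‖v i‖ = 1)
    (hne : ∀ i j, i ≠ j → |inner ℝ (v i) (v j)| < 1) (κ : ℝ) (hκ : ∀ i l, ‖ww v i l‖ ≤ κ) :
    ∃ C : ℝ, 0 ≤ C ∧ ∀ (f : Fin (m' + 1) → ℝ → ℝ) (K : ℝ), (∀ i, Continuous (f i)) →
      (∀ x : ℝ, |x| ≤ 1 → 0 ≤ ∑ i, f i x ∧ ∑ i, f i x ≤ K) →
      (∀ u : E, ‖u‖ ≤ 1 → 0 ≤ Gs v f u) →
      ∀ (i0 : Fin (m' + 1)) (s ρ τ : ℝ), 0 ≤ ρ → 0 ≤ τ → τ ≤ 1 →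
        Real.sqrt (s ^ 2 + ρ ^ 2) + m' * (τ * κ) ≤ 1 →
        ∫⁻ x in Box (v 0) ρ τ, ENNReal.ofReal (Gs v f (s • v i0 + rot (v 0) (v i0) (qq (v 0) x))) ≤
          ENNReal.ofReal (C * K) := by
  classical
  set e := v 0 with he0
  have he : ‖e‖ = 1 := hv 0
  set B := volume.real (closedBall (0 : E) 1) with hB
  set B2 := volume.real (closedBall (0 : E) 2) with hB2
  set D : Fin (m' + 1) → Finset (Fin m') → ℝ := fun i t =>
    |(LinearMap.det (LL e (v i) (∑ l ∈ t, ww v i l)))⁻¹| with hD
  refine ⟨2 ^ m' * B2 + ∑ i, ∑ t ∈ (univ : Finset (Finset (Fin m'))).erase ∅, D i t * B,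
    by positivity, ?_⟩
  intro f K hc hf hG i0 s ρ τ hρ hτ hτ1 hb
  have hK : 0 ≤ K := (hf 0 (by simp)).1.trans (hf 0 (by simp)).2
  have hκ0 : 0 ≤ m' * (τ * κ) := by
    rcases Nat.eq_zero_or_pos m' with h | h
    · subst h; simp
    · have h1 := (norm_nonneg _).trans (hκ 0 ⟨0, h⟩)
      positivity
  have hρ1 : ρ ≤ 1 := by
    have h1 : ρ ≤ Real.sqrt (s ^ 2 + ρ ^ 2) := Real.le_sqrt_of_sq_le (by nlinarith [sq_nonneg s])
    linarith
  -- the pointwise inequality
  have hpt : ∀ x ∈ Box e ρ τ, Gs v f (s • v i0 + rot e (v i0) (qq e x)) ≤ 2 ^ m' * K +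
      ∑ i, ∑ t ∈ (univ : Finset (Finset (Fin m'))).erase ∅,
        Gs v f (LL e (v i) (∑ l ∈ t, ww v i l) x + s • v i) := by
    intro x hx
    obtain ⟨hx1, hx2, hx3⟩ := hx
    have hyn : ∀ i, ‖s • v i + rot e (v i) (qq e x)‖ ≤ Real.sqrt (s ^ 2 + ρ ^ 2) := by
      intro i
      refine Real.le_sqrt_of_sq_le ?_
      rw [norm_add_sq_real, real_inner_smul_left, real_inner_comm, inner_rot_qq he (hv i), norm_smul,
        hv i, LinearIsometryEquiv.norm_map, Real.norm_eq_abs]
      have : ‖qq e x‖ ^ 2 ≤ ρ ^ 2 := pow_le_pow_left₀ (norm_nonneg _) hx1 2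
      have h2 : (|s| * 1) ^ 2 = s ^ 2 := by rw [mul_one, sq_abs]
      rw [h2]
      linarith
    have hbb : ∀ i, ∀ t : Finset (Fin m'),
        ‖(s • v i + rot e (v i) (qq e x)) + ∑ l ∈ t, (inner ℝ x e : ℝ) • ww v i l‖ ≤ 1 := by
      intro i t
      refine (norm_add_le _ _).trans ((add_le_add (hyn i) ?_).trans hb)
      calc ‖∑ l ∈ t, (inner ℝ x e : ℝ) • ww v i l‖ ≤ ∑ l ∈ t, ‖(inner ℝ x e : ℝ) • ww v i l‖ :=
            norm_sum_le _ _
        _ ≤ ∑ l ∈ t, τ * κ := by
            refine Finset.sum_le_sum fun l _ => ?_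
            rw [norm_smul, Real.norm_eq_abs, abs_of_nonneg hx2]
            exact mul_le_mul hx3 (hκ i l) (norm_nonneg _) hτ
        _ ≤ ∑ l : Fin m', τ * κ := by
            refine Finset.sum_le_sum_of_subset_of_nonneg (Finset.subset_univ _) fun l _ _ => ?_
            exact mul_nonneg hτ ((norm_nonneg _).trans (hκ i l))
        _ = m' * (τ * κ) := by
            rw [Finset.sum_const, nsmul_eq_mul, Finset.card_univ, Fintype.card_fin]
    have hy : ∀ i, inner ℝ (s • v i + rot e (v i) (qq e x)) (v i) = s := by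
      intro i
      rw [inner_add_left, real_inner_smul_left, real_inner_self_eq_norm_sq, hv i,
        inner_rot_qq he (hv i)]
      ring
    have h1 := point_ineq v f K s hf hG (fun i => s • v i + rot e (v i) (qq e x))
      (fun i l => (inner ℝ x e : ℝ) • ww v i l) (fun _ => inner ℝ x e)
      (fun i l => by rw [real_inner_smul_left, ww_orth hv, mul_zero])
      (fun i l => by rw [real_inner_smul_left, ww_one hv hne, mul_one]) hy hbb
      (fun t => by
        have h2 := abs_real_inner_le_norm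
          ((s • v 0 + rot e (v 0) (qq e x)) + ∑ l ∈ t, (inner ℝ x e : ℝ) • ww v 0 l) (v 0)
        rw [hv 0, mul_one] at h2
        have h3 := h2.trans (hbb 0 t)
        rw [inner_add_left, hy 0, sum_inner] at h3
        simp only [real_inner_smul_left, ww_one hv hne, mul_one] at h3
        exact h3) i0
    refine h1.trans (le_of_eq ?_)
    congr 1
    refine Finset.sum_congr rfl fun i _ => Finset.sum_congr rfl fun t _ => ?_
    congr 1
    rw [LL_apply, ← Finset.smul_sum]
    abel
  -- integrate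
  have hm1 : ∀ i t, Measurable fun x =>
      ENNReal.ofReal (Gs v f (LL e (v i) (∑ l ∈ t, ww v i l) x + s • v i)) := by
    intro i t
    refine (ENNReal.continuous_ofReal.comp ((Gs_cont v f hc).comp ?_)).measurable
    exact (LinearMap.continuous_of_finiteDimensional _).add continuous_const
  calc ∫⁻ x in Box e ρ τ, ENNReal.ofReal (Gs v f (s • v i0 + rot e (v i0) (qq e x))) ≤
      ∫⁻ x in Box e ρ τ, (ENNReal.ofReal (2 ^ m' * K) +
        ∑ i, ∑ t ∈ (univ : Finset (Finset (Fin m'))).erase ∅,
          ENNReal.ofReal (Gs v f (LL e (v i) (∑ l ∈ t, ww v i l) x + s • v i))) := by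
        refine setLIntegral_mono' (box_meas e ρ τ) fun x hx => ?_
        refine (ENNReal.ofReal_le_ofReal (hpt x hx)).trans ?_
        refine ENNReal.ofReal_add_le.trans (add_le_add le_rfl ?_)
        refine (ofReal_sum_le' _ _).trans (Finset.sum_le_sum fun i _ => ?_)
        exact ofReal_sum_le' _ _
    _ = ENNReal.ofReal (2 ^ m' * K) * volume (Box e ρ τ) +
        ∑ i, ∑ t ∈ (univ : Finset (Finset (Fin m'))).erase ∅,
          ∫⁻ x in Box e ρ τ, ENNReal.ofReal (Gs v f (LL e (v i) (∑ l ∈ t, ww v i l) x + s • v i)) := by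
        rw [lintegral_add_left measurable_const, setLIntegral_const,
          lintegral_finsetSum _ fun i _ => Finset.measurable_sum _ fun t _ => hm1 i t]
        congr 1
        refine Finset.sum_congr rfl fun i _ => ?_
        rw [lintegral_finsetSum _ fun t _ => hm1 i t]
    _ ≤ ENNReal.ofReal (2 ^ m' * K) * ENNReal.ofReal B2 +
        ∑ i, ∑ t ∈ (univ : Finset (Finset (Fin m'))).erase ∅,
          ENNReal.ofReal (D i t) * ENNReal.ofReal (K * B) := by
        refine add_le_add ?_ (Finset.sum_le_sum fun i _ => Finset.sum_le_sum fun t ht => ?_)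
        · refine mul_le_mul le_rfl ?_ zero_le zero_le
          rw [hB2, ofReal_measureReal (measure_closedBall_lt_top).ne]
          exact measure_mono (box_sub he hρ1 hτ1)
        · have hcard : 0 < t.card := by
            rw [Finset.mem_erase] at ht
            exact Finset.card_pos.mpr (Finset.nonempty_iff_ne_empty.mpr ht.1)
          have hW : inner ℝ (∑ l ∈ t, ww v i l) (v i) ≠ 0 := by
            rw [sum_inner]
            simp only [ww_one hv hne, Finset.sum_const, nsmul_eq_mul, mul_one]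
            exact_mod_cast hcard.ne'
          refine (lin_bound v f hc _ (LL_inj he (hv i) hW) (s • v i) _ (box_meas e ρ τ) ?_).trans ?_
          · intro x hx
            obtain ⟨hx1, hx2, hx3⟩ := hx
            rw [LL_apply]
            have h5 : rot e (v i) (qq e x) + (inner ℝ x e : ℝ) • ∑ l ∈ t, ww v i l + s • v i =
                (s • v i + rot e (v i) (qq e x)) + ∑ l ∈ t, (inner ℝ x e : ℝ) • ww v i l := by
              rw [← Finset.smul_sum]; abel
            rw [h5]
            refine (norm_add_le _ _).trans ((add_le_add ?_ ?_).trans hb)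
            · refine Real.le_sqrt_of_sq_le ?_
              rw [norm_add_sq_real, real_inner_smul_left, real_inner_comm, inner_rot_qq he (hv i),
                norm_smul, hv i, LinearIsometryEquiv.norm_map, Real.norm_eq_abs]
              have : ‖qq e x‖ ^ 2 ≤ ρ ^ 2 := pow_le_pow_left₀ (norm_nonneg _) hx1 2
              have h2 : (|s| * 1) ^ 2 = s ^ 2 := by rw [mul_one, sq_abs]
              rw [h2]
              linarith
            · calc ‖∑ l ∈ t, (inner ℝ x e : ℝ) • ww v i l‖ ≤
                    ∑ l ∈ t, ‖(inner ℝ x e : ℝ) • ww v i l‖ := norm_sum_le _ _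
                _ ≤ ∑ l ∈ t, τ * κ := by
                    refine Finset.sum_le_sum fun l _ => ?_
                    rw [norm_smul, Real.norm_eq_abs, abs_of_nonneg hx2]
                    exact mul_le_mul hx3 (hκ i l) (norm_nonneg _) hτ
                _ ≤ ∑ l : Fin m', τ * κ := by
                    refine Finset.sum_le_sum_of_subset_of_nonneg (Finset.subset_univ _)
                      fun l _ _ => ?_
                    exact mul_nonneg hτ ((norm_nonneg _).trans (hκ i l))
                _ = m' * (τ * κ) := by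
                    rw [Finset.sum_const, nsmul_eq_mul, Finset.card_univ, Fintype.card_fin]
          · exact mul_le_mul le_rfl (total v hv f K hc hf hG) zero_le zero_le
    _ = ENNReal.ofReal ((2 ^ m' * B2 +
          ∑ i, ∑ t ∈ (univ : Finset (Finset (Fin m'))).erase ∅, D i t * B) * K) := by
        have hB0 : 0 ≤ B := measureReal_nonneg
        have hB20 : 0 ≤ B2 := measureReal_nonneg
        have hD0 : ∀ i t, 0 ≤ D i t := fun i t => abs_nonneg _
        rw [← ENNReal.ofReal_mul (by positivity), add_mul, ENNReal.ofReal_add (by positivity)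
          (mul_nonneg (Finset.sum_nonneg fun i _ => Finset.sum_nonneg fun t _ =>
            mul_nonneg (hD0 i t) hB0) hK)]
        congr 1
        · congr 1; ring
        · rw [Finset.sum_mul, ENNReal.ofReal_sum_of_nonneg (fun i _ => mul_nonneg
            (Finset.sum_nonneg fun t _ => mul_nonneg (hD0 i t) hB0) hK)]
          refine Finset.sum_congr rfl fun i _ => ?_
          rw [Finset.sum_mul, ENNReal.ofReal_sum_of_nonneg (fun t _ => mul_nonneg
            (mul_nonneg (hD0 i t) hB0) hK)]
          refine Finset.sum_congr rfl fun t _ => ?_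
          rw [← ENNReal.ofReal_mul (hD0 i t)]
          congr 1
          ring

end Pool.Agent.Lib.P23O
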